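import Pool.Agent.Helper27.SK.Form
import Pool.Agent.H933R2.Hopf.GB

/-!
# The sum of the form over a family of matrices given by the curvature operator of the second kind
-/

set_option autoImplicit false

open scoped BigOperators

namespace Pool.Agent.Helper27.SK

open Hopf6

/-- the tensor of second moments -/
noncomputable def Cw (W : Ten) (i j k l : Fin 6) : ℝ :=
  -(1 / 2) * (W i k j l + W i l j k) + 1 / 2 * (dl i k * dl j l + dl i l * dl j k) -
    1 / 6 * (dl i j * dl k l)

theorem sum_S6 {ι : Type} [Fintype ι] (G : ι → Fin 6 → Fin 6 → Fin 6 → Fin 6 → Fin 6 → Fin 6 → ℝ) :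
    ∑ i, S6 (G i) = S6 fun a b c d e f => ∑ i, G i a b c d e f := by
  unfold S6
  rw [Finset.sum_comm]
  refine Finset.sum_congr rfl fun a _ => ?_
  rw [Finset.sum_comm]
  refine Finset.sum_congr rfl fun b _ => ?_
  rw [Finset.sum_comm]
  refine Finset.sum_congr rfl fun c _ => ?_
  rw [Finset.sum_comm]
  refine Finset.sum_congr rfl fun d _ => ?_
  rw [Finset.sum_comm]
  refine Finset.sum_congr rfl fun e _ => ?_
  rw [Finset.sum_comm]

theorem dl_mul_sum (F : Fin 6 → ℝ) (a : Fin 6) : ∑ c, dl c a * F c = F a := by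
  simp [dl]

section
variable {W : Ten}

theorem trW1 (hW : IsWeyl W) (x y : Fin 6) : ∑ c, W c x c y = 0 := by
  rw [← hW.rc x y]
  exact Finset.sum_congr rfl fun c _ => by rw [hW.curv.anti x c c y, an2 hW.curv x c y c]; ring

theorem trW2 (hW : IsWeyl W) (x y : Fin 6) : ∑ c, W c x y c = 0 := by
  rw [show (0 : ℝ) = - 0 by ring, ← trW1 hW x y, ← Finset.sum_neg_distrib]
  exact Finset.sum_congr rfl fun c _ => an2 hW.curv c x c y

theorem trW3 (hW : IsWeyl W) (x y : Fin 6) : ∑ c, W x c c y = 0 := by
  rw [show (0 : ℝ) = - 0 by ring, ← trW1 hW x y, ← Finset.sum_neg_distrib]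
  exact Finset.sum_congr rfl fun c _ => hW.curv.anti c x c y

theorem W_xx (hW : IsCurv W) (x y z : Fin 6) : W x x y z = 0 := by
  have := hW.anti x x y z
  linarith

/-- the contraction of the moments -/
theorem C_contr (hW : IsWeyl W) (m n : Fin 6) : ∑ a, Cw W a m a n = 10 / 3 * dl m n := by
  unfold Cw
  have e1 : ∑ a, W a a m n = 0 := Finset.sum_eq_zero fun a _ => W_xx hW.curv a m n
  have e2 : ∑ a, W a n m a = 0 := trW2 hW n m
  have e3 : ∑ a : Fin 6, dl a a * dl m n = 6 * dl m n := by simp [dl]
  have e4 : ∑ a, dl a n * dl m a = dl m n := by simp [dl]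
  have e5 : ∑ a, dl a m * dl a n = dl m n := by simp [dl, eq_comm]
  simp only [Finset.sum_add_distrib, Finset.sum_sub_distrib, ← Finset.mul_sum]
  rw [e1, e2, e3, e4, e5]
  ring

/-- the Bianchi identity for the norms -/
theorem half (hW : IsCurv W) : S4 (fun a b d e => W a b d e * W d b a e) = 1 / 2 * nS W := by
  have h1 : S4 (fun a b d e => W a b d e * W a b d e) = nS W := rfl
  have h2 : S4 (fun a b d e => W a d b e * W a d b e) = nS W := by
    rw [S4_23 (fun a b d e => W a b d e * W a b d e)]
    rfl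
  have h3 : S4 (fun a b d e => W d b a e * W d b a e) = nS W := by
    rw [← h1, ← S4_12 (fun a b d e => W a b d e * W a b d e),
      ← S4_23 (fun a b d e => W b a d e * W b a d e), ← S4_12 (fun a b d e => W d a b e * W d a b e)]
  -- W a b d e - W d b a e = W a d b e
  have h4 : ∀ a b d e, W a d b e = W a b d e - W d b a e := by
    intro a b d e
    have := hW.bianchi a b d e
    rw [hW.anti d b a e, hW.anti a d b e] at this
    linarith
  have h5 : S4 (fun a b d e => W a d b e * W a d b e) =
      nS W + nS W - 2 * S4 (fun a b d e => W a b d e * W d b a e) := by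
    have e : ∀ a b d e, W a d b e * W a d b e = (W a b d e * W a b d e + W d b a e * W d b a e) -
        2 * (W a b d e * W d b a e) := by
      intro a b d e
      rw [h4]
      ring
    rw [S4_congr e, S4_sub, S4_add, S4_mul, h1, h3]
  linarith

theorem dd_eq (W : Ten) (h : M) (hW : IsCurv W) :
    dd W h = 4 * q2 W h - 4 * S4 (fun a b c d => Y W h a b c d * Y W h b a c d) +
      8 * S4 (fun a b c d => Y W h a b c d * Y W h c d a b) := by
  have an := Y_anti (h := h) hW
  have s1 : S4 (fun a b c d => Y W h a b c d * Y W h a b c d) = q2 W h := rfl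
  have s2 : S4 (fun a b c d => Y W h b a c d * Y W h b a c d) = q2 W h := by
    rw [S4_12 (fun a b c d => Y W h a b c d * Y W h a b c d)]
    rfl
  have s3 : S4 (fun a b c d => Y W h c d a b * Y W h c d a b) = q2 W h := by
    rw [S4_pair (fun a b c d => Y W h a b c d * Y W h a b c d)]
    rfl
  have s4 : S4 (fun a b c d => Y W h d c a b * Y W h d c a b) = q2 W h := by
    rw [S4_pair (fun a b c d => Y W h b a c d * Y W h b a c d), s2]
  have t1 : S4 (fun a b c d => Y W h c d a b * Y W h d c a b) =
      S4 (fun a b c d => Y W h a b c d * Y W h b a c d) :=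
    S4_pair (fun a b c d => Y W h a b c d * Y W h b a c d)
  set v := S4 (fun a b c d => Y W h a b c d * Y W h c d a b) with hv
  have v1 : S4 (fun a b c d => Y W h a b c d * Y W h d c a b) = - v := by
    rw [hv, ← S4_neg, ← S4_34]
    refine S4_congr fun a b c d => ?_
    rw [an a b c d]
    ring
  have v2 : S4 (fun a b c d => Y W h b a c d * Y W h c d a b) = - v := by
    rw [hv, ← S4_neg, ← S4_12]
    refine S4_congr fun a b c d => ?_
    rw [an c d b a]
    ring
  have v3 : S4 (fun a b c d => Y W h b a c d * Y W h d c a b) = v := by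
    have : - v = S4 (fun a b c d => Y W h b a c d * Y W h c d a b) := v2.symm
    have e : S4 (fun a b c d => Y W h b a c d * Y W h d c a b) = - (-v) := by
      rw [this, ← S4_neg, ← S4_34]
      refine S4_congr fun a b c d => ?_
      rw [an b a c d]
      ring
    rw [e]
    ring
  have e : ∀ a b c d, D W h a b c d * D W h a b c d =
      (Y W h a b c d * Y W h a b c d + Y W h b a c d * Y W h b a c d + Y W h c d a b * Y W h c d a b +
      Y W h d c a b * Y W h d c a b) + ((-2) * (Y W h a b c d * Y W h b a c d) +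
      2 * (Y W h a b c d * Y W h c d a b) + (-2) * (Y W h a b c d * Y W h d c a b) +
      (-2) * (Y W h b a c d * Y W h c d a b) + 2 * (Y W h b a c d * Y W h d c a b) +
      (-2) * (Y W h c d a b * Y W h d c a b)) := by
    intro a b c d
    unfold D
    ring
  unfold dd
  rw [S4_congr e]
  simp only [S4_add, S4_mul]
  rw [s1, s2, s3, s4, t1, v1, v2, v3]
  ring

/-- evaluation of a sum against the moments -/
theorem S6_C (W : Ten) (G : Fin 6 → Fin 6 → Fin 6 → Fin 6 → Fin 6 → Fin 6 → ℝ) :
    S6 (fun p q i j k l => G p q i j k l * Cw W i j k l) =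
      -(1 / 2) * (S6 (fun p q i j k l => G p q i j k l * W i k j l) +
        S6 (fun p q i j k l => G p q i j k l * W i l j k)) +
      1 / 2 * (S4 (fun p q i j => G p q i j i j) + S4 (fun p q i j => G p q i j j i)) -
      1 / 6 * S4 (fun p q i k => G p q i i k k) := by
  have d1 : S6 (fun p q i j k l => G p q i j k l * (dl i k * dl j l)) =
      S4 (fun p q i j => G p q i j i j) := by
    unfold S6 S4
    refine Finset.sum_congr rfl fun p _ => Finset.sum_congr rfl fun q _ =>
      Finset.sum_congr rfl fun i _ => Finset.sum_congr rfl fun j _ => ?_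
    change _ = G p q i j i j
    rw [← dl_sum i (fun k => G p q i j k j)]
    refine Finset.sum_congr rfl fun k _ => ?_
    rw [← dl_sum j (fun l => G p q i j k l), Finset.mul_sum]
    exact Finset.sum_congr rfl fun l _ => by ring
  have d2 : S6 (fun p q i j k l => G p q i j k l * (dl i l * dl j k)) =
      S4 (fun p q i j => G p q i j j i) := by
    unfold S6 S4
    refine Finset.sum_congr rfl fun p _ => Finset.sum_congr rfl fun q _ =>
      Finset.sum_congr rfl fun i _ => Finset.sum_congr rfl fun j _ => ?_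
    change _ = G p q i j j i
    rw [← dl_sum j (fun k => G p q i j k i)]
    refine Finset.sum_congr rfl fun k _ => ?_
    rw [← dl_sum i (fun l => G p q i j k l), Finset.mul_sum]
    exact Finset.sum_congr rfl fun l _ => by ring
  have d3 : S6 (fun p q i j k l => G p q i j k l * (dl i j * dl k l)) =
      S4 (fun p q i k => G p q i i k k) := by
    unfold S6 S4
    refine Finset.sum_congr rfl fun p _ => Finset.sum_congr rfl fun q _ =>
      Finset.sum_congr rfl fun i _ => ?_
    rw [Finset.sum_comm]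
    refine Finset.sum_congr rfl fun k _ => ?_
    change _ = G p q i i k k
    rw [← dl_sum i (fun j => G p q i j k k)]
    refine Finset.sum_congr rfl fun j _ => ?_
    rw [← dl_sum k (fun l => G p q i j k l), Finset.mul_sum]
    exact Finset.sum_congr rfl fun l _ => by ring
  have e : ∀ p q i j k l, G p q i j k l * Cw W i j k l =
      -(1 / 2) * (G p q i j k l * W i k j l) + -(1 / 2) * (G p q i j k l * W i l j k) +
      1 / 2 * (G p q i j k l * (dl i k * dl j l)) + 1 / 2 * (G p q i j k l * (dl i l * dl j k)) +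
      -(1 / 6) * (G p q i j k l * (dl i j * dl k l)) := by
    intro p q i j k l
    unfold Cw
    ring
  rw [S6_congr e]
  simp only [S6_add, S6_mul]
  rw [d1, d2, d3]
  ring

theorem net4a (hW : IsCurv W) : S6 (fun p q i j k l => W i p j q * W k p l q * W i k j l) = I8 W := by
  have h := net_eval hW (ℓ := ![2, 0, 3, 1, 4, 0, 5, 1, 2, 4, 3, 5]) (c := 11) (v := 0) (d0 := 3)
    (d1 := 3) (d2 := 0) (σ := ![0, 2, 1, 3, 4, 5]) (by decide)
  rw [net_sum6] at h
  simp only [T3, Matrix.cons_val, vals, d4s] at h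
  push_cast at h
  unfold S6
  rw [h]
  ring

theorem net4b (hW : IsCurv W) : S6 (fun p q i j k l => W i p j q * W k p l q * W i l j k) = (I8 W - I7 W / 4) := by
  have h := net_eval hW (ℓ := ![2, 0, 3, 1, 4, 0, 5, 1, 2, 5, 3, 4]) (c := 12) (v := 0) (d0 := 3)
    (d1 := 3) (d2 := 0) (σ := ![0, 2, 1, 3, 4, 5]) (by decide)
  rw [net_sum6] at h
  simp only [T3, Matrix.cons_val, vals, d4s] at h
  push_cast at h
  unfold S6
  rw [h]
  ring

theorem netUa (hW : IsCurv W) : S6 (fun p q i j k l => W j k p q * W l i p q * W i k j l) = - (I7 W / 2) := by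
  have h := net_eval hW (ℓ := ![3, 4, 0, 1, 5, 2, 0, 1, 2, 4, 3, 5]) (c := 9) (v := 0) (d0 := 4)
    (d1 := 4) (d2 := 6) (σ := ![0, 1, 3, 4, 5, 2]) (by decide)
  rw [net_sum6] at h
  simp only [T3, Matrix.cons_val, vals, d4s] at h
  push_cast at h
  unfold S6
  rw [h]
  ring

theorem netUb (hW : IsCurv W) : S6 (fun p q i j k l => W j k p q * W l i p q * W i l j k) = - I7 W := by
  have h := net_eval hW (ℓ := ![3, 4, 0, 1, 5, 2, 0, 1, 2, 5, 3, 4]) (c := 8) (v := 0) (d0 := 4)
    (d1 := 4) (d2 := 6) (σ := ![0, 1, 3, 4, 5, 2]) (by decide)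
  rw [net_sum6] at h
  simp only [T3, Matrix.cons_val, vals, d4s] at h
  push_cast at h
  unfold S6
  rw [h]
  ring

theorem netVa (hW : IsCurv W) : S6 (fun p q i j k l => W j p k q * W l q i p * W i k j l) = - (I8 W - I7 W / 4) := by
  have h := net_eval hW (ℓ := ![3, 0, 4, 1, 5, 1, 2, 0, 2, 4, 3, 5]) (c := 12) (v := 0) (d0 := 3)
    (d1 := 7) (d2 := 6) (σ := ![0, 3, 1, 4, 2, 5]) (by decide)
  rw [net_sum6] at h
  simp only [T3, Matrix.cons_val, vals, d4s] at h
  push_cast at h
  unfold S6
  rw [h]
  ring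

theorem netVb (hW : IsCurv W) : S6 (fun p q i j k l => W j p k q * W l q i p * W i l j k) = (I7 W / 4) := by
  have h := net_eval hW (ℓ := ![3, 0, 4, 1, 5, 1, 2, 0, 2, 5, 3, 4]) (c := 10) (v := 1) (d0 := 0)
    (d1 := 4) (d2 := 7) (σ := ![3, 0, 4, 1, 2, 5]) (by decide)
  rw [net_sum6] at h
  simp only [T3, Matrix.cons_val, vals, d4s] at h
  push_cast at h
  unfold S6
  rw [h]
  ring

section
variable {ι : Type} [Fintype ι] {g : ι → M}

theorem sum_C (G : Fin 6 → Fin 6 → Fin 6 → Fin 6 → Fin 6 → Fin 6 → ℝ)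
    (hC : ∀ a b c d, ∑ i, g i a b * g i c d = Cw W a b c d) :
    ∑ n, S6 (fun p q i j k l => G p q i j k l * (g n i j * g n k l)) =
      S6 (fun p q i j k l => G p q i j k l * Cw W i j k l) := by
  rw [sum_S6]
  refine S6_congr fun p q i j k l => ?_
  rw [← Finset.mul_sum, hC]

theorem av_hh (hW : IsWeyl W) (hC : ∀ a b c d, ∑ i, g i a b * g i c d = Cw W a b c d) :
    ∑ n, hh (g n) = 20 := by
  unfold hh
  rw [Finset.sum_comm]
  have e1 : ∀ a : Fin 6, ∑ n, ∑ b, g n a b * g n a b = ∑ b, Cw W a b a b := by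
    intro a
    rw [Finset.sum_comm]
    exact Finset.sum_congr rfl fun b _ => hC a b a b
  simp only [e1]
  rw [Finset.sum_comm]
  simp only [C_contr hW]
  simp [dl]
  norm_num

theorem av_q2 (hW : IsWeyl W) (hC : ∀ a b c d, ∑ i, g i a b * g i c d = Cw W a b c d) :
    ∑ n, q2 W (g n) = 10 / 3 * nS W := by
  simp only [q2_eq]
  rw [Finset.sum_comm]
  have e1 : ∀ m : Fin 6, ∑ n, ∑ k, (∑ a, g n a m * g n a k) * SS W m k =
      ∑ k, (10 / 3 * dl m k) * SS W m k := by
    intro m
    rw [Finset.sum_comm]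
    refine Finset.sum_congr rfl fun k _ => ?_
    rw [← Finset.sum_mul, Finset.sum_comm, ← C_contr hW m k]
    congr 1
    exact Finset.sum_congr rfl fun a _ => hC a m a k
  simp only [e1]
  have e2 : ∀ m, ∑ k, (10 / 3 * dl m k) * SS W m k = 10 / 3 * SS W m m := by
    intro m
    have : ∀ k, (10 / 3 * dl m k) * SS W m k = 10 / 3 * (dl m k * SS W m k) := fun k => by ring
    simp only [this]
    rw [← Finset.mul_sum, dl_sum m (fun k => SS W m k)]
  simp only [e2]
  rw [← Finset.mul_sum]
  rfl

theorem q4_form (W : Ten) (h : M) :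
    q4 W h = S6 fun p q i j k l => (W i p j q * W k p l q) * (h i j * h k l) := by
  rw [← base4]
  exact S6_congr fun p q i j k l => by ring

theorem u_form (W : Ten) (h : M) :
    S4 (fun a b c d => Y W h a b c d * Y W h b a c d) =
      S6 fun p q i j k l => (W j k p q * W l i p q) * (h i j * h k l) := by
  have e1 : S4 (fun a b c d => Y W h a b c d * Y W h b a c d) =
      S6 fun a b c d m n => (h a m * W m b c d) * (h b n * W n a c d) := by
    unfold S4 S6 Y
    simp only [Finset.sum_mul_sum]
  rw [e1, S6_rel _ ![2, 4, 0, 1, 3, 5] (by decide)]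
  refine S6_congr fun p q i j k l => ?_
  simp only [Matrix.cons_val]
  ring

theorem v_form (W : Ten) (h : M) :
    S4 (fun a b c d => Y W h a b c d * Y W h c d a b) =
      S6 fun p q i j k l => (W j p k q * W l q i p) * (h i j * h k l) := by
  have e1 : S4 (fun a b c d => Y W h a b c d * Y W h c d a b) =
      S6 fun a b c d m n => (h a m * W m b c d) * (h c n * W n d a b) := by
    unfold S4 S6 Y
    simp only [Finset.sum_mul_sum]
  rw [e1, S6_rel _ ![2, 0, 4, 1, 3, 5] (by decide)]
  refine S6_congr fun p q i j k l => ?_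
  simp only [Matrix.cons_val]
  ring

theorem av_q4 (hW : IsWeyl W) (hC : ∀ a b c d, ∑ i, g i a b * g i c d = Cw W a b c d) :
    ∑ n, q4 W (g n) = 3 / 4 * nS W + 1 / 8 * I7 W - I8 W := by
  simp only [q4_form]
  rw [sum_C _ hC, S6_C, net4a hW.curv, net4b hW.curv]
  have s1 : S4 (fun p q i j => W i p j q * W i p j q) = nS W := by
    rw [← S4_23 (fun p q i j => W i p j q * W i p j q),
      ← S4_12 (fun p i q j => W i p j q * W i p j q),
      ← S4_34 (fun i p q j => W i p j q * W i p j q)]
    rfl
  have s2 : S4 (fun p q i j => W i p j q * W j p i q) = 1 / 2 * nS W := by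
    rw [← half hW.curv, ← S4_23 (fun p q i j => W i p j q * W j p i q),
      ← S4_12 (fun p i q j => W i p j q * W j p i q),
      ← S4_34 (fun i p q j => W i p j q * W j p i q)]
  have s3 : S4 (fun p q i k => W i p i q * W k p k q) = 0 := by
    unfold S4
    refine Finset.sum_eq_zero fun p _ => Finset.sum_eq_zero fun q _ => Finset.sum_eq_zero fun i _ => ?_
    rw [← Finset.mul_sum, trW1 hW, mul_zero]
  rw [s1, s2, s3]
  ring

theorem av_u (hW : IsWeyl W) (hC : ∀ a b c d, ∑ i, g i a b * g i c d = Cw W a b c d) :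
    ∑ n, S4 (fun a b c d => Y W (g n) a b c d * Y W (g n) b a c d) =
      2 / 3 * nS W + 3 / 4 * I7 W := by
  simp only [u_form]
  rw [sum_C _ hC, S6_C, netUa hW.curv, netUb hW.curv]
  have s1 : S4 (fun p q i j => W j i p q * W j i p q) = nS W := by
    rw [← S4_pair (fun p q i j => W j i p q * W j i p q),
      ← S4_12 (fun i j p q => W j i p q * W j i p q)]
    rfl
  have s2 : S4 (fun p q i j => W j j p q * W i i p q) = 0 := by
    unfold S4
    refine Finset.sum_eq_zero fun p _ => Finset.sum_eq_zero fun q _ => Finset.sum_eq_zero fun i _ =>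
      Finset.sum_eq_zero fun j _ => ?_
    change W j j p q * W i i p q = 0
    rw [W_xx hW.curv, zero_mul]
  have s3 : S4 (fun p q i k => W i k p q * W k i p q) = - nS W := by
    rw [← s1, ← S4_neg]
    refine S4_congr fun p q i k => ?_
    rw [hW.curv.anti k i p q]
    ring
  rw [s1, s2, s3]
  ring

theorem av_v (hW : IsWeyl W) (hC : ∀ a b c d, ∑ i, g i a b * g i c d = Cw W a b c d) :
    ∑ n, S4 (fun a b c d => Y W (g n) a b c d * Y W (g n) c d a b) =
      1 / 12 * nS W - 1 / 4 * I7 W + 1 / 2 * I8 W := by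
  simp only [v_form]
  rw [sum_C _ hC, S6_C, netVa hW.curv, netVb hW.curv]
  have s1 : S4 (fun p q i j => W j p i q * W j q i p) = 1 / 2 * nS W := by
    rw [← half hW.curv, ← S4_23 (fun p q i j => W j p i q * W j q i p),
      ← S4_12 (fun p i q j => W j p i q * W j q i p),
      ← S4_34 (fun i p q j => W j p i q * W j q i p)]
    refine S4_congr fun i p j q => ?_
    rw [← hW.curv.pair i p j q]
    ring
  have s2 : S4 (fun p q i j => W j p j q * W i q i p) = 0 := by
    unfold S4
    refine Finset.sum_eq_zero fun p _ => Finset.sum_eq_zero fun q _ => Finset.sum_eq_zero fun i _ => ?_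
    rw [← Finset.sum_mul, trW1 hW, zero_mul]
  have s3 : S4 (fun p q i k => W i p k q * W k q i p) = nS W := by
    have e : ∀ p q i k, W i p k q * W k q i p = W i p k q * W i p k q := by
      intro p q i k
      rw [hW.curv.pair i p k q]
    rw [S4_congr e, ← S4_23 (fun p q i j => W i p j q * W i p j q),
      ← S4_12 (fun p i q j => W i p j q * W i p j q),
      ← S4_34 (fun i p q j => W i p j q * W i p j q)]
    rfl
  rw [s1, s2, s3]
  ring

theorem av_FF (hW : IsWeyl W) (hC : ∀ a b c d, ∑ i, g i a b * g i c d = Cw W a b c d) :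
    ∑ n, FF W (g n) = 18 * nS W + 6 * I7 W - 12 * I8 W := by
  have e : ∀ n, FF W (g n) = 3 / 2 * nS W * hh (g n) + (-6) * q2 W (g n) +
      4 * S4 (fun a b c d => Y W (g n) a b c d * Y W (g n) b a c d) +
      (-8) * S4 (fun a b c d => Y W (g n) a b c d * Y W (g n) c d a b) + 8 * q4 W (g n) := by
    intro n
    unfold FF
    rw [dd_eq W (g n) hW.curv]
    ring
  simp only [e, Finset.sum_add_distrib, ← Finset.mul_sum]
  rw [av_hh hW hC, av_q2 hW hC, av_u hW hC, av_v hW hC, av_q4 hW hC]
  ring

end

end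

end Pool.Agent.Helper27.SK
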