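import Pool.Agent.Helper27.SK.Avg

/-!
# The bound of the norm of the Weyl tensor
-/

set_option autoImplicit false

open scoped BigOperators

namespace Pool.Agent.Helper27.SK

open Hopf6

section
variable {W : Ten}

theorem N2 (hW : IsCurv W) : S4 (fun i j k l => W i k j l * W i l j k) = 1 / 2 * nS W := by
  rw [← half hW, ← S4_23 (fun a b d e => W a b d e * W d b a e)]
  refine S4_congr fun i j k l => ?_
  rw [hW.pair j k i l]

theorem N0 (W : Ten) : S4 (fun i j k l => W i k j l * W i k j l) = nS W := by
  rw [S4_23 (fun i j k l => W i j k l * W i j k l)]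
  rfl

theorem bia (hW : IsCurv W) (i j k l : Fin 6) : W i j k l = W i k j l - W i l j k := by
  have h := hW.bianchi i j k l
  -- W i j k l + W j k i l + W k i j l = 0
  rw [hW.anti i k j l, ← hW.pair j k i l] at h
  linarith

theorem N1 (hW : IsCurv W) : S4 (fun i j k l => W i k j l * W i j k l) = 1 / 2 * nS W := by
  have e : ∀ i j k l, W i k j l * W i j k l = W i k j l * W i k j l - W i k j l * W i l j k := by
    intro i j k l
    rw [bia hW i j k l]
    ring
  rw [S4_congr e, S4_sub, N0, N2 hW]
  ring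

theorem N3 (hW : IsCurv W) : S4 (fun i j k l => W i j k l * W i l j k) = -(1 / 2) * nS W := by
  have e : ∀ i j k l, W i j k l * W i l j k = W i k j l * W i l j k - W i l j k * W i l j k := by
    intro i j k l
    rw [bia hW i j k l]
    ring
  have h3 : S4 (fun i j k l => W i l j k * W i l j k) = nS W := by
    rw [← N0 W, ← S4_34]
  rw [S4_congr e, S4_sub, N2 hW, h3]
  ring

theorem S4_C (W : Ten) (G : Fin 6 → Fin 6 → Fin 6 → Fin 6 → ℝ) :
    S4 (fun i j k l => G i j k l * Cw W i j k l) =
      -(1 / 2) * (S4 (fun i j k l => G i j k l * W i k j l) +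
        S4 (fun i j k l => G i j k l * W i l j k)) +
      1 / 2 * (∑ i, ∑ j, G i j i j + ∑ i, ∑ j, G i j j i) -
      1 / 6 * ∑ i, ∑ k, G i i k k := by
  have d1 : S4 (fun i j k l => G i j k l * (dl i k * dl j l)) = ∑ i, ∑ j, G i j i j := by
    unfold S4
    refine Finset.sum_congr rfl fun i _ => Finset.sum_congr rfl fun j _ => ?_
    rw [← dl_sum i (fun k => G i j k j)]
    refine Finset.sum_congr rfl fun k _ => ?_
    rw [← dl_sum j (fun l => G i j k l), Finset.mul_sum]
    exact Finset.sum_congr rfl fun l _ => by ring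
  have d2 : S4 (fun i j k l => G i j k l * (dl i l * dl j k)) = ∑ i, ∑ j, G i j j i := by
    unfold S4
    refine Finset.sum_congr rfl fun i _ => Finset.sum_congr rfl fun j _ => ?_
    rw [← dl_sum j (fun k => G i j k i)]
    refine Finset.sum_congr rfl fun k _ => ?_
    rw [← dl_sum i (fun l => G i j k l), Finset.mul_sum]
    exact Finset.sum_congr rfl fun l _ => by ring
  have d3 : S4 (fun i j k l => G i j k l * (dl i j * dl k l)) = ∑ i, ∑ k, G i i k k := by
    unfold S4
    refine Finset.sum_congr rfl fun i _ => ?_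
    rw [Finset.sum_comm]
    refine Finset.sum_congr rfl fun k _ => ?_
    rw [← dl_sum i (fun j => G i j k k)]
    refine Finset.sum_congr rfl fun j _ => ?_
    rw [← dl_sum k (fun l => G i j k l), Finset.mul_sum]
    exact Finset.sum_congr rfl fun l _ => by ring
  have e : ∀ i j k l, G i j k l * Cw W i j k l =
      -(1 / 2) * (G i j k l * W i k j l) + -(1 / 2) * (G i j k l * W i l j k) +
      1 / 2 * (G i j k l * (dl i k * dl j l)) + 1 / 2 * (G i j k l * (dl i l * dl j k)) +
      -(1 / 6) * (G i j k l * (dl i j * dl k l)) := by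
    intro i j k l
    unfold Cw
    ring
  rw [S4_congr e]
  simp only [S4_add, S4_mul]
  rw [d1, d2, d3]
  ring

theorem Cw_symm (hW : IsCurv W) (i j k l : Fin 6) : Cw W j i k l = Cw W i j k l := by
  unfold Cw
  rw [← hW.pair j k i l, ← hW.pair j l i k, dl_comm j i]
  ring

theorem Cw_symm' (hW : IsCurv W) (i j k l : Fin 6) : Cw W i j l k = Cw W i j k l := by
  unfold Cw
  rw [dl_comm l k]
  ring

theorem C_tr (hW : IsWeyl W) : ∑ i, ∑ j, Cw W i j i j = 20 := by
  rw [Finset.sum_comm]
  simp only [C_contr hW]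
  simp [dl]
  norm_num

theorem C_tr' (hW : IsWeyl W) : ∑ i, ∑ j, Cw W i j j i = 20 := by
  rw [← C_tr hW]
  exact Finset.sum_congr rfl fun i _ => Finset.sum_congr rfl fun j _ => Cw_symm' hW.curv i j i j

theorem C_tr0 (hW : IsWeyl W) (k l : Fin 6) : ∑ i, Cw W i i k l = 0 := by
  unfold Cw
  have e1 : ∑ i, W i k i l = 0 := trW1 hW k l
  have e2 : ∑ i, W i l i k = 0 := trW1 hW l k
  have e3 : ∑ i, dl i k * dl i l = dl k l := by
    rw [dl_sum2 l (fun i => dl i k), dl_comm]
  have e4 : ∑ i, dl i l * dl i k = dl k l := dl_sum2 k (fun i => dl i l)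
  have e5 : ∑ i : Fin 6, dl i i * dl k l = 6 * dl k l := by simp [dl]
  simp only [Finset.sum_add_distrib, Finset.sum_sub_distrib, ← Finset.mul_sum]
  rw [e1, e2, e3, e4, e5]
  ring

theorem CC (hW : IsWeyl W) : S4 (fun i j k l => Cw W i j k l * Cw W i j k l) =
    20 + 3 / 4 * nS W := by
  have h1 : S4 (fun i j k l => Cw W i j k l * W i k j l) = -(3 / 4) * nS W := by
    have e : ∀ i j k l, Cw W i j k l * W i k j l = W i k j l * Cw W i j k l :=
      fun i j k l => mul_comm _ _
    rw [S4_congr e, S4_C, N0, N2 hW.curv]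
    have t1 : ∑ i, ∑ j, W i i j j = 0 :=
      Finset.sum_eq_zero fun i _ => Finset.sum_eq_zero fun j _ => W_xx hW.curv i j j
    have t2 : ∑ i, ∑ j, W i j j i = 0 := Finset.sum_eq_zero fun i _ => trW3 hW i i
    have t3 : ∑ i, ∑ k, W i k i k = 0 := Finset.sum_eq_zero fun i _ => hW.rc i i
    rw [t1, t2, t3]
    ring
  have h2 : S4 (fun i j k l => Cw W i j k l * W i l j k) = -(3 / 4) * nS W := by
    rw [← h1, ← S4_34]
    refine S4_congr fun i j k l => ?_
    rw [Cw_symm' hW.curv i j k l]
  rw [S4_C, h1, h2, C_tr hW, C_tr' hW]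
  have h3 : ∑ i, ∑ k, Cw W i i k k = 0 := by
    rw [Finset.sum_comm]
    exact Finset.sum_eq_zero fun k _ => C_tr0 hW k k
  rw [h3]
  ring

theorem CC' (hW : IsWeyl W) : S4 (fun i j k l => Cw W j l i k * Cw W i j k l) =
    20 / 3 - 3 / 8 * nS W := by
  have n1 := N1 hW.curv
  have n2 := N2 hW.curv
  have n3 := N3 hW.curv
  have n0 : S4 (fun i j k l => W i l j k * W i l j k) = nS W := by
    rw [← N0 W, ← S4_34]
  -- explicit form of the first factor
  have c1 : ∀ i j k l, Cw W j l i k = -(1 / 2) * (W i j k l - W i l j k) +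
      1 / 2 * (dl i j * dl k l + dl i l * dl j k) - 1 / 6 * (dl i k * dl j l) := by
    intro i j k l
    unfold Cw
    rw [hW.curv.anti i j l k, an2 hW.curv i j k l, hW.curv.pair l i j k, hW.curv.anti i l j k,
      dl_comm j i, dl_comm l k, dl_comm l i]
    ring
  have h1 : S4 (fun i j k l => Cw W j l i k * W i k j l) = 0 := by
    have e : ∀ i j k l, Cw W j l i k * W i k j l = -(1 / 2) * (W i k j l * W i j k l) +
        1 / 2 * (W i k j l * W i l j k) + 1 / 2 * (W i k j l * (dl i j * dl k l)) +
        1 / 2 * (W i k j l * (dl i l * dl j k)) - 1 / 6 * (W i k j l * (dl i k * dl j l)) := by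
      intro i j k l
      rw [c1]
      ring
    rw [S4_congr e, S4_sub]
    simp only [S4_add, S4_mul]
    rw [n1, n2]
    have d1 : S4 (fun i j k l => W i k j l * (dl i j * dl k l)) = 0 := by
      unfold S4
      refine Finset.sum_eq_zero fun i _ => ?_
      rw [Finset.sum_comm, ← hW.rc i i]
      refine Finset.sum_congr rfl fun k _ => ?_
      rw [← dl_sum i (fun j => W i k j k)]
      refine Finset.sum_congr rfl fun j _ => ?_
      rw [← dl_sum k (fun l => W i k j l), Finset.mul_sum]
      exact Finset.sum_congr rfl fun l _ => by ring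
    have d2 : S4 (fun i j k l => W i k j l * (dl i l * dl j k)) = 0 := by
      unfold S4
      refine Finset.sum_eq_zero fun i _ => ?_
      rw [← trW3 hW i i]
      refine Finset.sum_congr rfl fun j _ => ?_
      rw [← dl_sum j (fun k => W i k j i)]
      refine Finset.sum_congr rfl fun k _ => ?_
      rw [← dl_sum i (fun l => W i k j l), Finset.mul_sum]
      exact Finset.sum_congr rfl fun l _ => by ring
    have d3 : S4 (fun i j k l => W i k j l * (dl i k * dl j l)) = 0 := by
      unfold S4
      refine Finset.sum_eq_zero fun i _ => Finset.sum_eq_zero fun j _ =>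
        Finset.sum_eq_zero fun k _ => Finset.sum_eq_zero fun l _ => ?_
      change W i k j l * (dl i k * dl j l) = 0
      unfold dl
      by_cases h : i = k
      · subst h
        rw [W_xx hW.curv, zero_mul]
      · rw [if_neg h]
        ring
    rw [d1, d2, d3]
    ring
  have h2 : S4 (fun i j k l => Cw W j l i k * W i l j k) = 3 / 4 * nS W := by
    have e : ∀ i j k l, Cw W j l i k * W i l j k = -(1 / 2) * (W i j k l * W i l j k) +
        1 / 2 * (W i l j k * W i l j k) + 1 / 2 * (W i l j k * (dl i j * dl k l)) +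
        1 / 2 * (W i l j k * (dl i l * dl j k)) - 1 / 6 * (W i l j k * (dl i k * dl j l)) := by
      intro i j k l
      rw [c1]
      ring
    rw [S4_congr e, S4_sub]
    simp only [S4_add, S4_mul]
    rw [n3, n0]
    have d1 : S4 (fun i j k l => W i l j k * (dl i j * dl k l)) = 0 := by
      unfold S4
      refine Finset.sum_eq_zero fun i _ => ?_
      rw [Finset.sum_comm, ← hW.rc i i]
      refine Finset.sum_congr rfl fun k _ => ?_
      rw [← dl_sum i (fun j => W i k j k)]
      refine Finset.sum_congr rfl fun j _ => ?_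
      rw [← dl_sum k (fun l => W i l j k), Finset.mul_sum]
      exact Finset.sum_congr rfl fun l _ => by ring
    have d2 : S4 (fun i j k l => W i l j k * (dl i l * dl j k)) = 0 := by
      unfold S4
      refine Finset.sum_eq_zero fun i _ => Finset.sum_eq_zero fun j _ =>
        Finset.sum_eq_zero fun k _ => Finset.sum_eq_zero fun l _ => ?_
      change W i l j k * (dl i l * dl j k) = 0
      unfold dl
      by_cases h : i = l
      · subst h
        rw [W_xx hW.curv, zero_mul]
      · rw [if_neg h]
        ring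
    have d3 : S4 (fun i j k l => W i l j k * (dl i k * dl j l)) = 0 := by
      unfold S4
      refine Finset.sum_eq_zero fun i _ => ?_
      rw [← trW3 hW i i]
      refine Finset.sum_congr rfl fun j _ => ?_
      rw [← dl_sum i (fun k => W i j j k)]
      refine Finset.sum_congr rfl fun k _ => ?_
      rw [← dl_sum j (fun l => W i l j k), Finset.mul_sum]
      exact Finset.sum_congr rfl fun l _ => by ring
    rw [d1, d2, d3]
    ring
  rw [S4_C, h1, h2]
  have t1 : ∑ i, ∑ j, Cw W j j i i = 0 := Finset.sum_eq_zero fun i _ => C_tr0 hW i i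
  have t2 : ∑ i, ∑ j, Cw W j i i j = 20 := by
    rw [← C_tr' hW, Finset.sum_comm]
  have t3 : ∑ i, ∑ k, Cw W i k i k = 20 := C_tr hW
  rw [t1, t2, t3]
  ring

section
variable {ι : Type} [Fintype ι] {g : ι → M}

theorem sum2_S4 (G : ι → ι → Fin 6 → Fin 6 → Fin 6 → Fin 6 → ℝ) :
    ∑ m, ∑ n, S4 (G m n) = S4 fun a b c d => ∑ m, ∑ n, G m n a b c d := by
  have e : ∀ H : ι → Fin 6 → Fin 6 → Fin 6 → Fin 6 → ℝ,
      ∑ m, S4 (H m) = S4 fun a b c d => ∑ m, H m a b c d := by
    intro H
    unfold S4
    rw [Finset.sum_comm]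
    refine Finset.sum_congr rfl fun a _ => ?_
    rw [Finset.sum_comm]
    refine Finset.sum_congr rfl fun b _ => ?_
    rw [Finset.sum_comm]
    refine Finset.sum_congr rfl fun c _ => ?_
    rw [Finset.sum_comm]
  simp only [e]

theorem prod_C (hC : ∀ a b c d, ∑ i, g i a b * g i c d = Cw W a b c d)
    (a b c d a' b' c' d' : Fin 6) :
    ∑ m, ∑ n, (g m a b * g m c d) * (g n a' b' * g n c' d') =
      Cw W a b c d * Cw W a' b' c' d' := by
  rw [← hC a b c d, ← hC a' b' c' d', Finset.sum_mul_sum]

theorem nS_le (hW : IsWeyl W) (hC : ∀ a b c d, ∑ i, g i a b * g i c d = Cw W a b c d)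
    (hg : ∀ n a b, g n a b = g n b a) : nS W ≤ 320 / 3 := by
  set A : ι → ι → M := fun m n a b => ∑ c, g m a c * g n c b with hA
  set t : ι → ι → ℝ := fun m n => ∑ a, ∑ b, g m a b * g n a b with htt
  have trA : ∀ m n, ∑ a, A m n a a = t m n := by
    intro m n
    simp only [hA, htt]
    refine Finset.sum_congr rfl fun a _ => Finset.sum_congr rfl fun b _ => ?_
    rw [hg n b a]
  have ts : ∀ m n, t n m = t m n := by
    intro m n
    simp only [htt]
    refine Finset.sum_congr rfl fun a _ => Finset.sum_congr rfl fun b _ => ?_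
    ring
  -- the three sums
  have PP : ∑ m, ∑ n, ∑ a, ∑ b, A m n a b * A m n a b = 200 / 3 := by
    have e1 : ∀ m n, ∑ a, ∑ b, A m n a b * A m n a b =
        S4 fun c d a b => (g m a c * g m a d) * (g n b c * g n b d) := by
      intro m n
      have : S4 (fun a b c d => (g m a c * g n c b) * (g m a d * g n d b)) =
          ∑ a, ∑ b, A m n a b * A m n a b := by
        unfold S4
        simp only [hA, Finset.sum_mul_sum]
      rw [← this, ← S4_pair]
      refine S4_congr fun a b c d => ?_
      rw [hg n a d, hg n b d]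
      ring
    simp only [e1]
    rw [sum2_S4]
    simp only [prod_C hC]
    unfold S4
    simp only [← Finset.mul_sum, C_contr hW, ← Finset.sum_mul]
    have e2 : ∀ c : Fin 6, ∑ d, 10 / 3 * dl c d * (10 / 3 * dl c d) = 100 / 9 := by
      intro c
      have : ∀ d, 10 / 3 * dl c d * (10 / 3 * dl c d) = dl c d * (100 / 9 * dl c d) := fun d => by ring
      simp only [this]
      rw [dl_sum c (fun d => 100 / 9 * dl c d)]
      simp [dl]
    simp only [e2]
    simp
    norm_num
  have PQ : ∑ m, ∑ n, ∑ a, ∑ b, A m n a b * A n m a b = 20 / 3 - 3 / 8 * nS W := by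
    have e1 : ∀ m n, ∑ a, ∑ b, A m n a b * A n m a b =
        S4 fun a b c d => (g m a c * g m d b) * (g n c b * g n a d) := by
      intro m n
      have : S4 (fun a b c d => (g m a c * g n c b) * (g n a d * g m d b)) =
          ∑ a, ∑ b, A m n a b * A n m a b := by
        unfold S4
        simp only [hA, Finset.sum_mul_sum]
      rw [← this]
      exact S4_congr fun a b c d => by ring
    simp only [e1]
    rw [sum2_S4]
    simp only [prod_C hC]
    rw [← CC' hW, ← S4_34 (fun i j k l => Cw W j l i k * Cw W i j k l),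
      ← S4_23 (fun i j k l => Cw W j k i l * Cw W i j l k)]
    refine S4_congr fun a b c d => ?_
    ring
  have TT : ∑ m, ∑ n, t m n * t m n = 20 + 3 / 4 * nS W := by
    have e1 : ∀ m n, t m n * t m n =
        S4 fun a b c d => (g m a b * g m c d) * (g n a b * g n c d) := by
      intro m n
      have : S4 (fun a c b d => (g m a b * g n a b) * (g m c d * g n c d)) = t m n * t m n := by
        unfold S4
        simp only [htt, Finset.sum_mul_sum]
      rw [← this, ← S4_23]
      exact S4_congr fun a b c d => by ring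
    simp only [e1]
    rw [sum2_S4]
    simp only [prod_C hC]
    exact CC hW
  have h0 : 0 ≤ ∑ m, ∑ n, ∑ a, ∑ b,
      (A m n a b + A n m a b - 1 / 3 * t m n * dl a b) *
      (A m n a b + A n m a b - 1 / 3 * t m n * dl a b) :=
    Finset.sum_nonneg fun m _ => Finset.sum_nonneg fun n _ => Finset.sum_nonneg fun a _ =>
      Finset.sum_nonneg fun b _ => mul_self_nonneg _
  have e3 : ∀ m n, ∑ a, ∑ b, (A m n a b + A n m a b - 1 / 3 * t m n * dl a b) *
      (A m n a b + A n m a b - 1 / 3 * t m n * dl a b) =
      ∑ a, ∑ b, A m n a b * A m n a b + ∑ a, ∑ b, A n m a b * A n m a b +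
      2 * ∑ a, ∑ b, A m n a b * A n m a b - 2 / 3 * (t m n * t m n) := by
    intro m n
    have e4 : ∀ a b, (A m n a b + A n m a b - 1 / 3 * t m n * dl a b) *
        (A m n a b + A n m a b - 1 / 3 * t m n * dl a b) =
        A m n a b * A m n a b + A n m a b * A n m a b + 2 * (A m n a b * A n m a b) +
        dl a b * (-(2 / 3) * t m n * A m n a b) + dl a b * (-(2 / 3) * t m n * A n m a b) +
        dl a b * (1 / 9 * (t m n * t m n) * dl a b) := by
      intro a b
      ring
    simp only [e4, Finset.sum_add_distrib, dl_sum, ← Finset.mul_sum]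
    rw [trA, trA, ts m n]
    have e5 : ∑ x : Fin 6, dl x x = 6 := by simp [dl]
    rw [e5]
    ring
  simp only [e3, Finset.sum_add_distrib, Finset.sum_sub_distrib, ← Finset.mul_sum] at h0
  have PP' : ∑ m, ∑ n, ∑ a, ∑ b, A n m a b * A n m a b = 200 / 3 := by
    rw [Finset.sum_comm]
    exact PP
  rw [PP, PP', PQ, TT] at h0
  linarith

end

end

end Pool.Agent.Helper27.SK
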