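import Pool.Agent.Helper27.SK.Gl

/-!
# An inequality between symmetric functions of a positive semidefinite matrix
-/

set_option autoImplicit false

open scoped BigOperators

namespace Pool.Agent.Helper27.SK

open Hopf6

/-- the numerical inequality -/
theorem num_ineq (l : Fin 6 → ℝ) (hl : ∀ i, 0 ≤ l i) :
    (∑ i, l i) ^ 4 * ∏ i, l i ≤ 243 * ((∑ i, l i) ^ 2 - ∑ i, l i * l i) ^ 5 := by
  obtain ⟨m, -, hm⟩ := Finset.exists_max_image Finset.univ l ⟨0, Finset.mem_univ _⟩
  set T := ∑ i, l i with hT
  have hT0 : 0 ≤ T := Finset.sum_nonneg fun i _ => hl i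
  have h6 : T ≤ 6 * l m := by
    have : T ≤ ∑ _i : Fin 6, l m := Finset.sum_le_sum fun i hi => hm i hi
    simpa using this
  set r := T - l m with hr
  have hle : ∀ i, l i ≤ T := fun i => Finset.single_le_sum (fun j _ => hl j) (Finset.mem_univ i)
  have hr0 : 0 ≤ r := by
    have := hle m
    linarith
  have hir : ∀ i ∈ Finset.univ.erase m, l i ≤ r := by
    intro i hi
    have h1 : ∑ j ∈ Finset.univ.erase m, l j = r := by
      have := Finset.add_sum_erase Finset.univ l (Finset.mem_univ m)
      linarith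
    rw [← h1]
    exact Finset.single_le_sum (fun j _ => hl j) hi
  -- lower bound of the second symmetric function
  have he : 2 * (l m * r) ≤ T ^ 2 - ∑ i, l i * l i := by
    have e1 : T ^ 2 - ∑ i, l i * l i = ∑ i, l i * (T - l i) := by
      simp only [mul_sub, Finset.sum_sub_distrib, ← Finset.sum_mul]
      rw [← hT]
      ring
    rw [e1, ← Finset.add_sum_erase Finset.univ _ (Finset.mem_univ m)]
    have e2 : l m * r ≤ ∑ i ∈ Finset.univ.erase m, l i * (T - l i) := by
      have h1 : ∑ j ∈ Finset.univ.erase m, l j = r := by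
        have := Finset.add_sum_erase Finset.univ l (Finset.mem_univ m)
        linarith
      rw [← h1, Finset.mul_sum]
      refine Finset.sum_le_sum fun i hi => ?_
      have h2 := hir i hi
      have h3 : l m ≤ T - l i := by linarith
      calc l m * l i = l i * l m := mul_comm _ _
        _ ≤ l i * (T - l i) := mul_le_mul_of_nonneg_left h3 (hl i)
    linarith
  have hprod : ∏ i, l i ≤ T * r ^ 5 := by
    rw [← Finset.mul_prod_erase Finset.univ l (Finset.mem_univ m)]
    have h2 : ∏ i ∈ Finset.univ.erase m, l i ≤ r ^ 5 := by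
      have := Finset.prod_le_prod (fun i _ => hl i) hir
      rw [Finset.prod_const] at this
      have hc : (Finset.univ.erase m : Finset (Fin 6)).card = 5 := by
        rw [Finset.card_erase_of_mem (Finset.mem_univ m)]
        rfl
      rwa [hc] at this
    have h3 : 0 ≤ ∏ i ∈ Finset.univ.erase m, l i := Finset.prod_nonneg fun i _ => hl i
    exact mul_le_mul (hle m) h2 h3 hT0
  have h3 : T * r ≤ 3 * (T ^ 2 - ∑ i, l i * l i) := by
    have : T * r ≤ 6 * l m * r := mul_le_mul_of_nonneg_right h6 hr0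
    linarith
  have h4 : 0 ≤ T * r := mul_nonneg hT0 hr0
  calc T ^ 4 * ∏ i, l i ≤ T ^ 4 * (T * r ^ 5) := mul_le_mul_of_nonneg_left hprod (by positivity)
    _ = (T * r) ^ 5 := by ring
    _ ≤ (3 * (T ^ 2 - ∑ i, l i * l i)) ^ 5 := pow_le_pow_left₀ h4 h3 5
    _ = _ := by ring

theorem trace_sq {A : Matrix (Fin 6) (Fin 6) ℝ} (hA : A.IsHermitian) :
    (A * A).trace = ∑ i, hA.eigenvalues i * hA.eigenvalues i := by
  have h := hA.spectral_theorem
  have h2 : A * A = Unitary.conjStarAlgAut ℝ _ hA.eigenvectorUnitary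
      (Matrix.diagonal (RCLike.ofReal ∘ hA.eigenvalues) *
        Matrix.diagonal (RCLike.ofReal ∘ hA.eigenvalues)) := by
    rw [map_mul, ← h]
  rw [h2, Unitary.conjStarAlgAut_apply, Matrix.trace_mul_cycle]
  have h3 : star (hA.eigenvectorUnitary : Matrix (Fin 6) (Fin 6) ℝ) *
      (hA.eigenvectorUnitary : Matrix (Fin 6) (Fin 6) ℝ) = 1 :=
    Unitary.coe_star_mul_self _
  simp [Matrix.trace]

end Pool.Agent.Helper27.SK
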