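import Pool.Agent.Helper27.SK.Gb

/-!
# Einstein tensors of nonnegative curvature of the second kind
-/

set_option autoImplicit false

open scoped BigOperators

namespace Pool.Agent.Helper27.SK

open Hopf6

/-- `∑ R_{ikjl} h_{ij} h_{kl}` -/
def b2 (R : Ten) (h k : M) : ℝ := S4 fun i j k' l => R i k' j l * (h i j * k k' l)

section
variable {W : Ten}

theorem Cw_swap (hW : IsCurv W) (i j k l : Fin 6) : Cw W k l i j = Cw W i j k l := by
  have a1 := hW.anti
  have a2 := an2 hW
  unfold Cw
  rw [a1 i k l j, a2 i k j l, a1 j k l i, a2 j k i l, hW.pair i l j k, dl_comm k i, dl_comm l j,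
    dl_comm k j, dl_comm l i]
  ring

/-- the form of the moments on a symmetric traceless matrix -/
theorem Q_form (W : Ten) {h : M} (hs : ∀ a b, h a b = h b a) (ht : ∑ a, h a a = 0) :
    S4 (fun i j k l => h i j * h k l * Cw W i j k l) = - b2 (Rw W) h h := by
  rw [S4_C W (fun i j k l => h i j * h k l)]
  have x1 : S4 (fun i j k l => h i j * h k l * W i l j k) =
      S4 (fun i j k l => h i j * h k l * W i k j l) := by
    rw [← S4_34 (fun i j k l => h i j * h k l * W i k j l)]
    refine S4_congr fun i j k l => ?_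
    rw [hs k l]
  have x2 : ∑ i, ∑ j, h i j * h j i = ∑ i, ∑ j, h i j * h i j :=
    Finset.sum_congr rfl fun i _ => Finset.sum_congr rfl fun j _ => by rw [hs j i]
  have x3 : ∑ i, ∑ k, h i i * h k k = 0 := by
    rw [← Finset.sum_mul_sum, ht, zero_mul]
  rw [x1, x2, x3]
  unfold b2
  have e : ∀ i j k l, Rw W i k j l * (h i j * h k l) = h i j * h k l * W i k j l +
      (h i j * dl i j) * (h k l * dl k l) - (h i j * dl i l) * (h k l * dl k j) := by
    intro i j k l
    unfold Rw Id6
    ring
  rw [S4_congr e, S4_sub, S4_add]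
  have y1 : S4 (fun i j k l => (h i j * dl i j) * (h k l * dl k l)) = 0 := by
    unfold S4
    simp only [← Finset.mul_sum, ← Finset.sum_mul, dl_sum', ht]
    ring
  have y2 : S4 (fun i j k l => (h i j * dl i l) * (h k l * dl k j)) =
      ∑ i, ∑ j, h i j * h i j := by
    unfold S4
    refine Finset.sum_congr rfl fun i _ => Finset.sum_congr rfl fun j _ => ?_
    have e1 : ∀ k l, (h i j * dl i l) * (h k l * dl k j) = dl k j * (dl i l * (h i j * h k l)) :=
      fun k l => by ring
    simp only [e1, ← Finset.mul_sum, dl_sum, dl_mul_sum]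
    rw [hs j i]
  rw [y1, y2]
  ring

theorem Cw_kill (hW : IsWeyl W) (X : M) (t : ℝ) (k l : Fin 6) :
    ∑ i, ∑ j, (t * dl i j + 1 / 2 * (X i j - X j i)) * Cw W i j k l = 0 := by
  have e : ∀ i j, (t * dl i j + 1 / 2 * (X i j - X j i)) * Cw W i j k l =
      dl i j * (t * Cw W i j k l) + 1 / 2 * (X i j * Cw W i j k l) -
        1 / 2 * (X j i * Cw W i j k l) := fun i j => by ring
  simp only [e, Finset.sum_sub_distrib, Finset.sum_add_distrib, dl_sum, ← Finset.mul_sum]
  have e1 : ∑ i, ∑ j, X j i * Cw W i j k l = ∑ i, ∑ j, X i j * Cw W i j k l := by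
    rw [Finset.sum_comm]
    exact Finset.sum_congr rfl fun i _ => Finset.sum_congr rfl fun j _ => by
      rw [Cw_symm hW.curv i j k l]
  rw [e1, C_tr0 hW]
  ring

/-- the nonnegativity hypothesis -/
def SK (R : Ten) : Prop := ∀ h : M, (∀ a b, h a b = h b a) → ∑ a, h a a = 0 → b2 R h h ≤ 0

theorem Q_nonneg (hW : IsWeyl W) (hp : SK (Rw W)) (X : M) :
    0 ≤ S4 (fun i j k l => X i j * X k l * Cw W i j k l) := by
  set t : ℝ := (∑ a, X a a) / 6 with ht
  set z : M := fun i j => t * dl i j + 1 / 2 * (X i j - X j i) with hz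
  set h : M := fun i j => 1 / 2 * (X i j + X j i) - t * dl i j with hh
  have hs : ∀ a b, h a b = h b a := by
    intro a b
    simp only [hh]
    rw [dl_comm a b]
    ring
  have htr : ∑ a, h a a = 0 := by
    simp only [hh, Finset.sum_sub_distrib, ← Finset.mul_sum, Finset.sum_add_distrib]
    have e5 : ∑ x : Fin 6, dl x x = 6 := by simp [dl]
    rw [e5, ht]
    ring
  have k1 : ∀ k l, ∑ i, ∑ j, z i j * Cw W i j k l = 0 := fun k l => Cw_kill hW X t k l
  have k2 : ∀ A : M, S4 (fun i j k l => z i j * A k l * Cw W i j k l) = 0 := by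
    intro A
    rw [← S4_pair]
    unfold S4
    refine Finset.sum_eq_zero fun k _ => Finset.sum_eq_zero fun l _ => ?_
    have e : ∀ i j, z i j * A k l * Cw W i j k l = A k l * (z i j * Cw W i j k l) :=
      fun i j => by ring
    simp only [e, ← Finset.mul_sum, k1, mul_zero]
  have k3 : ∀ A : M, S4 (fun i j k l => A i j * z k l * Cw W i j k l) = 0 := by
    intro A
    rw [← k2 A, ← S4_pair]
    refine S4_congr fun i j k l => ?_
    rw [Cw_swap hW.curv]
    ring
  have e : ∀ i j k l, X i j * X k l * Cw W i j k l = h i j * h k l * Cw W i j k l +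
      z i j * X k l * Cw W i j k l + h i j * z k l * Cw W i j k l := by
    intro i j k l
    simp only [hh, hz]
    ring
  rw [S4_congr e, S4_add, S4_add, k2 X, k3 h, add_zero, add_zero, Q_form W hs htr]
  linarith [hp h hs htr]

theorem exists_g (hW : IsWeyl W) (hp : SK (Rw W)) :
    ∃ (m : ℕ) (g : Fin m → M), (∀ a b c d, ∑ i, g i a b * g i c d = Cw W a b c d) ∧
      (∀ n a b, g n a b = g n b a) ∧ ∀ n, ∑ a, g n a a = 0 := by
  set C : Matrix (Fin 6 × Fin 6) (Fin 6 × Fin 6) ℝ :=
    Matrix.of fun p q => Cw W p.1 p.2 q.1 q.2 with hC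
  have hH : C.IsHermitian := by
    ext p q
    simp only [hC, Matrix.conjTranspose_apply, Matrix.of_apply, star_trivial]
    exact Cw_swap hW.curv _ _ _ _
  have hP : C.PosSemidef := by
    refine Matrix.PosSemidef.of_dotProduct_mulVec_nonneg hH fun x => ?_
    have := Q_nonneg hW hp (fun i j => x (i, j))
    have e : star x ⬝ᵥ (C.mulVec x) =
        S4 (fun i j k l => x (i, j) * x (k, l) * Cw W i j k l) := by
      simp only [dotProduct, Matrix.mulVec, hC, Matrix.of_apply, star_trivial,
        Fintype.sum_prod_type, Pi.star_apply]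
      unfold S4
      refine Finset.sum_congr rfl fun i _ => Finset.sum_congr rfl fun j _ => ?_
      rw [Finset.mul_sum]
      refine Finset.sum_congr rfl fun k _ => ?_
      rw [Finset.mul_sum]
      exact Finset.sum_congr rfl fun l _ => by ring
    rw [e]
    exact this
  obtain ⟨m, v, hv⟩ := Matrix.posSemidef_iff_eq_sum_vecMulVec.1 hP
  have hg : ∀ a b c d, ∑ i, v i (a, b) * v i (c, d) = Cw W a b c d := by
    intro a b c d
    have h1 : C (a, b) (c, d) = Cw W a b c d := rfl
    rw [← h1, hv, Matrix.sum_apply]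
    simp [Matrix.vecMulVec_apply]
  refine ⟨m, fun i a b => v i (a, b), hg, ?_, ?_⟩
  · intro n a b
    have h1 : ∑ i, (v i (a, b) - v i (b, a)) * (v i (a, b) - v i (b, a)) = 0 := by
      have e : ∀ i, (v i (a, b) - v i (b, a)) * (v i (a, b) - v i (b, a)) =
          v i (a, b) * v i (a, b) - v i (a, b) * v i (b, a) - v i (b, a) * v i (a, b) +
          v i (b, a) * v i (b, a) := fun i => by ring
      simp only [e, Finset.sum_add_distrib, Finset.sum_sub_distrib, hg]
      rw [Cw_symm' hW.curv a b a b, Cw_symm hW.curv a b a b, Cw_symm hW.curv a b b a,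
        Cw_symm' hW.curv a b a b]
      ring
    have h2 := (Finset.sum_eq_zero_iff_of_nonneg
      (fun i _ => mul_self_nonneg (v i (a, b) - v i (b, a)))).1 h1 n (Finset.mem_univ n)
    have h3 := mul_self_eq_zero.1 h2
    simp only
    linarith
  · intro n
    have h1 : ∑ i, (∑ a, v i (a, a)) * (∑ b, v i (b, b)) = 0 := by
      simp only [Finset.sum_mul_sum]
      rw [Finset.sum_comm]
      refine Finset.sum_eq_zero fun a _ => ?_
      rw [Finset.sum_comm]
      simp only [hg]
      have : ∀ b, Cw W a a b b = Cw W b b a a := fun b => Cw_swap hW.curv _ _ _ _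
      simp only [this]
      exact C_tr0 hW a a
    have h2 := (Finset.sum_eq_zero_iff_of_nonneg
      (fun i _ => mul_self_nonneg (∑ a, v i (a, a)))).1 h1 n (Finset.mem_univ n)
    exact mul_self_eq_zero.1 h2

/-- **Einstein tensors**, normalised -/
theorem gb_Rw_ge (hW : IsWeyl W) (hp : SK (Rw W)) : 640 ≤ gb (Rw W) := by
  obtain ⟨m, g, hC, hs, ht⟩ := exists_g hW hp
  have h1 := nS_le hW hC hs
  have h2 := av_FF hW hC
  have h3 : 0 ≤ ∑ n, FF W (g n) := Finset.sum_nonneg fun n _ => FF_nonneg hW (hs n) (ht n)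
  rw [gb_Rw hW]
  linarith

end

end Pool.Agent.Helper27.SK
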