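import Pool.Agent.Helper27.SK.Sums

/-!
# A quadratic form of a Weyl tensor and a traceless symmetric matrix in dimension six
-/

set_option autoImplicit false

open scoped BigOperators

namespace Pool.Agent.Helper27.SK

open Hopf6

/-- Weyl tensors -/
structure IsWeyl (W : Ten) : Prop where
  curv : IsCurv W
  rc : ∀ a b, ∑ c, W a c b c = 0

/-- Kronecker symbol -/
def dl (a b : Fin 6) : ℝ := if a = b then 1 else 0

section
variable (W : Ten) (h : M)

def Y (a b c d : Fin 6) : ℝ := ∑ m, h a m * W m b c d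
def D (a b c d : Fin 6) : ℝ := Y W h a b c d - Y W h b a c d + Y W h c d a b - Y W h d c a b
def K (b e : Fin 6) : ℝ := ∑ a, ∑ d, W a b d e * h a d
def hh : ℝ := ∑ a, ∑ b, h a b * h a b
def q2 : ℝ := S4 fun a b c d => Y W h a b c d * Y W h a b c d
def q4 : ℝ := ∑ b, ∑ e, K W h b e * K W h b e
def dd : ℝ := S4 fun a b c d => D W h a b c d * D W h a b c d
/-- the form -/
noncomputable def FF : ℝ := 3 / 2 * (nS W * hh h) - 2 * q2 W h - dd W h + 8 * q4 W h
end

section
variable {W : Ten} {h : M}

theorem an2 (hW : IsCurv W) (a b c d : Fin 6) : W a b d c = - W a b c d := by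
  rw [hW.pair d c a b, hW.anti c d a b, hW.pair a b c d]

theorem Y_anti (hW : IsCurv W) (a b c d : Fin 6) : Y W h a b d c = - Y W h a b c d := by
  unfold Y
  rw [← Finset.sum_neg_distrib]
  exact Finset.sum_congr rfl fun m _ => by rw [an2 hW]; ring

theorem D_anti1 (a b c d : Fin 6) : D W h b a c d = - D W h a b c d + 
    ((Y W h c d b a + Y W h c d a b) - (Y W h d c b a + Y W h d c a b)) := by
  unfold D
  ring

theorem D_anti (hW : IsCurv W) (a b c d : Fin 6) : D W h b a c d = - D W h a b c d := by
  rw [D_anti1, Y_anti hW c d a b, Y_anti hW d c a b]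
  ring

theorem D_pair (hW : IsCurv W) (a b c d : Fin 6) : D W h c d a b = D W h a b c d := by
  unfold D
  ring

theorem D_anti' (hW : IsCurv W) (a b c d : Fin 6) : D W h a b d c = - D W h a b c d := by
  rw [D_pair hW d c a b, D_anti hW c d a b, D_pair hW a b c d]

theorem dd_le (W : Ten) (h : M) : dd W h ≤ 16 * q2 W h := by
  have e1 : S4 (fun a b c d => 4 * (Y W h a b c d * Y W h a b c d + Y W h b a c d * Y W h b a c d
      + Y W h c d a b * Y W h c d a b + Y W h d c a b * Y W h d c a b)
      - D W h a b c d * D W h a b c d) = 16 * q2 W h - dd W h := by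
    rw [S4_sub, S4_mul, S4_add, S4_add, S4_add]
    have r1 := S4_12 (fun a b c d => Y W h a b c d * Y W h a b c d)
    have r2 := S4_pair (fun a b c d => Y W h a b c d * Y W h a b c d)
    have r3 := S4_pair (fun a b c d => Y W h b a c d * Y W h b a c d)
    rw [r3, r2, r1]
    unfold q2 dd
    ring
  have e2 : 0 ≤ S4 (fun a b c d => 4 * (Y W h a b c d * Y W h a b c d + Y W h b a c d * Y W h b a c d
      + Y W h c d a b * Y W h c d a b + Y W h d c a b * Y W h d c a b)
      - D W h a b c d * D W h a b c d) := by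
    refine S4_nonneg fun a b c d => ?_
    unfold D
    nlinarith [sq_nonneg (Y W h a b c d + Y W h b a c d), sq_nonneg (Y W h a b c d - Y W h c d a b),
      sq_nonneg (Y W h a b c d + Y W h d c a b), sq_nonneg (Y W h b a c d + Y W h c d a b),
      sq_nonneg (Y W h b a c d - Y W h d c a b), sq_nonneg (Y W h c d a b + Y W h d c a b)]
  linarith

/-! ### the product form -/

theorem K_symm (hW : IsCurv W) (hs : ∀ a b, h a b = h b a) (b e : Fin 6) :
    K W h e b = K W h b e := by
  unfold K
  rw [Finset.sum_comm]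
  refine Finset.sum_congr rfl fun d _ => Finset.sum_congr rfl fun a _ => ?_
  rw [hs d a, ← hW.pair, hs a d]

theorem K_tr (hW : IsWeyl W) : ∑ b, K W h b b = 0 := by
  unfold K
  rw [rot3 (fun a d b => W a b d b * h a d)]
  refine Finset.sum_eq_zero fun a _ => Finset.sum_eq_zero fun d _ => ?_
  rw [← Finset.sum_mul, hW.rc, zero_mul]

/-! contractions -/

/-- contraction of a product of two functions of complementary indices -/
theorem pull (F : Fin 6 → Fin 6 → Fin 6 → Fin 6 → ℝ) (G : Fin 6 → Fin 6 → ℝ) :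
    S6 (fun a b c d e f => F a b d e * G c f) = S4 F * ∑ c, ∑ f, G c f := by
  simp only [S6, S4, ← Finset.mul_sum, ← Finset.sum_mul]

theorem E0 (W : Ten) (h : M) :
    S6 (fun a b c d e f => W a b d e * h c f * (W a b d e * h c f)) = nS W * hh h := by
  have e : ∀ a b c d e f : Fin 6, W a b d e * h c f * (W a b d e * h c f) =
      (W a b d e * W a b d e) * (h c f * h c f) := fun a b c d e f => by ring
  rw [S6_congr e, pull (fun a b d e => W a b d e * W a b d e) (fun c f => h c f * h c f)]
  rfl

/-- the second form in terms of the contraction of `W` with itself -/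
theorem q2_eq (W : Ten) (h : M) :
    q2 W h = ∑ m, ∑ n, (∑ a, h a m * h a n) * SS W m n := by
  have e1 : q2 W h = S6 fun a b c d m n => (h a m * W m b c d) * (h a n * W n b c d) := by
    unfold q2 S4 S6 Y
    simp only [Finset.sum_mul_sum]
  rw [e1, S6_rel _ ![2, 3, 4, 5, 0, 1] (by decide)]
  unfold S6 SS
  refine Finset.sum_congr rfl fun m _ => Finset.sum_congr rfl fun n _ => ?_
  simp only [Matrix.cons_val]
  rw [Finset.sum_mul]
  refine Finset.sum_congr rfl fun a _ => ?_
  rw [Finset.mul_sum]
  refine Finset.sum_congr rfl fun b _ => ?_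
  rw [Finset.mul_sum]
  refine Finset.sum_congr rfl fun c _ => ?_
  rw [Finset.mul_sum]
  refine Finset.sum_congr rfl fun d _ => ?_
  ring

theorem base2 (W : Ten) (h : M) :
    S6 (fun m n a c d e => (h a m * h a n) * (W m c d e * W n c d e)) = q2 W h := by
  rw [q2_eq]
  unfold S6 SS
  refine Finset.sum_congr rfl fun m _ => Finset.sum_congr rfl fun n _ => ?_
  rw [Finset.sum_mul]
  refine Finset.sum_congr rfl fun a _ => ?_
  simp only [Finset.mul_sum]

theorem base4 (W : Ten) (h : M) :
    S6 (fun b e a d c f => (W a b d e * h a d) * (W c b f e * h c f)) = q4 W h := by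
  unfold S6 q4 K
  refine Finset.sum_congr rfl fun b _ => Finset.sum_congr rfl fun e _ => ?_
  rw [Finset.sum_mul]
  refine Finset.sum_congr rfl fun a _ => ?_
  rw [Finset.sum_mul]
  refine Finset.sum_congr rfl fun d _ => ?_
  rw [Finset.mul_sum]
  refine Finset.sum_congr rfl fun c _ => ?_
  rw [Finset.mul_sum]

theorem S6_neg (G : Fin 6 → Fin 6 → Fin 6 → Fin 6 → Fin 6 → Fin 6 → ℝ) :
    S6 (fun a b c d e f => - G a b c d e f) = - S6 G := by
  simp only [S6, Finset.sum_neg_distrib]

theorem L1 (hW : IsCurv W) (hs : ∀ a b, h a b = h b a) :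
    S6 (fun a b c d e f => wd W h a b c d e f * wd W h a b c d e f) =
      9 * (nS W * hh h - 4 * q2 W h + 4 * q4 W h) := by
  rw [wd_inner W h (wd W h) (wd_rotA W h) (wd_rotB W h)]
  have a1 := hW.anti
  have a2 := an2 hW
  have pr := hW.pair
  have E1 : S6 (fun a b c d e f => W a b d e * h c f * (W a b e f * h c d)) = - q2 W h := by
    rw [S6_rel _ ![4, 5, 2, 0, 3, 1] (by decide), ← base2, ← S6_neg]
    refine S6_congr fun m n a c d e => ?_
    simp only [Matrix.cons_val]
    rw [← pr m c d e, ← pr n c d e, a2 d e n c]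
    ring
  have E2 : S6 (fun a b c d e f => W a b d e * h c f * (W a b f d * h c e)) = - q2 W h := by
    rw [S6_rel _ ![4, 5, 2, 3, 0, 1] (by decide), ← base2, ← S6_neg]
    refine S6_congr fun m n a c d e => ?_
    simp only [Matrix.cons_val]
    rw [← pr m c d e, ← pr n c d e, a2 d e m c]
    ring
  have E3 : S6 (fun a b c d e f => W a b d e * h c f * (W b c d e * h a f)) = - q2 W h := by
    rw [S6_rel _ ![0, 3, 1, 4, 5, 2] (by decide), ← base2, ← S6_neg]
    refine S6_congr fun m n a c d e => ?_
    simp only [Matrix.cons_val]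
    rw [a1 n c d e, hs a m, hs a n]
    ring
  have E6 : S6 (fun a b c d e f => W a b d e * h c f * (W c a d e * h b f)) = - q2 W h := by
    rw [S6_rel _ ![3, 0, 1, 4, 5, 2] (by decide), ← base2, ← S6_neg]
    refine S6_congr fun m n a c d e => ?_
    simp only [Matrix.cons_val]
    rw [a1 m c d e, hs a m, hs a n]
    ring
  have E4 : S6 (fun a b c d e f => W a b d e * h c f * (W b c e f * h a d)) = q4 W h := by
    rw [S6_rel _ ![2, 0, 4, 3, 1, 5] (by decide), ← base4]
    refine S6_congr fun b e a d c f => ?_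
    simp only [Matrix.cons_val]
    rw [a1 c b e f, a2 c b f e]
    ring
  have E5 : S6 (fun a b c d e f => W a b d e * h c f * (W b c f d * h a e)) = q4 W h := by
    rw [S6_rel _ ![2, 0, 4, 1, 3, 5] (by decide), ← base4]
    refine S6_congr fun b e a d c f => ?_
    simp only [Matrix.cons_val]
    rw [a1 c b f e, a2 a b d e]
    ring
  have E7 : S6 (fun a b c d e f => W a b d e * h c f * (W c a e f * h b d)) = q4 W h := by
    rw [S6_rel _ ![0, 2, 4, 3, 1, 5] (by decide), ← base4]
    refine S6_congr fun b e a d c f => ?_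
    simp only [Matrix.cons_val]
    rw [a1 a b d e, a2 c b f e]
    ring
  have E8 : S6 (fun a b c d e f => W a b d e * h c f * (W c a f d * h b e)) = q4 W h := by
    rw [S6_rel _ ![0, 2, 4, 1, 3, 5] (by decide), ← base4]
    refine S6_congr fun b e a d c f => ?_
    simp only [Matrix.cons_val]
    rw [a1 a b e d, a2 a b d e]
    ring
  have e : ∀ a b c d e f, W a b d e * h c f * wd W h a b c d e f =
      W a b d e * h c f * (W a b d e * h c f) + W a b d e * h c f * (W a b e f * h c d) +
      W a b d e * h c f * (W a b f d * h c e) + W a b d e * h c f * (W b c d e * h a f) +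
      W a b d e * h c f * (W b c e f * h a d) + W a b d e * h c f * (W b c f d * h a e) +
      W a b d e * h c f * (W c a d e * h b f) + W a b d e * h c f * (W c a e f * h b d) +
      W a b d e * h c f * (W c a f d * h b e) := by
    intro a b c d e f
    unfold wd
    ring
  rw [S6_congr e]
  simp only [S6_add]
  rw [E0, E1, E2, E3, E4, E5, E6, E7, E8]
  ring

/-! the contraction of the product -/

theorem ctr (hW : IsWeyl W) (hs : ∀ a b, h a b = h b a) (ht : ∑ a, h a a = 0)
    (a b d e : Fin 6) : ∑ c, wd W h a b c d e c = - D W h a b d e := by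
  have a1 := hW.curv.anti
  have a2 := an2 hW.curv
  have pr := hW.curv.pair
  have r1 : ∀ x y, ∑ c, W c x c y = 0 := fun x y => by
    rw [← hW.rc x y]
    exact Finset.sum_congr rfl fun c _ => by rw [a1 x c c y, a2 x c y c]; ring
  have r2 : ∀ x y, ∑ c, W c x y c = 0 := fun x y => by
    rw [show (0 : ℝ) = - 0 by ring, ← r1 x y, ← Finset.sum_neg_distrib]
    exact Finset.sum_congr rfl fun c _ => a2 c x c y
  have r3 : ∀ x y, ∑ c, W x c c y = 0 := fun x y => by
    rw [show (0 : ℝ) = - 0 by ring, ← r1 x y, ← Finset.sum_neg_distrib]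
    exact Finset.sum_congr rfl fun c _ => a1 c x c y
  unfold wd D Y
  simp only [Finset.sum_add_distrib]
  have t1 : ∑ c, W a b d e * h c c = 0 := by rw [← Finset.mul_sum, ht, mul_zero]
  have t2 : ∑ c, W a b e c * h c d = - ∑ m, h d m * W m e a b := by
    rw [← Finset.sum_neg_distrib]
    exact Finset.sum_congr rfl fun c _ => by rw [← pr c e a b, hs c d, a2 a b c e]; ring
  have t3 : ∑ c, W a b c d * h c e = ∑ m, h e m * W m d a b := by
    exact Finset.sum_congr rfl fun c _ => by rw [← pr c d a b, hs c e]; ring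
  have t4 : ∑ c, W b c d e * h a c = - ∑ m, h a m * W m b d e := by
    rw [← Finset.sum_neg_distrib]
    exact Finset.sum_congr rfl fun c _ => by rw [a1 c b d e]; ring
  have t5 : ∑ c, W b c e c * h a d = 0 := by rw [← Finset.sum_mul, hW.rc, zero_mul]
  have t6 : ∑ c, W b c c d * h a e = 0 := by rw [← Finset.sum_mul, r3, zero_mul]
  have t7 : ∑ c, W c a d e * h b c = ∑ m, h b m * W m a d e := by
    exact Finset.sum_congr rfl fun c _ => by ring
  have t8 : ∑ c, W c a e c * h b d = 0 := by rw [← Finset.sum_mul, r2, zero_mul]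
  have t9 : ∑ c, W c a c d * h b e = 0 := by rw [← Finset.sum_mul, r1, zero_mul]
  rw [t1, t2, t3, t4, t5, t6, t7, t8, t9]
  ring

end

/-! the trace-free part -/

section
variable {P : Ten}

def rho (P : Ten) (b e : Fin 6) : ℝ := ∑ c, P c b c e

theorem dl_sum (a : Fin 6) (F : Fin 6 → ℝ) : ∑ c, dl a c * F c = F a := by
  simp [dl]

theorem dl_sum' (a : Fin 6) (F : Fin 6 → ℝ) : ∑ c, F c * dl a c = F a := by
  simp [dl]

theorem dl_sum2 (a : Fin 6) (F : Fin 6 → ℝ) : ∑ c, F c * dl c a = F a := by
  simp [dl]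

theorem dl_comm (a b : Fin 6) : dl a b = dl b a := by
  unfold dl
  simp only [eq_comm]

theorem ctrP (h1 : ∀ a b c d, P b a c d = - P a b c d) (h2 : ∀ a b c d, P a b d c = - P a b c d)
    (a b d e : Fin 6) : ∑ c, wd P dl a b c d e c = 2 * P a b d e + dl a d * rho P b e -
      dl a e * rho P b d - dl b d * rho P a e + dl b e * rho P a d := by
  unfold wd rho
  simp only [Finset.sum_add_distrib]
  have t1 : ∑ c, P a b d e * dl c c = 6 * P a b d e := by
    simp [dl]
  have t2 : ∑ c, P a b e c * dl c d = - P a b d e := by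
    rw [dl_sum2 d (fun c => P a b e c), h2 a b d e]
  have t3 : ∑ c, P a b c d * dl c e = - P a b d e := by
    rw [dl_sum2 e (fun c => P a b c d), h2 a b d e]
  have t4 : ∑ c, P b c d e * dl a c = - P a b d e := by
    rw [dl_sum' a (fun c => P b c d e), h1 a b d e]
  have t5 : ∑ c, P b c e c * dl a d = dl a d * ∑ c, P c b c e := by
    rw [Finset.mul_sum]
    exact Finset.sum_congr rfl fun c _ => by rw [h1 c b e c, h2 c b c e]; ring
  have t6 : ∑ c, P b c c d * dl a e = - (dl a e * ∑ c, P c b c d) := by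
    rw [Finset.mul_sum, ← Finset.sum_neg_distrib]
    exact Finset.sum_congr rfl fun c _ => by rw [h1 c b c d]; ring
  have t7 : ∑ c, P c a d e * dl b c = - P a b d e := by
    rw [dl_sum' b (fun c => P c a d e), h1 a b d e]
  have t8 : ∑ c, P c a e c * dl b d = - (dl b d * ∑ c, P c a c e) := by
    rw [Finset.mul_sum, ← Finset.sum_neg_distrib]
    exact Finset.sum_congr rfl fun c _ => by rw [h2 c a c e]; ring
  have t9 : ∑ c, P c a c d * dl b e = dl b e * ∑ c, P c a c d := by
    rw [Finset.mul_sum]
    exact Finset.sum_congr rfl fun c _ => by ring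
  rw [t1, t2, t3, t4, t5, t6, t7, t8, t9]
  ring

/-- product of the metric and a symmetric matrix -/
def gK (k : M) (a b d e : Fin 6) : ℝ :=
  dl a d * k b e - dl a e * k b d - dl b d * k a e + dl b e * k a d

theorem gK_inner (k : M) (h1 : ∀ a b c d, P b a c d = - P a b c d)
    (h2 : ∀ a b c d, P a b d c = - P a b c d) :
    S4 (fun a b d e => P a b d e * gK k a b d e) = 4 * ∑ b, ∑ e, rho P b e * k b e := by
  have f1 : S4 (fun a b d e => P a b d e * (dl a d * k b e)) = ∑ b, ∑ e, rho P b e * k b e := by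
    unfold S4 rho
    rw [Finset.sum_comm]
    refine Finset.sum_congr rfl fun b _ => ?_
    have : ∀ a, ∑ d, ∑ e, P a b d e * (dl a d * k b e) = ∑ e, P a b a e * k b e := by
      intro a
      rw [Finset.sum_comm]
      refine Finset.sum_congr rfl fun e _ => ?_
      rw [← dl_sum a (fun d => P a b d e * k b e)]
      exact Finset.sum_congr rfl fun d _ => by ring
    simp only [this]
    rw [Finset.sum_comm]
    exact Finset.sum_congr rfl fun e _ => by rw [Finset.sum_mul]
  have f2 : S4 (fun a b d e => P a b d e * (- (dl a e * k b d))) = ∑ b, ∑ e, rho P b e * k b e := by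
    rw [← f1, ← S4_34]
    refine S4_congr fun a b d e => ?_
    rw [h2 a b d e]
    ring
  have f3 : S4 (fun a b d e => P a b d e * (- (dl b d * k a e))) = ∑ b, ∑ e, rho P b e * k b e := by
    rw [← f1, ← S4_12]
    refine S4_congr fun a b d e => ?_
    rw [h1 a b d e]
    ring
  have f4 : S4 (fun a b d e => P a b d e * (dl b e * k a d)) = ∑ b, ∑ e, rho P b e * k b e := by
    rw [← f3, ← S4_34]
    refine S4_congr fun a b d e => ?_
    rw [h2 a b d e]
    ring
  rw [show 4 * ∑ b, ∑ e, rho P b e * k b e = ∑ b, ∑ e, rho P b e * k b e +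
    ∑ b, ∑ e, rho P b e * k b e + ∑ b, ∑ e, rho P b e * k b e + ∑ b, ∑ e, rho P b e * k b e by ring]
  conv_rhs => 
    enter [1, 1, 1]
    rw [← f1]
  conv_rhs => 
    enter [1, 1, 2]
    rw [← f2]
  conv_rhs => 
    enter [1, 2]
    rw [← f3]
  conv_rhs => 
    enter [2]
    rw [← f4]
  rw [← S4_add, ← S4_add, ← S4_add]
  refine S4_congr fun a b d e => ?_
  unfold gK
  ring

end

theorem S6_dl (P : Ten) (X : Fin 6 → Fin 6 → Fin 6 → Fin 6 → Fin 6 → Fin 6 → ℝ) :
    S6 (fun a b c d e f => P a b d e * dl c f * X a b c d e f) =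
      S4 fun a b d e => P a b d e * ∑ c, X a b c d e c := by
  unfold S6 S4
  refine Finset.sum_congr rfl fun a _ => Finset.sum_congr rfl fun b _ => ?_
  rw [Finset.sum_comm]
  refine Finset.sum_congr rfl fun d _ => ?_
  rw [Finset.sum_comm]
  refine Finset.sum_congr rfl fun e _ => ?_
  change _ = P a b d e * ∑ c, X a b c d e c
  rw [Finset.mul_sum]
  refine Finset.sum_congr rfl fun c _ => ?_
  rw [← dl_sum c (fun f => P a b d e * X a b c d e f)]
  exact Finset.sum_congr rfl fun f _ => by ring

section
variable {W : Ten} {h : M}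

theorem rho_D (hW : IsWeyl W) (hs : ∀ a b, h a b = h b a) (b e : Fin 6) :
    rho (D W h) b e = 2 * K W h b e := by
  have a1 := hW.curv.anti
  have a2 := an2 hW.curv
  have r1 : ∀ x y, ∑ c, W x c c y = 0 := fun x y => by
    rw [show (0 : ℝ) = - 0 by ring, ← hW.rc x y, ← Finset.sum_neg_distrib]
    exact Finset.sum_congr rfl fun c _ => a2 x c y c
  have k1 : ∀ b e, ∑ a, Y W h a b a e = K W h b e := by
    intro b e
    unfold Y K
    rw [Finset.sum_comm]
    refine Finset.sum_congr rfl fun m _ => Finset.sum_congr rfl fun a _ => ?_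
    rw [hs a m]
    ring
  have k2 : ∀ b e, ∑ a, Y W h b a a e = 0 := by
    intro b e
    unfold Y
    rw [Finset.sum_comm]
    refine Finset.sum_eq_zero fun m _ => ?_
    rw [← Finset.mul_sum, r1, mul_zero]
  unfold rho D
  simp only [Finset.sum_add_distrib, Finset.sum_sub_distrib]
  rw [k1, k2, k1, k2, K_symm hW.curv hs b e]
  ring

theorem rho_gK (k : M) (hk : ∑ a, k a a = 0) (hs : ∀ a b, k a b = k b a) (b e : Fin 6) :
    rho (gK k) b e = 4 * k b e := by
  unfold rho gK
  simp only [Finset.sum_add_distrib, Finset.sum_sub_distrib]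
  have t1 : ∑ c : Fin 6, dl c c * k b e = 6 * k b e := by
    simp [dl]
  have t2 : ∑ c, dl c e * k b c = k b e := by
    simp [dl]
  have t3 : ∑ c, dl b c * k c e = k b e := by
    simp [dl]
  have t4 : ∑ c, dl b e * k c c = 0 := by
    rw [← Finset.mul_sum, hk, mul_zero]
  rw [t1, t2, t3, t4]
  ring

theorem gK_anti (k : M) (a b c d : Fin 6) : gK k b a c d = - gK k a b c d := by
  unfold gK
  ring

theorem gK_anti' (k : M) (a b c d : Fin 6) : gK k a b d c = - gK k a b c d := by
  unfold gK
  ring

theorem square_ineq (hW : IsWeyl W) (hs : ∀ a b, h a b = h b a) (ht : ∑ a, h a a = 0) :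
    0 ≤ 9 * (nS W * hh h) - 36 * q2 W h - 9 / 2 * dd W h + 48 * q4 W h := by
  set k : M := K W h with hk
  have ks : ∀ a b, k a b = k b a := fun a b => K_symm hW.curv hs b a
  have kt : ∑ a, k a a = 0 := K_tr hW
  set P : Ten := fun a b c d => 1 / 2 * D W h a b c d - 1 / 6 * gK k a b c d with hP
  have P1 : ∀ a b c d, P b a c d = - P a b c d := by
    intro a b c d
    simp only [hP]
    rw [D_anti hW.curv a b c d, gK_anti k a b c d]
    ring
  have P2 : ∀ a b c d, P a b d c = - P a b c d := by
    intro a b c d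
    simp only [hP]
    rw [D_anti' hW.curv a b c d, gK_anti' k a b c d]
    ring
  have rP : ∀ b e, rho P b e = 1 / 3 * k b e := by
    intro b e
    have e1 : rho P b e = 1 / 2 * rho (D W h) b e - 1 / 6 * rho (gK k) b e := by
      unfold rho
      rw [Finset.mul_sum, Finset.mul_sum, ← Finset.sum_sub_distrib]
    rw [e1, rho_D hW hs, rho_gK k kt ks]
    ring
  -- scalar products
  have kk : ∑ b, ∑ e, k b e * k b e = q4 W h := rfl
  have i1 : S4 (fun a b d e => D W h a b d e * gK k a b d e) = 8 * q4 W h := by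
    rw [gK_inner k (D_anti hW.curv) (D_anti' hW.curv)]
    simp only [rho_D hW hs]
    rw [← kk, Finset.mul_sum, Finset.mul_sum]
    refine Finset.sum_congr rfl fun b _ => ?_
    rw [Finset.mul_sum, Finset.mul_sum]
    exact Finset.sum_congr rfl fun e _ => by ring
  have i2 : S4 (fun a b d e => gK k a b d e * gK k a b d e) = 16 * q4 W h := by
    rw [gK_inner k (gK_anti k) (gK_anti' k)]
    simp only [rho_gK k kt ks]
    rw [← kk, Finset.mul_sum, Finset.mul_sum]
    refine Finset.sum_congr rfl fun b _ => ?_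
    rw [Finset.mul_sum, Finset.mul_sum]
    exact Finset.sum_congr rfl fun e _ => by ring
  have i3 : S4 (fun a b d e => P a b d e * D W h a b d e) = 1 / 2 * dd W h - 4 / 3 * q4 W h := by
    have e1 : ∀ a b d e, P a b d e * D W h a b d e = 1 / 2 * (D W h a b d e * D W h a b d e) -
        1 / 6 * (D W h a b d e * gK k a b d e) := by
      intro a b d e
      simp only [hP]
      ring
    rw [S4_congr e1, S4_sub, S4_mul, S4_mul, i1]
    unfold dd
    ring
  have i4 : S4 (fun a b d e => P a b d e * P a b d e) = 1 / 4 * dd W h - 8 / 9 * q4 W h := by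
    have e1 : ∀ a b d e, P a b d e * P a b d e = 1 / 4 * (D W h a b d e * D W h a b d e) +
        (- (1 / 6)) * (D W h a b d e * gK k a b d e) + 1 / 36 * (gK k a b d e * gK k a b d e) := by
      intro a b d e
      simp only [hP]
      ring
    rw [S4_congr e1, S4_add, S4_add, S4_mul, S4_mul, S4_mul, i1, i2]
    unfold dd
    ring
  have i5 : S4 (fun a b d e => P a b d e * gK (rho P) a b d e) = 4 / 9 * q4 W h := by
    rw [gK_inner (rho P) P1 P2]
    simp only [rP]
    rw [← kk, Finset.mul_sum, Finset.mul_sum]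
    refine Finset.sum_congr rfl fun b _ => ?_
    rw [Finset.mul_sum, Finset.mul_sum]
    exact Finset.sum_congr rfl fun e _ => by ring
  have j1 : S6 (fun a b c d e f => wd P dl a b c d e f * wd W h a b c d e f) =
      -9 * (1 / 2 * dd W h - 4 / 3 * q4 W h) := by
    rw [wd_inner P dl (wd W h) (wd_rotA W h) (wd_rotB W h), S6_dl]
    simp only [ctr hW hs ht]
    have e1 : ∀ a b d e, P a b d e * - D W h a b d e = - (P a b d e * D W h a b d e) := by
      intro a b d e
      ring
    rw [S4_congr e1, S4_neg, i3]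
    ring
  have j2 : S6 (fun a b c d e f => wd P dl a b c d e f * wd P dl a b c d e f) =
      9 * (2 * (1 / 4 * dd W h - 8 / 9 * q4 W h) + 4 / 9 * q4 W h) := by
    rw [wd_inner P dl (wd P dl) (wd_rotA P dl) (wd_rotB P dl), S6_dl]
    simp only [ctrP P1 P2]
    have e1 : ∀ a b d e, P a b d e * (2 * P a b d e + dl a d * rho P b e -
        dl a e * rho P b d - dl b d * rho P a e + dl b e * rho P a d) =
        2 * (P a b d e * P a b d e) + P a b d e * gK (rho P) a b d e := by
      intro a b d e
      unfold gK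
      ring
    rw [S4_congr e1, S4_add, S4_mul, i4, i5]
  have h0 : 0 ≤ S6 (fun a b c d e f => (wd W h a b c d e f + wd P dl a b c d e f) *
      (wd W h a b c d e f + wd P dl a b c d e f)) :=
    S6_nonneg fun _ _ _ _ _ _ => mul_self_nonneg _
  have e2 : ∀ a b c d e f, (wd W h a b c d e f + wd P dl a b c d e f) *
      (wd W h a b c d e f + wd P dl a b c d e f) =
      wd W h a b c d e f * wd W h a b c d e f +
      2 * (wd P dl a b c d e f * wd W h a b c d e f) +
      wd P dl a b c d e f * wd P dl a b c d e f := by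
    intro a b c d e f
    ring
  rw [S6_congr e2, S6_add, S6_add, S6_mul, L1 hW.curv hs, j1, j2] at h0
  linarith

/-- the form is nonnegative -/
theorem FF_nonneg (hW : IsWeyl W) (hs : ∀ a b, h a b = h b a) (ht : ∑ a, h a a = 0) :
    0 ≤ FF W h := by
  have h1 := square_ineq hW hs ht
  have h2 := dd_le W h
  unfold FF
  linarith

end

end Pool.Agent.Helper27.SK
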