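import Pool.Agent.Helper27.SK.Bound

/-!
# The Gauss-Bonnet-Chern integrand of an Einstein tensor in dimension six
-/

set_option autoImplicit false

open scoped BigOperators

namespace Pool.Agent.Helper27.SK

open Hopf6

/-- the tensor of constant curvature one -/
def Id6 : Ten := fun a b c d => dl a c * dl b d - dl a d * dl b c

theorem Id6_anti (a b c d : Fin 6) : Id6 b a c d = - Id6 a b c d := by
  unfold Id6
  ring

theorem Id6_anti' (a b c d : Fin 6) : Id6 a b d c = - Id6 a b c d := by
  unfold Id6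
  ring

theorem Id6_pair (a b c d : Fin 6) : Id6 c d a b = Id6 a b c d := by
  unfold Id6
  rw [dl_comm c a, dl_comm d b, dl_comm c b, dl_comm d a]
  ring

theorem Id6_curv : IsCurv Id6 := by
  refine ⟨Id6_anti, Id6_pair, fun a b c d => ?_⟩
  unfold Id6
  rw [dl_comm b a, dl_comm c a, dl_comm c b]
  ring

/-- the Einstein tensor with the Weyl part `W` -/
def Rw (W : Ten) : Ten := fun a b c d => W a b c d + Id6 a b c d

theorem Rw_curv {W : Ten} (hW : IsCurv W) : IsCurv (Rw W) := by
  refine ⟨fun a b c d => ?_, fun a b c d => ?_, fun a b c d => ?_⟩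
  · unfold Rw
    rw [hW.anti a b c d, Id6_anti a b c d]
    ring
  · unfold Rw
    rw [hW.pair a b c d, Id6_pair a b c d]
  · unfold Rw
    linarith [hW.bianchi a b c d, Id6_curv.bianchi a b c d]

theorem S4_Id (X : Ten) : S4 (fun a b e f => X a b e f * Id6 e f a b) =
    ∑ a, ∑ b, (X a b a b - X a b b a) := by
  unfold S4
  refine Finset.sum_congr rfl fun a _ => Finset.sum_congr rfl fun b _ => ?_
  have e : ∀ e f, X a b e f * Id6 e f a b = dl e a * (dl f b * X a b e f) - dl e b * (dl f a * X a b e f) := by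
    intro e f
    unfold Id6
    ring
  simp only [e, Finset.sum_sub_distrib, ← Finset.mul_sum, dl_mul_sum]

theorem Id_sum : ∑ a : Fin 6, ∑ b : Fin 6, Id6 a b a b = 30 := by
  have e : ∀ a b : Fin 6, Id6 a b a b = dl a a * dl b b - dl a b * dl b a := fun a b => rfl
  simp only [e, Finset.sum_sub_distrib, dl_sum]
  simp [dl]
  norm_num

theorem Id_norm : S4 (fun a b e f => Id6 a b e f * Id6 e f a b) = 60 := by
  rw [S4_Id]
  have e : ∀ a b : Fin 6, Id6 a b a b - Id6 a b b a = 2 * Id6 a b a b := by
    intro a b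
    rw [Id6_anti' a b a b]
    ring
  simp only [e, ← Finset.mul_sum, Id_sum]
  norm_num

section
variable {W : Ten}

theorem W_Id (hW : IsWeyl W) : S4 (fun a b e f => W a b e f * Id6 e f a b) = 0 := by
  rw [S4_Id]
  refine Finset.sum_eq_zero fun a _ => ?_
  rw [Finset.sum_sub_distrib, hW.rc a a, trW3 hW a a, sub_zero]

theorem Rc_Rw (hW : IsWeyl W) (a b : Fin 6) : Rc (Rw W) a b = 5 * dl a b := by
  unfold Rc Rw
  rw [Finset.sum_add_distrib, hW.rc a b, zero_add]
  have e : ∀ c, Id6 a c b c = dl a b * dl c c - dl a c * dl c b := fun c => rfl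
  simp only [e, Finset.sum_sub_distrib, dl_sum]
  have e5 : ∑ x : Fin 6, dl a b * dl x x = 6 * dl a b := by simp [dl]
  rw [e5]
  ring

theorem nS_Rw (hW : IsWeyl W) : nS (Rw W) = nS W + 60 := by
  have h1 : S4 (fun a b c d => Rw W a b c d * Rw W c d a b) = nS (Rw W) := by
    have : nS (Rw W) = S4 (fun a b c d => Rw W a b c d * Rw W a b c d) := rfl
    rw [this]
    exact S4_congr fun a b c d => by rw [(Rw_curv hW.curv).pair a b c d]
  have h2 : S4 (fun a b c d => W a b c d * W c d a b) = nS W := by
    have : nS W = S4 (fun a b c d => W a b c d * W a b c d) := rfl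
    rw [this]
    exact S4_congr fun a b c d => by rw [hW.curv.pair a b c d]
  have e : ∀ a b c d, Rw W a b c d * Rw W c d a b = W a b c d * W c d a b +
      2 * (W a b c d * Id6 c d a b) + Id6 a b c d * Id6 c d a b := by
    intro a b c d
    unfold Rw
    rw [hW.curv.pair a b c d, Id6_pair a b c d]
    ring
  rw [← h1, S4_congr e, S4_add, S4_add, S4_mul, h2, W_Id hW, Id_norm]
  ring

theorem sc_Rw (hW : IsWeyl W) : sc (Rw W) = 30 := by
  unfold sc
  simp only [Rc_Rw hW]
  simp [dl]
  norm_num

theorem nR_Rw (hW : IsWeyl W) : nR (Rw W) = 150 := by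
  unfold nR
  simp only [Rc_Rw hW]
  have e : ∀ a b : Fin 6, 5 * dl a b * (5 * dl a b) = dl a b * (25 * dl a b) := fun a b => by ring
  simp only [e, dl_sum]
  simp [dl]
  norm_num

theorem I4_Rw (hW : IsWeyl W) : I4 (Rw W) = 750 := by
  unfold I4
  simp only [Rc_Rw hW]
  have e : ∀ a b c : Fin 6, 5 * dl a b * (5 * dl b c) * (5 * dl c a) =
    dl b c * (125 * dl a b * dl c a) := fun a b c => by ring
  simp only [e, dl_sum]
  have e' : ∀ a b : Fin 6, 125 * dl a b * dl b a = dl a b * (125 * dl b a) := fun a b => by ring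
  simp only [e', dl_sum]
  simp [dl]
  norm_num

theorem I5_Rw (hW : IsWeyl W) : I5 (Rw W) = 750 := by
  unfold I5
  simp only [Rc_Rw hW]
  have e : ∀ a b c d : Fin 6, 5 * dl a b * Rw W a c b d * (5 * dl c d) =
    dl c d * (25 * dl a b * Rw W a c b d) := fun a b c d => by ring
  simp only [e, dl_sum]
  have e' : ∀ a b : Fin 6, ∑ c, 25 * dl a b * Rw W a c b c = dl a b * (25 * Rc (Rw W) a b) := by
    intro a b
    unfold Rc
    rw [Finset.mul_sum, Finset.mul_sum]
    exact Finset.sum_congr rfl fun c _ => by ring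
  simp only [e', dl_sum, Rc_Rw hW]
  simp [dl]
  norm_num

theorem I6_Rw (hW : IsWeyl W) : I6 (Rw W) = 5 * nS (Rw W) := by
  unfold I6
  simp only [Rc_Rw hW]
  have e : ∀ a b : Fin 6, 5 * dl a b * SS (Rw W) a b = dl a b * (5 * SS (Rw W) a b) :=
    fun a b => by ring
  simp only [e, dl_sum]
  rw [← Finset.mul_sum]
  rfl

def T2 (W : Ten) (a b e f : Fin 6) : ℝ := ∑ c, ∑ d, W a b c d * W c d e f

theorem T2_Rw (hW : IsWeyl W) (a b e f : Fin 6) :
    T2 (Rw W) a b e f = T2 W a b e f + 4 * W a b e f + 2 * Id6 a b e f := by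
  have e1 : ∀ c d, Rw W a b c d * Rw W c d e f = W a b c d * W c d e f +
      (dl c e * (dl d f * W a b c d) - dl d e * (dl c f * W a b c d)) +
      (dl a c * (dl b d * W c d e f) - dl a d * (dl b c * W c d e f)) +
      (dl a c * (dl b d * Id6 c d e f) - dl a d * (dl b c * Id6 c d e f)) := by
    intro c d
    unfold Rw
    have h1 : Id6 c d e f = dl c e * dl d f - dl c f * dl d e := rfl
    have h2 : Id6 a b c d = dl a c * dl b d - dl a d * dl b c := rfl
    rw [show (W a b c d + Id6 a b c d) * (W c d e f + Id6 c d e f) =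
      W a b c d * W c d e f + W a b c d * Id6 c d e f + Id6 a b c d * W c d e f +
      Id6 a b c d * Id6 c d e f by ring, h2]
    conv_lhs =>
      enter [1, 1, 2]
      rw [h1]
    ring
  unfold T2
  simp only [e1, Finset.sum_add_distrib, Finset.sum_sub_distrib]
  have u1 : ∑ c, ∑ d, dl c e * (dl d f * W a b c d) = W a b e f := by
    simp only [← Finset.mul_sum, dl_mul_sum]
  have u2 : ∑ c, ∑ d, dl d e * (dl c f * W a b c d) = W a b f e := by
    simp only [dl_mul_sum]
  have u3 : ∀ X : Ten, ∑ c, ∑ d, dl a c * (dl b d * X c d e f) = X a b e f := by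
    intro X
    simp only [← Finset.mul_sum, dl_sum]
  have u4 : ∀ X : Ten, ∑ c, ∑ d, dl a d * (dl b c * X c d e f) = X b a e f := by
    intro X
    simp only [dl_sum]
  rw [u1, u2, u3, u3, u4, u4, an2 hW.curv a b e f, hW.curv.anti a b e f, Id6_anti a b e f]
  ring

theorem I7_T2 (W : Ten) : I7 W = S4 fun a b e f => T2 W a b e f * W e f a b := by
  have e1 : I7 W = S6 fun a b c d e f => W a b c d * W c d e f * W e f a b := rfl
  rw [e1, S6_rel _ ![0, 1, 4, 5, 2, 3] (by decide)]
  unfold S6 S4 T2
  refine Finset.sum_congr rfl fun a _ => Finset.sum_congr rfl fun b _ =>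
    Finset.sum_congr rfl fun c _ => Finset.sum_congr rfl fun d _ => ?_
  simp only [Matrix.cons_val, Finset.sum_mul]

theorem I7_Rw (hW : IsWeyl W) : I7 (Rw W) = 120 + 6 * nS W + I7 W := by
  rw [I7_T2]
  simp only [T2_Rw hW]
  have h2 : S4 (fun a b c d => W a b c d * W c d a b) = nS W := by
    have : nS W = S4 (fun a b c d => W a b c d * W a b c d) := rfl
    rw [this]
    exact S4_congr fun a b c d => by rw [hW.curv.pair a b c d]
  have h3 : S4 (fun a b e f => Id6 a b e f * W e f a b) = 0 := by
    rw [← W_Id hW, ← S4_pair]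
    exact S4_congr fun a b c d => by ring
  have h4 : S4 (fun a b e f => T2 W a b e f * Id6 e f a b) = 2 * nS W := by
    rw [S4_Id]
    have e : ∀ a b, T2 W a b a b - T2 W a b b a = 2 * ∑ c, ∑ d, W a b c d * W c d a b := by
      intro a b
      have : T2 W a b b a = - T2 W a b a b := by
        unfold T2
        rw [← Finset.sum_neg_distrib]
        refine Finset.sum_congr rfl fun c _ => ?_
        rw [← Finset.sum_neg_distrib]
        refine Finset.sum_congr rfl fun d _ => ?_
        rw [an2 hW.curv c d a b]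
        ring
      rw [this]
      unfold T2
      ring
    simp only [e, ← Finset.mul_sum]
    rw [← h2]
    rfl
  have e : ∀ a b e f, (T2 W a b e f + 4 * W a b e f + 2 * Id6 a b e f) * Rw W e f a b =
      T2 W a b e f * W e f a b + T2 W a b e f * Id6 e f a b + 4 * (W a b e f * W e f a b) +
      4 * (W a b e f * Id6 e f a b) + 2 * (Id6 a b e f * W e f a b) +
      2 * (Id6 a b e f * Id6 e f a b) := by
    intro a b e f
    unfold Rw
    ring
  rw [S4_congr e]
  simp only [S4_add, S4_mul]
  rw [h2, h3, h4, W_Id hW, Id_norm, ← I7_T2]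
  ring

def U2 (W : Ten) (a b e f : Fin 6) : ℝ := ∑ c, ∑ d, W a c b d * W c e d f

theorem U2_Rw (hW : IsWeyl W) (a b e f : Fin 6) :
    U2 (Rw W) a b e f = U2 W a b e f - W a f b e - W b e a f + 4 * (dl a b * dl e f) +
      dl a e * dl b f := by
  have e1 : ∀ c d, Rw W a c b d * Rw W c e d f = W a c b d * W c e d f +
      (dl c d * (dl e f * W a c b d) - dl c f * (dl d e * W a c b d)) +
      (dl c d * (dl a b * W c e d f) - dl a d * (dl c b * W c e d f)) +
      (dl a b * dl e f * (dl c d * dl c d) - dl a b * (dl d e * (dl c f * dl c d)) -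
        dl e f * (dl a d * (dl c b * dl c d)) + dl c b * (dl a d * (dl c f * dl d e))) := by
    intro c d
    unfold Rw Id6
    rw [dl_comm e d]
    ring
  unfold U2
  simp only [e1, Finset.sum_add_distrib, Finset.sum_sub_distrib]
  have u1 : ∑ c, ∑ d, dl c d * (dl e f * W a c b d) = 0 := by
    simp only [dl_sum, ← Finset.mul_sum, hW.rc, mul_zero]
  have u2 : ∑ c, ∑ d, dl c f * (dl d e * W a c b d) = W a f b e := by
    simp only [← Finset.mul_sum, dl_mul_sum]
  have u3 : ∑ c, ∑ d, dl c d * (dl a b * W c e d f) = 0 := by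
    simp only [dl_sum, ← Finset.mul_sum, trW1 hW, mul_zero]
  have u4 : ∑ c, ∑ d, dl a d * (dl c b * W c e d f) = W b e a f := by
    simp only [dl_sum, dl_mul_sum]
  have u5 : ∑ c, ∑ d, dl a b * dl e f * (dl c d * dl c d) = 6 * (dl a b * dl e f) := by
    simp only [← Finset.mul_sum, dl_sum]
    simp [dl]
  have u6 : ∑ c, ∑ d, dl a b * (dl d e * (dl c f * dl c d)) = dl a b * dl e f := by
    simp only [← Finset.mul_sum, dl_mul_sum]
    rw [dl_comm f e]
  have u7 : ∑ c, ∑ d, dl e f * (dl a d * (dl c b * dl c d)) = dl e f * dl a b := by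
    simp only [← Finset.mul_sum, dl_sum, dl_mul_sum]
    rw [dl_comm b a]
  have u8 : ∑ c, ∑ d, dl c b * (dl a d * (dl c f * dl d e)) = dl a e * dl b f := by
    simp only [← Finset.mul_sum, dl_sum, dl_mul_sum]
    ring
  rw [u1, u2, u3, u4, u5, u6, u7, u8]
  ring

theorem I8_U2 (W : Ten) : I8 W = S4 fun a b e f => U2 W a b e f * W e a f b := by
  have e1 : I8 W = S6 fun a b c d e f => W a c b d * W c e d f * W e a f b := rfl
  rw [e1, S6_rel _ ![0, 1, 4, 5, 2, 3] (by decide)]
  unfold S6 S4 U2
  refine Finset.sum_congr rfl fun a _ => Finset.sum_congr rfl fun b _ =>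
    Finset.sum_congr rfl fun c _ => Finset.sum_congr rfl fun d _ => ?_
  simp only [Matrix.cons_val, Finset.sum_mul]

/-- contraction with the metric tensor in the positions of `U2` -/
theorem S4_Id' (X : Ten) : S4 (fun a b e f => X a b e f * Id6 e a f b) =
    ∑ a, ∑ e, (X a a e e - X a e e a) := by
  have e0 : S4 (fun a b e f => X a b e f * Id6 e a f b) =
      S4 (fun a e b f => X a b e f * Id6 e a f b) :=
    (S4_23 (fun a b e f => X a b e f * Id6 e a f b)).symm
  rw [e0]
  unfold S4
  refine Finset.sum_congr rfl fun a _ => Finset.sum_congr rfl fun e _ => ?_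
  have e : ∀ b f, X a b e f * Id6 e a f b = dl a b * (dl e f * X a b e f) -
      dl e b * (dl a f * X a b e f) := by
    intro b f
    unfold Id6
    ring
  simp only [e, Finset.sum_sub_distrib, ← Finset.mul_sum, dl_sum]

theorem I8_Rw (hW : IsWeyl W) : I8 (Rw W) = 120 - 3 / 2 * nS W + I8 W := by
  have a1 := hW.curv.anti
  have pr := hW.curv.pair
  have n3 := N3 hW.curv
  rw [I8_U2]
  simp only [U2_Rw hW]
  have t1 : S4 (fun a b e f => U2 W a b e f * W e a f b) = I8 W := (I8_U2 W).symm
  have t2 : S4 (fun a b e f => U2 W a b e f * Id6 e a f b) = - (1 / 2) * nS W := by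
    rw [S4_Id']
    simp only [Finset.sum_sub_distrib]
    have z : ∑ a, ∑ e, U2 W a a e e = 0 := by
      refine Finset.sum_eq_zero fun a _ => ?_
      unfold U2
      rw [rot3 (fun c d e => W a c a d * W c e d e)]
      refine Finset.sum_eq_zero fun c _ => Finset.sum_eq_zero fun d _ => ?_
      rw [← Finset.mul_sum, hW.rc c d, mul_zero]
    have y : ∑ a, ∑ e, U2 W a e e a = 1 / 2 * nS W := by
      have e1 : ∑ a, ∑ e, U2 W a e e a = S4 (fun a e c d => W a c e d * W c e d a) := rfl
      rw [e1, ← S4_23]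
      have e2 : ∀ i j k l, W i j k l * W j k l i = - (W i j k l * W i l j k) := by
        intro i j k l
        rw [← pr j k l i, a1 i l j k]
        ring
      rw [S4_congr e2, S4_neg, n3]
      ring
    rw [z, y]
    ring
  have t3 : S4 (fun a b e f => W a f b e * W e a f b) = 1 / 2 * nS W := by
    have e1 : S4 (fun a b e f => W a f b e * W e a f b) =
        S4 (fun i j k l => W i j k l * W l i j k) := by
      rw [← S4_23 (fun i j k l => W i j k l * W l i j k),
        ← S4_34 (fun i k j l => W i j k l * W l i j k)]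
    have e2 : ∀ i j k l, W i j k l * W l i j k = - (W i j k l * W i l j k) := by
      intro i j k l
      rw [a1 i l j k]
      ring
    rw [e1, S4_congr e2, S4_neg, n3]
    ring
  have t4 : S4 (fun a b e f => W a f b e * Id6 e a f b) = 0 := by
    rw [S4_Id' (fun a b e f => W a f b e)]
    refine Finset.sum_eq_zero fun a _ => ?_
    simp only [W_xx hW.curv, sub_zero]
    exact hW.rc a a
  have t5 : S4 (fun a b e f => W b e a f * W e a f b) = 1 / 2 * nS W := by
    have e1 : S4 (fun a b e f => W b e a f * W e a f b) =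
        S4 (fun i j k l => W i j k l * W j k l i) := by
      rw [← S4_23 (fun i j k l => W i j k l * W j k l i),
        ← S4_12 (fun i k j l => W i j k l * W j k l i)]
    have e2 : ∀ i j k l, W i j k l * W j k l i = - (W i j k l * W i l j k) := by
      intro i j k l
      rw [← pr j k l i, a1 i l j k]
      ring
    rw [e1, S4_congr e2, S4_neg, n3]
    ring
  have t6 : S4 (fun a b e f => W b e a f * Id6 e a f b) = 0 := by
    rw [S4_Id' (fun a b e f => W b e a f)]
    refine Finset.sum_eq_zero fun a _ => ?_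
    simp only [W_xx hW.curv, sub_zero]
    exact hW.rc a a
  have t7 : S4 (fun a b e f => dl a b * dl e f * W e a f b) = 0 := by
    unfold S4
    refine Finset.sum_eq_zero fun a _ => ?_
    have e1 : ∑ b, ∑ e, ∑ f, dl a b * dl e f * W e a f b = ∑ e, W e a e a := by
      rw [Finset.sum_comm]
      refine Finset.sum_congr rfl fun e _ => ?_
      rw [← dl_sum a (fun b => W e a e b)]
      refine Finset.sum_congr rfl fun b _ => ?_
      rw [← dl_sum e (fun f => W e a f b), Finset.mul_sum]
      exact Finset.sum_congr rfl fun f _ => by ring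
    rw [e1]
    exact trW1 hW a a
  have t8 : S4 (fun a b e f => dl a b * dl e f * Id6 e a f b) = 30 := by
    rw [S4_Id' (fun a b e f => dl a b * dl e f)]
    rw [← Id_sum]
    refine Finset.sum_congr rfl fun a _ => Finset.sum_congr rfl fun e _ => ?_
    unfold Id6
    ring
  have t9 : ∀ a b e f, dl a e * dl b f * W e a f b = 0 := by
    intro a b e f
    unfold dl
    by_cases h : a = e
    · subst h
      rw [W_xx hW.curv, mul_zero]
    · rw [if_neg h]
      ring
  have t10 : ∀ a b e f : Fin 6, dl a e * dl b f * Id6 e a f b = 0 := by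
    intro a b e f
    unfold dl
    by_cases h : a = e
    · subst h
      have : Id6 a a f b = 0 := by
        have := Id6_anti a a f b
        linarith
      rw [this, mul_zero]
    · rw [if_neg h]
      ring
  have e : ∀ a b e f, (U2 W a b e f - W a f b e - W b e a f + 4 * (dl a b * dl e f) +
      dl a e * dl b f) * Rw W e a f b =
      U2 W a b e f * W e a f b + U2 W a b e f * Id6 e a f b + (-1) * (W a f b e * W e a f b) +
      (-1) * (W a f b e * Id6 e a f b) + (-1) * (W b e a f * W e a f b) +
      (-1) * (W b e a f * Id6 e a f b) + 4 * (dl a b * dl e f * W e a f b) +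
      4 * (dl a b * dl e f * Id6 e a f b) := by
    intro a b e f
    have h9 := t9 a b e f
    have h10 := t10 a b e f
    unfold Rw
    linear_combination h9 + h10
  rw [S4_congr e]
  simp only [S4_add, S4_mul]
  rw [t1, t2, t3, t4, t5, t6, t7, t8]
  ring

/-- the integrand of an Einstein tensor -/
theorem gb_Rw (hW : IsWeyl W) :
    gb (Rw W) = 5760 + 48 * nS W + 32 * I7 W - 64 * I8 W := by
  rw [gb_eq (Rw_curv hW.curv), sc_Rw hW, nR_Rw hW, I4_Rw hW, I5_Rw hW, I6_Rw hW, nS_Rw hW,
    I7_Rw hW, I8_Rw hW]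
  ring

end

end Pool.Agent.Helper27.SK
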