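import Pool.Agent.Helper27.SK.Einstein

/-!
# Linear changes of variables
-/

set_option autoImplicit false

open scoped BigOperators

namespace Pool.Agent.Helper27.SK

open Hopf6

/-- change of variables in the first pair of slots -/
def tr1 (R : Ten) (x : M) : Ten := fun a b c d => ∑ i, ∑ j, R i j c d * (x i a * x j b)

/-- exchange of the pairs -/
def swp (R : Ten) : Ten := fun a b c d => R c d a b

/-- change of variables -/
def tr (R : Ten) (x : M) : Ten := fun a b c d =>
  S4 fun i j k l => R i j k l * (x i a * x j b * x k c * x l d)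

theorem tr_eq (R : Ten) (x : M) : tr R x = swp (tr1 (swp (tr1 R x)) x) := by
  funext a b c d
  unfold tr swp tr1
  have e : ∀ k l, (∑ i, ∑ j, R i j k l * (x i a * x j b)) * (x k c * x l d) =
      ∑ i, ∑ j, R i j k l * (x i a * x j b * x k c * x l d) := by
    intro k l
    rw [Finset.sum_mul]
    refine Finset.sum_congr rfl fun i _ => ?_
    rw [Finset.sum_mul]
    exact Finset.sum_congr rfl fun j _ => by ring
  simp only [e]
  exact (S4_pair (fun i j k l => R i j k l * (x i a * x j b * x k c * x l d))).symm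

theorem gb_swp (R : Ten) : gb (swp R) = gb R := by
  unfold gb swp
  rw [Finset.sum_comm]
  exact Finset.sum_congr rfl fun σ _ => Finset.sum_congr rfl fun τ _ => by ring

theorem sum_ss (x : M) (p : Fin 6 → Fin 6) :
    ∑ σ : Equiv.Perm (Fin 6), ((Equiv.Perm.sign σ : ℤ) : ℝ) * ∏ m, x (p m) (σ m) =
      ((Matrix.of x).submatrix p id).det := by
  rw [← Matrix.det_transpose, Matrix.det_apply']
  refine Finset.sum_congr rfl fun σ _ => ?_
  rfl

theorem prod3 (F1 F2 F3 : M) :
    (∑ a, ∑ b, F1 a b) * (∑ c, ∑ d, F2 c d) * (∑ e, ∑ f, F3 e f) =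
      S6 (fun a b c d e f => F1 a b * F2 c d * F3 e f) := by
  unfold S6
  simp only [← Finset.mul_sum, ← Finset.sum_mul]

theorem gb_tr1 (R : Ten) (x : M) : gb (tr1 R x) = (Matrix.of x).det * gb R := by
  classical
  unfold gb
  -- expansion
  have e1 : ∀ σ τ : Equiv.Perm (Fin 6),
      tr1 R x (σ 0) (σ 1) (τ 0) (τ 1) * tr1 R x (σ 2) (σ 3) (τ 2) (τ 3) *
        tr1 R x (σ 4) (σ 5) (τ 4) (τ 5) =
      ∑ p : Fin 6 → Fin 6, (R (p 0) (p 1) (τ 0) (τ 1) * R (p 2) (p 3) (τ 2) (τ 3) *
        R (p 4) (p 5) (τ 4) (τ 5)) * ∏ m, x (p m) (σ m) := by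
    intro σ τ
    have h := S6_fun (fun a b c d e f => (R a b (τ 0) (τ 1) * R c d (τ 2) (τ 3) *
        R e f (τ 4) (τ 5)) * (x a (σ 0) * x b (σ 1) * x c (σ 2) * x d (σ 3) * x e (σ 4) * x f (σ 5)))
    simp only [Fin.prod_univ_six]
    rw [← h]
    unfold tr1
    rw [prod3]
    exact S6_congr fun a b c d e f => by ring
  have e2 : ∀ τ : Equiv.Perm (Fin 6), ∑ σ : Equiv.Perm (Fin 6), ((Equiv.Perm.sign σ : ℤ) : ℝ) *
      (tr1 R x (σ 0) (σ 1) (τ 0) (τ 1) * tr1 R x (σ 2) (σ 3) (τ 2) (τ 3) *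
        tr1 R x (σ 4) (σ 5) (τ 4) (τ 5)) = (Matrix.of x).det *
      ∑ σ : Equiv.Perm (Fin 6), ((Equiv.Perm.sign σ : ℤ) : ℝ) *
      (R (σ 0) (σ 1) (τ 0) (τ 1) * R (σ 2) (σ 3) (τ 2) (τ 3) * R (σ 4) (σ 5) (τ 4) (τ 5)) := by
    intro τ
    simp only [e1, Finset.mul_sum]
    rw [Finset.sum_comm]
    have e3 : ∀ p : Fin 6 → Fin 6, ∑ σ : Equiv.Perm (Fin 6), ((Equiv.Perm.sign σ : ℤ) : ℝ) *
        ((R (p 0) (p 1) (τ 0) (τ 1) * R (p 2) (p 3) (τ 2) (τ 3) *
        R (p 4) (p 5) (τ 4) (τ 5)) * ∏ m, x (p m) (σ m)) =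
        (R (p 0) (p 1) (τ 0) (τ 1) * R (p 2) (p 3) (τ 2) (τ 3) *
        R (p 4) (p 5) (τ 4) (τ 5)) * ((Matrix.of x).submatrix p id).det := by
      intro p
      rw [← sum_ss, Finset.mul_sum]
      exact Finset.sum_congr rfl fun σ _ => by ring
    simp only [e3]
    have e4 : ∀ p : Fin 6 → Fin 6, ¬ Function.Bijective p →
        (R (p 0) (p 1) (τ 0) (τ 1) * R (p 2) (p 3) (τ 2) (τ 3) *
        R (p 4) (p 5) (τ 4) (τ 5)) * ((Matrix.of x).submatrix p id).det = 0 := by
      intro p hp
      obtain ⟨i, j, hij, hne⟩ : ∃ i j, p i = p j ∧ i ≠ j := by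
        rw [← Finite.injective_iff_bijective, Function.Injective] at hp
        push Not at hp
        exact hp
      rw [Matrix.det_zero_of_row_eq hne (by funext k; simp [Matrix.submatrix, hij]), mul_zero]
    calc ∑ p : Fin 6 → Fin 6, (R (p 0) (p 1) (τ 0) (τ 1) * R (p 2) (p 3) (τ 2) (τ 3) *
        R (p 4) (p 5) (τ 4) (τ 5)) * ((Matrix.of x).submatrix p id).det
        = ∑ p : Fin 6 → Fin 6 with Function.Bijective p,
          (R (p 0) (p 1) (τ 0) (τ 1) * R (p 2) (p 3) (τ 2) (τ 3) *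
          R (p 4) (p 5) (τ 4) (τ 5)) * ((Matrix.of x).submatrix p id).det := by
          refine (Finset.sum_subset (Finset.filter_subset _ _) fun f _ hb => e4 f ?_).symm
          simpa using hb
      _ = ∑ σ : Equiv.Perm (Fin 6), (R (σ 0) (σ 1) (τ 0) (τ 1) * R (σ 2) (σ 3) (τ 2) (τ 3) *
          R (σ 4) (σ 5) (τ 4) (τ 5)) * ((Matrix.of x).submatrix σ id).det :=
          Finset.sum_bij (fun p h => Equiv.ofBijective p (Finset.mem_filter.1 h).2)
          (fun _ _ => Finset.mem_univ _) (fun _ _ _ _ h => by injection h)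
          (fun b _ => ⟨b, Finset.mem_filter.2 ⟨Finset.mem_univ _, b.bijective⟩,
            DFunLike.coe_injective rfl⟩)
          fun _ _ => rfl
      _ = _ := by
          refine Finset.sum_congr rfl fun σ _ => ?_
          rw [Matrix.det_permute]
          ring
  have e5 : ∀ F : Equiv.Perm (Fin 6) → Equiv.Perm (Fin 6) → ℝ,
      ∑ σ : Equiv.Perm (Fin 6), ∑ τ : Equiv.Perm (Fin 6),
      ((Equiv.Perm.sign σ : ℤ) : ℝ) * ((Equiv.Perm.sign τ : ℤ) : ℝ) * F σ τ =
      ∑ τ : Equiv.Perm (Fin 6), ((Equiv.Perm.sign τ : ℤ) : ℝ) *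
        ∑ σ : Equiv.Perm (Fin 6), ((Equiv.Perm.sign σ : ℤ) : ℝ) * F σ τ := by
    intro F
    rw [Finset.sum_comm]
    refine Finset.sum_congr rfl fun τ _ => ?_
    rw [Finset.mul_sum]
    exact Finset.sum_congr rfl fun σ _ => by ring
  rw [e5, e5]
  simp only [e2]
  rw [Finset.mul_sum]
  exact Finset.sum_congr rfl fun τ _ => by ring

theorem gb_tr (R : Ten) (x : M) : gb (tr R x) = (Matrix.of x).det ^ 2 * gb R := by
  rw [tr_eq, gb_swp, gb_tr1, gb_swp, gb_tr1]
  ring

theorem S4_rot (F : Fin 6 → Fin 6 → Fin 6 → Fin 6 → ℝ) :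
    S4 (fun a b c d => F b c a d) = S4 F :=
  rot3 fun a b c => ∑ d, F a b c d

theorem tr_curv {R : Ten} (hR : IsCurv R) (x : M) : IsCurv (tr R x) := by
  refine ⟨fun a b c d => ?_, fun a b c d => ?_, fun a b c d => ?_⟩
  · unfold tr
    rw [← S4_neg, ← S4_12]
    refine S4_congr fun i j k l => ?_
    rw [hR.anti i j k l]
    ring
  · unfold tr
    rw [← S4_pair]
    refine S4_congr fun i j k l => ?_
    rw [hR.pair i j k l]
    ring
  · unfold tr
    have r1 : S4 (fun i j k l => R i j k l * (x i b * x j c * x k a * x l d)) =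
        S4 (fun i j k l => R j k i l * (x j b * x k c * x i a * x l d)) :=
      (S4_rot (fun i j k l => R i j k l * (x i b * x j c * x k a * x l d))).symm
    have r2 : S4 (fun i j k l => R i j k l * (x i c * x j a * x k b * x l d)) =
        S4 (fun i j k l => R k i j l * (x k c * x i a * x j b * x l d)) := by
      rw [← S4_rot (fun i j k l => R i j k l * (x i c * x j a * x k b * x l d)),
        ← S4_rot (fun i j k l => R j k i l * (x j c * x k a * x i b * x l d))]
    rw [r1, r2, ← S4_add, ← S4_add]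
    unfold S4
    refine Finset.sum_eq_zero fun i _ => Finset.sum_eq_zero fun j _ => Finset.sum_eq_zero fun k _ =>
      Finset.sum_eq_zero fun l _ => ?_
    have := hR.bianchi i j k l
    linear_combination (x i a * x j b * x k c * x l d) * this

/-- the matrix `x h xᵀ` -/
def cj (x h : M) : M := fun i k => ∑ a, ∑ c, h a c * (x i a * x k c)

theorem S4_prod (F : Fin 6 → Fin 6 → Fin 6 → Fin 6 → ℝ) :
    S4 F = ∑ p : Fin 6 × Fin 6 × Fin 6 × Fin 6, F p.1 p.2.1 p.2.2.1 p.2.2.2 := by
  simp only [Fintype.sum_prod_type]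
  rfl

theorem S4_swap (G : Fin 6 → Fin 6 → Fin 6 → Fin 6 → Fin 6 → Fin 6 → Fin 6 → Fin 6 → ℝ) :
    S4 (fun i j k' l => S4 (fun a b c d => G i j k' l a b c d)) =
      S4 (fun a b c d => S4 (fun i j k' l => G i j k' l a b c d)) := by
  simp only [S4_prod]
  exact Finset.sum_comm

theorem b2_tr (R : Ten) (x h k : M) : b2 (tr R x) h k = b2 R (cj x h) (cj x k) := by
  unfold b2 tr cj
  have e1 : ∀ i j k' l, S4 (fun a b c d => R a b c d * (x a i * x b k' * x c j * x d l)) *
      (h i j * k k' l) = S4 (fun a b c d => R a b c d *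
        ((h i j * (x a i * x c j)) * (k k' l * (x b k' * x d l)))) := by
    intro i j k' l
    unfold S4
    simp only [Finset.sum_mul]
    refine Finset.sum_congr rfl fun a _ => Finset.sum_congr rfl fun b _ =>
      Finset.sum_congr rfl fun c _ => Finset.sum_congr rfl fun d _ => ?_
    ring
  rw [S4_congr e1, S4_swap]
  have e2 : ∀ a b c d, S4 (fun i j k' l => R a b c d *
        ((h i j * (x a i * x c j)) * (k k' l * (x b k' * x d l)))) =
      R a b c d * ((∑ i, ∑ j, h i j * (x a i * x c j)) * ∑ k', ∑ l, k k' l * (x b k' * x d l)) := by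
    intro a b c d
    unfold S4
    simp only [← Finset.mul_sum, ← Finset.sum_mul]
  rw [S4_congr e2, ← S4_23]

theorem cj_symm {h : M} (hs : ∀ a b, h a b = h b a) (x : M) (i k : Fin 6) :
    cj x h i k = cj x h k i := by
  unfold cj
  rw [Finset.sum_comm]
  refine Finset.sum_congr rfl fun c _ => Finset.sum_congr rfl fun a _ => ?_
  rw [hs a c]
  ring

/-- `x xᵀ` -/
def gram (x : M) : M := fun i k => ∑ a, x i a * x k a

theorem cj_dl (x : M) : cj x dl = gram x := by
  funext i k
  unfold cj gram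
  refine Finset.sum_congr rfl fun a _ => ?_
  exact dl_sum a (fun c => x i a * x k c)

/-- the product of matrices -/
def mm (x y : M) : M := fun i k => ∑ a, x i a * y a k

theorem cj_gram (x y : M) : cj x (gram y) = gram (mm x y) := by
  funext i k
  unfold cj gram mm
  have e1 : ∀ a, (∑ c, x i c * y c a) * (∑ c, x k c * y c a) =
      ∑ c, ∑ d, (y c a * y d a) * (x i c * x k d) := by
    intro a
    rw [Finset.sum_mul_sum]
    exact Finset.sum_congr rfl fun c _ => Finset.sum_congr rfl fun d _ => by ring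
  simp only [e1]
  rw [rot3 (fun c d a => (y c a * y d a) * (x i c * x k d))]
  refine Finset.sum_congr rfl fun c _ => Finset.sum_congr rfl fun d _ => ?_
  rw [Finset.sum_mul]

/-- the main functional -/
def N (R : Ten) (x : M) : ℝ := b2 R (gram x) (gram x)

theorem N_tr (R : Ten) (x y : M) : N (tr R x) y = N R (mm x y) := by
  unfold N
  rw [b2_tr, cj_gram]

/-! ### bilinearity -/

theorem b2_add_left (R : Ten) (h h' k : M) :
    b2 R (fun a b => h a b + h' a b) k = b2 R h k + b2 R h' k := by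
  unfold b2
  rw [← S4_add]
  exact S4_congr fun _ _ _ _ => by ring

theorem b2_add_right (R : Ten) (h k k' : M) :
    b2 R h (fun a b => k a b + k' a b) = b2 R h k + b2 R h k' := by
  unfold b2
  rw [← S4_add]
  exact S4_congr fun _ _ _ _ => by ring

theorem b2_smul_left (R : Ten) (t : ℝ) (h k : M) :
    b2 R (fun a b => t * h a b) k = t * b2 R h k := by
  unfold b2
  rw [← S4_mul]
  exact S4_congr fun _ _ _ _ => by ring

theorem b2_smul_right (R : Ten) (t : ℝ) (h k : M) :
    b2 R h (fun a b => t * k a b) = t * b2 R h k := by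
  unfold b2
  rw [← S4_mul]
  exact S4_congr fun _ _ _ _ => by ring

theorem b2_symm {R : Ten} (hR : IsCurv R) (h k : M) : b2 R h k = b2 R k h := by
  unfold b2
  rw [← S4_pair]
  refine S4_congr fun i j k' l => ?_
  rw [hR.anti i k' l j, an2 hR i k' j l]
  ring

/-- the Lorentzian property -/
theorem lorentz {R : Ten} (hR : IsCurv R) (hp : SK R) {k h : M} (hk : ∀ a b, k a b = k b a)
    (hs : ∀ a b, h a b = h b a) (h1 : 0 < b2 R k k) (h2 : b2 R k h = 0) : b2 R h h ≤ 0 := by
  by_contra hc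
  push Not at hc
  set s : ℝ := ∑ a, h a a with hsd
  set t : ℝ := ∑ a, k a a with htd
  by_cases hst : s = 0
  · exact absurd (hp h hs hst) (not_le.2 hc)
  · have h3 := hp (fun a b => s * k a b + (-t) * h a b)
      (fun a b => by simp only [hk a b, hs a b])
      (by
        rw [Finset.sum_add_distrib, ← Finset.mul_sum, ← Finset.mul_sum]
        ring)
    rw [b2_add_left R (fun a b => s * k a b), b2_add_right R _ (fun a b => s * k a b),
      b2_add_right R _ (fun a b => s * k a b), b2_smul_left, b2_smul_left, b2_smul_left,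
      b2_smul_left, b2_smul_right, b2_smul_right, b2_smul_right, b2_smul_right, b2_symm hR h k,
      h2] at h3
    have h4 : 0 < s ^ 2 := by positivity
    nlinarith [mul_pos h4 h1, mul_nonneg (sq_nonneg t) hc.le]

end Pool.Agent.Helper27.SK
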