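import Pool.Agent.Helper27.SK.Min

/-!
# Tensors whose form on symmetric matrices has at most one positive eigenvalue
-/

set_option autoImplicit false

open scoped BigOperators

namespace Pool.Agent.Helper27.SK

open Hopf6

/-- values on vectors -/
def Rv (R : Ten) (x y z w : Fin 6 → ℝ) : ℝ := S4 fun i j k l => R i j k l * (x i * y j * z k * w l)

/-- the matrix with given columns -/
def cl (x y z w : Fin 6 → ℝ) : M := fun i a =>
  if a = 0 then x i else if a = 1 then y i else if a = 2 then z i else w i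

theorem Rv_tr (R : Ten) (x y z w : Fin 6 → ℝ) : Rv R x y z w = tr R (cl x y z w) 0 1 2 3 := by
  unfold Rv tr cl
  refine S4_congr fun i j k l => ?_
  simp

theorem Rv_tr1 (R : Ten) (x y z w : Fin 6 → ℝ) : Rv R y x z w = tr R (cl x y z w) 1 0 2 3 := by
  unfold Rv tr cl
  refine S4_congr fun i j k l => ?_
  simp

theorem Rv_tr2 (R : Ten) (x y z w : Fin 6 → ℝ) : Rv R z w x y = tr R (cl x y z w) 2 3 0 1 := by
  unfold Rv tr cl
  refine S4_congr fun i j k l => ?_
  simp

theorem Rv_tr3 (R : Ten) (x y z w : Fin 6 → ℝ) : Rv R y z x w = tr R (cl x y z w) 1 2 0 3 := by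
  unfold Rv tr cl
  refine S4_congr fun i j k l => ?_
  simp

theorem Rv_tr4 (R : Ten) (x y z w : Fin 6 → ℝ) : Rv R z x y w = tr R (cl x y z w) 2 0 1 3 := by
  unfold Rv tr cl
  refine S4_congr fun i j k l => ?_
  simp

section
variable {R : Ten} (hR : IsCurv R)
include hR

theorem Rv_anti (x y z w : Fin 6 → ℝ) : Rv R y x z w = - Rv R x y z w := by
  rw [Rv_tr, Rv_tr1]
  conv_lhs => rw [← Rv_tr R y x z w]
  rw [Rv_tr1 R x y z w]
  exact (tr_curv hR _).anti 0 1 2 3

theorem Rv_pair (x y z w : Fin 6 → ℝ) : Rv R z w x y = Rv R x y z w := by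
  rw [Rv_tr2 R x y z w, Rv_tr R x y z w]
  exact (tr_curv hR _).pair 0 1 2 3

theorem Rv_bianchi (x y z w : Fin 6 → ℝ) : Rv R x y z w + Rv R y z x w + Rv R z x y w = 0 := by
  rw [Rv_tr R x y z w, Rv_tr3 R x y z w, Rv_tr4 R x y z w]
  exact (tr_curv hR _).bianchi 0 1 2 3

theorem Rv_anti2 (x y z w : Fin 6 → ℝ) : Rv R x y w z = - Rv R x y z w := by
  rw [← Rv_pair hR x y w z, ← Rv_pair hR x y z w, Rv_anti hR z w x y]

theorem Rv_xx (x z w : Fin 6 → ℝ) : Rv R x x z w = 0 := by
  have := Rv_anti hR x x z w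
  linarith

theorem Rv_xx2 (x z w : Fin 6 → ℝ) : Rv R z w x x = 0 := by
  rw [← Rv_pair hR z w x x, Rv_xx hR]

end

theorem Rv_add1 (R : Ten) (x x' y z w : Fin 6 → ℝ) (t : ℝ) :
    Rv R (fun i => x i + t * x' i) y z w = Rv R x y z w + t * Rv R x' y z w := by
  unfold Rv
  rw [← S4_mul, ← S4_add]
  exact S4_congr fun _ _ _ _ => by ring

theorem Rv_add2 (R : Ten) (x y y' z w : Fin 6 → ℝ) (t : ℝ) :
    Rv R x (fun i => y i + t * y' i) z w = Rv R x y z w + t * Rv R x y' z w := by
  unfold Rv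
  rw [← S4_mul, ← S4_add]
  exact S4_congr fun _ _ _ _ => by ring

theorem Rv_add3 (R : Ten) (x y z z' w : Fin 6 → ℝ) (t : ℝ) :
    Rv R x y (fun i => z i + t * z' i) w = Rv R x y z w + t * Rv R x y z' w := by
  unfold Rv
  rw [← S4_mul, ← S4_add]
  exact S4_congr fun _ _ _ _ => by ring

theorem Rv_add4 (R : Ten) (x y z w w' : Fin 6 → ℝ) (t : ℝ) :
    Rv R x y z (fun i => w i + t * w' i) = Rv R x y z w + t * Rv R x y z w' := by
  unfold Rv
  rw [← S4_mul, ← S4_add]
  exact S4_congr fun _ _ _ _ => by ring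

/-- rank one matrices -/
def oo (x y : Fin 6 → ℝ) : M := fun a b => x a * y b

theorem b2_oo (R : Ten) (x y z w : Fin 6 → ℝ) : b2 R (oo x y) (oo z w) = Rv R x z y w := by
  unfold b2 oo Rv
  rw [← S4_23 (fun i j k l => R i j k l * (x i * z j * y k * w l))]
  refine S4_congr fun i j k l => ?_
  ring

theorem ov_oo (x : Fin 6 → ℝ) : ov x = oo x x := rfl

theorem b2_ov' (R : Ten) (x y : Fin 6 → ℝ) : b2 R (ov x) (ov y) = Rv R x y x y := b2_oo R x x y y

/-- pairing of matrices -/
def ip (P h : M) : ℝ := ∑ a, ∑ b, P a b * h a b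

theorem ip_add (P h k : M) (s t : ℝ) :
    ip P (fun a b => s * h a b + t * k a b) = s * ip P h + t * ip P k := by
  unfold ip
  simp only [Finset.mul_sum, ← Finset.sum_add_distrib]
  exact Finset.sum_congr rfl fun _ _ => Finset.sum_congr rfl fun _ _ => by ring

theorem b2_comb {R : Ten} (hR : IsCurv R) (h k : M) (s t : ℝ) :
    b2 R (fun a b => s * h a b + t * k a b) (fun a b => s * h a b + t * k a b) =
      s ^ 2 * b2 R h h + 2 * s * t * b2 R h k + t ^ 2 * b2 R k k := by
  rw [b2_add_left R (fun a b => s * h a b) (fun a b => t * k a b),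
    b2_add_right R _ (fun a b => s * h a b) (fun a b => t * k a b),
    b2_add_right R _ (fun a b => s * h a b) (fun a b => t * k a b), b2_smul_left, b2_smul_left,
    b2_smul_left, b2_smul_left, b2_smul_right, b2_smul_right, b2_smul_right, b2_smul_right,
    b2_symm hR k h]
  ring

/-- the form is nonpositive on a hyperplane of the symmetric matrices -/
def Lo (R : Ten) (P : M) : Prop :=
  ∀ h : M, (∀ a b, h a b = h b a) → ip P h = 0 → b2 R h h ≤ 0

section
variable {R : Ten} (hR : IsCurv R) {P : M} (hp : Lo R P)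
include hR hp

theorem lorentz' {k h : M} (hk : ∀ a b, k a b = k b a)
    (hs : ∀ a b, h a b = h b a) (h1 : 0 < b2 R k k) (h2 : b2 R k h = 0) : b2 R h h ≤ 0 := by
  by_contra hc
  push Not at hc
  by_cases hst : ip P h = 0
  · exact absurd (hp h hs hst) (not_le.2 hc)
  · have h3 := hp (fun a b => ip P h * k a b + (-ip P k) * h a b)
      (fun a b => by simp only [hk a b, hs a b])
      (by
        rw [ip_add]
        ring)
    rw [b2_comb hR, h2] at h3
    have h4 : 0 < (ip P h) ^ 2 := by positivity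
    nlinarith [mul_pos h4 h1, mul_nonneg (sq_nonneg (ip P k)) hc.le]

/-- the sectional curvatures are nonnegative -/
theorem sec_nonneg (x y : Fin 6 → ℝ) : 0 ≤ Rv R x y x y := by
  by_contra hc
  push Not at hc
  set κ := Rv R x y x y with hκ
  set u1 : M := fun a b => 1 * ov x a b + (-1) * ov y a b with hu1
  set u2 : M := fun a b => oo x y a b + oo y x a b with hu2
  have e1 : b2 R u1 u1 = -2 * κ := by
    rw [hu1, b2_comb hR, b2_ov_self hR, b2_ov_self hR, b2_ov']
    ring
  have e2 : b2 R u2 u2 = -2 * κ := by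
    rw [hu2, b2_add_left, b2_add_right, b2_add_right, b2_oo, b2_oo, b2_oo, b2_oo, Rv_xx hR,
      Rv_xx hR, Rv_anti2 hR x y x y, Rv_anti hR x y x y, ← hκ]
    ring
  have e3 : b2 R u1 u2 = 0 := by
    rw [hu1, hu2, b2_add_left R (fun a b => 1 * ov x a b) (fun a b => -1 * ov y a b),
      b2_smul_left, b2_smul_left, b2_add_right, b2_add_right, ov_oo, ov_oo, b2_oo, b2_oo, b2_oo,
      b2_oo, Rv_xx hR, Rv_xx2 hR, Rv_xx hR, Rv_xx2 hR]
    ring
  have hs1 : ∀ a b, u1 a b = u1 b a := by
    intro a b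
    simp only [hu1, ov]
    ring
  have hs2 : ∀ a b, u2 a b = u2 b a := by
    intro a b
    simp only [hu2, oo]
    ring
  by_cases h0 : ip P u1 = 0
  · have := hp u1 hs1 h0
    linarith
  · have h3 := hp (fun a b => ip P u2 * u1 a b + (-ip P u1) * u2 a b)
      (fun a b => by simp only [hs1 a b, hs2 a b])
      (by
        rw [ip_add]
        ring)
    rw [b2_comb hR, e1, e2, e3] at h3
    have h4 : 0 < (ip P u1) ^ 2 := by positivity
    nlinarith [mul_pos h4 (neg_pos.2 hc), mul_nonneg (sq_nonneg (ip P u2)) (neg_pos.2 hc).le]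

end

/-! ### the degenerate case -/

theorem linzero {a b : ℝ} (h : ∀ t : ℝ, 0 ≤ a * t + b * t ^ 2) : a = 0 :=
  quartic (a := a) (b := b) (c := 0) (d := 0) fun t => by
    have := h t
    linarith

section
variable {R : Ten} (hR : IsCurv R) (hK : ∀ x y : Fin 6 → ℝ, 0 ≤ Rv R x y x y)
include hR hK

theorem null1 {v : Fin 6 → ℝ} (hv : ∀ y, Rv R v y v y = 0) (y z : Fin 6 → ℝ) :
    Rv R v y z y = 0 := by
  have h : ∀ t : ℝ, 0 ≤ (2 * Rv R v y z y) * t + (Rv R z y z y) * t ^ 2 := by
    intro t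
    have h1 := hK (fun i => v i + t * z i) y
    rw [Rv_add1, Rv_add3, Rv_add3, hv y, ← Rv_pair hR z y v y] at h1
    linarith
  have := linzero h
  linarith

theorem null2 {v : Fin 6 → ℝ} (hv : ∀ y, Rv R v y v y = 0) (y z w : Fin 6 → ℝ) :
    Rv R v y z w = 0 := by
  have h1 : ∀ y z w : Fin 6 → ℝ, Rv R v y z w + Rv R v w z y = 0 := by
    intro y z w
    have h := null1 hR hK hv (fun i => y i + 1 * w i) z
    rw [Rv_add2, Rv_add4, Rv_add4, null1 hR hK hv y z, null1 hR hK hv w z] at h
    linarith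
  have h2 := Rv_bianchi hR v y z w
  rw [← Rv_pair hR y z v w, Rv_anti hR v z y w] at h2
  have h3 := h1 y z w
  have h4 := Rv_anti2 hR v w y z
  have h5 := h1 z y w
  have h6 := Rv_anti2 hR v y w z
  have h7 := Rv_anti2 hR v z w y
  have h8 := h1 z w y
  linarith

end

theorem Rv_dl (R : Ten) (v : Fin 6 → ℝ) (j k l : Fin 6) :
    Rv R v (fun i => dl j i) (fun i => dl k i) (fun i => dl l i) = ∑ i, v i * R i j k l := by
  unfold Rv S4
  refine Finset.sum_congr rfl fun i _ => ?_
  have e : ∀ b c d, R i b c d * (v i * dl j b * dl k c * dl l d) =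
      dl j b * (dl k c * (dl l d * (v i * R i b c d))) := fun b c d => by ring
  simp only [e, ← Finset.mul_sum, dl_sum]

theorem gb_null {R : Ten} (hR : IsCurv R) {v : Fin 6 → ℝ} (hv0 : v ≠ 0)
    (hv : ∀ j k l, ∑ i, v i * R i j k l = 0) : gb R = 0 := by
  set s : ℝ := ∑ a, v a * v a with hs
  have hs0 : s ≠ 0 := by
    intro h
    refine hv0 (funext fun a => ?_)
    have := (Finset.sum_eq_zero_iff_of_nonneg (fun i _ => mul_self_nonneg (v i))).1 h a
      (Finset.mem_univ a)
    exact mul_self_eq_zero.1 this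
  set π : M := fun i a => dl i a - v i * (s⁻¹ * v a) with hπ
  have hv2 : ∀ i k l, ∑ j, v j * R i j k l = 0 := by
    intro i k l
    have e : ∀ j, v j * R i j k l = - (v j * R j i k l) := by
      intro j
      rw [hR.anti j i k l]
      ring
    simp only [e, Finset.sum_neg_distrib, hv, neg_zero]
  have h1 : tr1 R π = R := by
    funext a b c d
    unfold tr1
    have e1 : ∀ i, ∑ j, R i j c d * (π i a * π j b) = π i a * R i b c d := by
      intro i
      have e2 : ∀ j, R i j c d * (π i a * π j b) =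
          π i a * (dl j b * R i j c d) - π i a * (s⁻¹ * v b) * (v j * R i j c d) := by
        intro j
        simp only [hπ]
        ring
      simp only [e2, Finset.sum_sub_distrib, ← Finset.mul_sum, hv2]
      have := dl_mul_sum (fun j => R i j c d) b
      rw [this]
      ring
    simp only [e1]
    have e3 : ∀ i, π i a * R i b c d = dl i a * R i b c d - (s⁻¹ * v a) * (v i * R i b c d) := by
      intro i
      simp only [hπ]
      ring
    simp only [e3, Finset.sum_sub_distrib, ← Finset.mul_sum, hv]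
    have := dl_mul_sum (fun i => R i b c d) a
    rw [this]
    ring
  have h2 : (Matrix.of π).det = 0 := by
    refine Matrix.exists_mulVec_eq_zero_iff.1 ⟨v, hv0, ?_⟩
    funext i
    simp only [Matrix.mulVec, dotProduct, Matrix.of_apply, hπ, Pi.zero_apply]
    have e : ∀ a, (dl i a - v i * (s⁻¹ * v a)) * v a = dl i a * v a - v i * s⁻¹ * (v a * v a) :=
      fun a => by ring
    simp only [e, Finset.sum_sub_distrib, ← Finset.mul_sum, ← hs, dl_sum]
    field_simp
    ring
  have h3 := gb_tr1 R π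
  rw [h1, h2, zero_mul] at h3
  exact h3

end Pool.Agent.Helper27.SK
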