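import Pool.Agent.Helper27.SK.Lor

/-!
# The sign for tensors whose form has at most one positive eigenvalue
-/

set_option autoImplicit false

open scoped BigOperators

namespace Pool.Agent.Helper27.SK

open Hopf6

section
open scoped MatrixOrder ComplexOrder

theorem exists_root (Q : Matrix (Fin 6) (Fin 6) ℝ) (h : Q.PosDef) :
    ∃ B : Matrix (Fin 6) (Fin 6) ℝ, IsUnit B.det ∧ B.transpose * Q * B = 1 := by
  obtain ⟨A, hA⟩ := CStarAlgebra.nonneg_iff_eq_star_mul_self.mp h.posSemidef.nonneg
  have hA' : Q = A.transpose * A := by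
    rw [hA]
    simp [Matrix.star_eq_conjTranspose]
  have hd : Q.det ≠ 0 := h.det_pos.ne'
  have hd2 : A.det ≠ 0 := by
    intro h0
    rw [hA', Matrix.det_mul, h0, mul_zero] at hd
    exact hd rfl
  have hu : IsUnit A.det := isUnit_iff_ne_zero.2 hd2
  refine ⟨A⁻¹, ?_, ?_⟩
  · rw [Matrix.det_nonsing_inv]
    exact hu.ringInverse
  · rw [hA', Matrix.transpose_nonsing_inv, ← Matrix.mul_assoc,
      Matrix.nonsing_inv_mul _ (by rwa [Matrix.det_transpose]), Matrix.one_mul,
      Matrix.mul_nonsing_inv _ hu]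

end

/-- the quadratic form of the Ricci tensor -/
def qR (R : Ten) (v : Fin 6 → ℝ) : ℝ := ∑ a, ∑ b, Rc R a b * (v a * v b)

theorem Rc_sum (R : Ten) (v : Fin 6 → ℝ) :
    ∑ c, Rv R v (fun i => dl c i) v (fun i => dl c i) = qR R v := by
  unfold Rv S4 qR Rc
  have e : ∀ c i : Fin 6, ∑ j, ∑ k, ∑ l, R i j k l * (v i * dl c j * v k * dl c l) =
      ∑ k, R i c k c * (v i * v k) := by
    intro c i
    have e2 : ∀ j k l, R i j k l * (v i * dl c j * v k * dl c l) =
        dl c l * (dl c j * (R i j k l * (v i * v k))) := fun j k l => by ring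
    simp only [e2, dl_sum]
    rw [Finset.sum_comm]
    simp only [dl_sum]
  simp only [e]
  rw [Finset.sum_comm]
  refine Finset.sum_congr rfl fun i _ => ?_
  rw [Finset.sum_comm]
  exact Finset.sum_congr rfl fun k _ => by rw [Finset.sum_mul]

theorem Rv_sum4 (R : Ten) (x y z w : Fin 6 → ℝ) :
    Rv R x y z w = ∑ c, w c * Rv R x y z (fun i => dl c i) := by
  unfold Rv S4
  have e : ∀ c, w c * (∑ i, ∑ j, ∑ k, ∑ l, R i j k l * (x i * y j * z k * dl c l)) =
      ∑ i, ∑ j, ∑ k, w c * (R i j k c * (x i * y j * z k)) := by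
    intro c
    simp only [Finset.mul_sum]
    refine Finset.sum_congr rfl fun i _ => Finset.sum_congr rfl fun j _ =>
      Finset.sum_congr rfl fun k _ => ?_
    have e2 : ∀ l, w c * (R i j k l * (x i * y j * z k * dl c l)) =
        dl c l * (w c * (R i j k l * (x i * y j * z k))) := fun l => by ring
    simp only [e2, dl_sum]
  simp only [e]
  symm
  rw [Finset.sum_comm]
  refine Finset.sum_congr rfl fun i _ => ?_
  rw [Finset.sum_comm]
  refine Finset.sum_congr rfl fun j _ => ?_
  rw [Finset.sum_comm]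
  exact Finset.sum_congr rfl fun k _ => Finset.sum_congr rfl fun l _ => by ring

theorem K_zero {R : Ten} (hR : IsCurv R) (hK : ∀ x y : Fin 6 → ℝ, 0 ≤ Rv R x y x y)
    {v : Fin 6 → ℝ} (h : qR R v ≤ 0) (y : Fin 6 → ℝ) : Rv R v y v y = 0 := by
  have h0 : ∀ c : Fin 6, Rv R v (fun i => dl c i) v (fun i => dl c i) = 0 := by
    have h1 : ∑ c, Rv R v (fun i => dl c i) v (fun i => dl c i) = 0 :=
      le_antisymm (by rw [Rc_sum]; exact h) (Finset.sum_nonneg fun c _ => hK _ _)
    intro c
    exact (Finset.sum_eq_zero_iff_of_nonneg (fun c _ => hK _ _)).1 h1 c (Finset.mem_univ c)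
  have h2 : ∀ c : Fin 6, Rv R v y v (fun i => dl c i) = 0 := by
    intro c
    by_contra hβ
    set β := Rv R v y v (fun i => dl c i) with hb
    set q := Rv R v y v y with hq
    have h3 := hK v (fun i => y i + (-(q + 1) / (2 * β)) * dl c i)
    rw [Rv_add2, Rv_add4, Rv_add4, Rv_pair hR v y v (fun i => dl c i), h0 c, ← hb, ← hq] at h3
    have h4 : (-(q + 1) / (2 * β)) * β = -(q + 1) / 2 := by field_simp
    nlinarith
  rw [Rv_sum4]
  exact Finset.sum_eq_zero fun c _ => by rw [h2 c, mul_zero]

theorem Rc_mat_pos {R : Ten} (hR : IsCurv R) (h : ∀ v : Fin 6 → ℝ, v ≠ 0 → 0 < qR R v) :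
    (Matrix.of (Rc R) : Matrix (Fin 6) (Fin 6) ℝ).PosDef := by
  refine Matrix.PosDef.of_dotProduct_mulVec_pos ?_ fun v hv => ?_
  · ext i j
    simp only [Matrix.conjTranspose_apply, Matrix.of_apply, star_trivial]
    exact Rc_symm hR j i
  · have h1 := h v hv
    unfold qR at h1
    have e : star v ⬝ᵥ (Matrix.of (Rc R)).mulVec v = ∑ a, ∑ b, Rc R a b * (v a * v b) := by
      simp only [dotProduct, Matrix.mulVec, Matrix.of_apply, star_trivial]
      refine Finset.sum_congr rfl fun a _ => ?_
      rw [Finset.mul_sum]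
      exact Finset.sum_congr rfl fun b _ => by ring
    rw [e]
    exact h1

theorem b2_dl_pos {R : Ten} (hR : IsCurv R) (h : ∀ v : Fin 6 → ℝ, v ≠ 0 → 0 < qR R v) :
    0 < b2 R dl dl := by
  rw [b2_dl hR]
  have e : ∀ a, ∑ b, Rc R a b * dl a b = qR R (fun i => dl a i) := by
    intro a
    unfold qR
    rw [dl_sum' a (fun b => Rc R a b), s2 (Rc R) a a]
  simp only [e]
  refine Finset.sum_pos (fun a _ => h _ ?_) ⟨0, Finset.mem_univ _⟩
  intro h0
  have := congrFun h0 a
  simp [dl] at this

theorem b2_dl_cj {R : Ten} (hR : IsCurv R) {x : M}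
    (hx : (Matrix.of x).transpose * Matrix.of (Rc R) * Matrix.of x = 1) (h : M) :
    b2 R dl (cj x h) = ∑ a, h a a := by
  rw [b2_dl hR]
  have e0 : ∀ c d, ∑ b, (∑ a, x a c * Rc R a b) * x b d = dl c d := by
    intro c d
    have h1 := congrFun (congrFun hx c) d
    simp only [Matrix.mul_apply, Matrix.transpose_apply, Matrix.of_apply, Matrix.one_apply] at h1
    rw [h1]
    rfl
  unfold cj
  have e1 : ∀ a b, Rc R a b * ∑ c, ∑ d, h c d * (x a c * x b d) =
      ∑ c, ∑ d, h c d * ((x a c * Rc R a b) * x b d) := by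
    intro a b
    simp only [Finset.mul_sum]
    exact Finset.sum_congr rfl fun c _ => Finset.sum_congr rfl fun d _ => by ring
  simp only [e1]
  have e2 : ∑ a, ∑ b, ∑ c, ∑ d, h c d * ((x a c * Rc R a b) * x b d) =
      ∑ c, ∑ d, ∑ a, ∑ b, h c d * ((x a c * Rc R a b) * x b d) :=
    (S4_pair (fun a b c d => h c d * ((x a c * Rc R a b) * x b d))).symm
  rw [e2]
  refine Finset.sum_congr rfl fun c _ => ?_
  have e3 : ∀ d, ∑ a, ∑ b, h c d * ((x a c * Rc R a b) * x b d) = h c d * dl c d := by
    intro d
    rw [Finset.sum_comm, ← e0 c d, Finset.mul_sum]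
    refine Finset.sum_congr rfl fun b _ => ?_
    rw [Finset.sum_mul, Finset.mul_sum]
  simp only [e3]
  exact dl_sum' c (fun d => h c d)

/-- The sign, for tensors whose form has at most one positive eigenvalue. -/
theorem gb_nonneg {R : Ten} (hR : IsCurv R) {P : M} (hp : Lo R P) : 0 ≤ gb R := by
  have hK := sec_nonneg hR hp
  by_cases h : ∃ v : Fin 6 → ℝ, v ≠ 0 ∧ qR R v ≤ 0
  · obtain ⟨v, hv0, hv⟩ := h
    have h1 := K_zero hR hK hv
    rw [gb_null hR hv0 fun j k l => by
      rw [← Rv_dl]
      exact null2 hR hK h1 _ _ _]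
  · push Not at h
    obtain ⟨B, hB, hBB⟩ := exists_root _ (Rc_mat_pos hR h)
    set x : M := fun i j => B i j with hx
    have hxB : (Matrix.of x : Matrix (Fin 6) (Fin 6) ℝ) = B := rfl
    have hS : SK (tr R x) := by
      intro k hs ht
      rw [b2_tr]
      refine lorentz' hR hp (k := dl) dl_comm (cj_symm hs x) (b2_dl_pos hR h) ?_
      rw [b2_dl_cj hR (by rw [hxB]; exact hBB), ht]
    have h2 := gb_ge (tr_curv hR x) (le_refl (0 : ℝ)) fun k hs ht => by
      have := hS k hs ht
      linarith
    rw [gb_tr, hxB] at h2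
    have h3 : 0 < B.det ^ 2 := by
      have := hB.ne_zero
      positivity
    have h4 : 0 ≤ B.det ^ 2 * gb R := by linarith
    exact nonneg_of_mul_nonneg_right h4 h3

/-! ### the strict inequality -/

/-- the form is negative on a hyperplane of the symmetric matrices -/
def SLo (R : Ten) (P : M) : Prop :=
  ∀ h : M, (∀ a b, h a b = h b a) → ip P h = 0 → h ≠ 0 → b2 R h h < 0

theorem SLo.lo {R : Ten} {P : M} (hp : SLo R P) : Lo R P := by
  intro h hs h0
  by_cases hh : h = 0
  · subst hh
    unfold b2 S4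
    simp
  · exact (hp h hs h0 hh).le

theorem slorentz {R : Ten} (hR : IsCurv R) {P : M} (hp : SLo R P) {k h : M}
    (hk : ∀ a b, k a b = k b a) (hs : ∀ a b, h a b = h b a) (h1 : 0 < b2 R k k)
    (h2 : b2 R k h = 0) (hh : h ≠ 0) : b2 R h h < 0 := by
  by_contra hc
  push Not at hc
  by_cases hst : ip P h = 0
  · exact absurd (hp h hs hst hh) (not_lt.2 hc)
  · have hne : (fun a b => ip P h * k a b + (-ip P k) * h a b) ≠ (0 : M) := by
      intro h0
      have h3 : b2 R k (fun a b => ip P h * k a b + (-ip P k) * h a b) = 0 := by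
        rw [h0]
        unfold b2 S4
        simp
      rw [b2_add_right, b2_smul_right, b2_smul_right, h2] at h3
      have h4 : ip P h * b2 R k k = 0 := by linarith
      rcases mul_eq_zero.1 h4 with h5 | h5
      · exact hst h5
      · exact h1.ne' h5
    have h3 := hp (fun a b => ip P h * k a b + (-ip P k) * h a b)
      (fun a b => by simp only [hk a b, hs a b])
      (by
        rw [ip_add]
        ring) hne
    rw [b2_comb hR, h2] at h3
    have h4 : 0 < (ip P h) ^ 2 := by positivity
    nlinarith [mul_pos h4 h1, mul_nonneg (sq_nonneg (ip P k)) hc]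

theorem exists_kappa {R : Ten} (hs : ∀ h : M, (∀ a b, h a b = h b a) → ∑ a, h a a = 0 →
    h ≠ 0 → b2 R h h < 0) :
    ∃ κ : ℝ, 0 < κ ∧ ∀ h : M, (∀ a b, h a b = h b a) → ∑ a, h a a = 0 →
      b2 R h h ≤ -(κ * ∑ a, ∑ b, h a b * h a b) := by
  set S : Set M := {h | (∀ a b, h a b = h b a) ∧ ∑ a, h a a = 0 ∧
    ∑ a, ∑ b, h a b * h a b = 1} with hS
  have hzero : ∀ h : M, ∑ a, ∑ b, h a b * h a b = 0 → h = 0 := by
    intro h h0
    funext a b
    have h1 := (Finset.sum_eq_zero_iff_of_nonneg (fun i _ =>
      Finset.sum_nonneg fun j _ => mul_self_nonneg (h i j))).1 h0 a (Finset.mem_univ a)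
    have h2 := (Finset.sum_eq_zero_iff_of_nonneg (fun j _ =>
      mul_self_nonneg (h a j))).1 h1 b (Finset.mem_univ b)
    exact mul_self_eq_zero.1 h2
  have hn0 : ∀ h : M, 0 ≤ ∑ a, ∑ b, h a b * h a b := fun h =>
    Finset.sum_nonneg fun a _ => Finset.sum_nonneg fun b _ => mul_self_nonneg _
  have hclosed : IsClosed S := by
    have c1 : IsClosed {h : M | ∀ a b, h a b = h b a} := by
      simp only [Set.ofPred_forall]
      exact isClosed_iInter fun a => isClosed_iInter fun b =>
        isClosed_eq (by fun_prop) (by fun_prop)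
    have c2 : IsClosed {h : M | ∑ a, h a a = 0} := isClosed_eq (by fun_prop) continuous_const
    have c3 : IsClosed {h : M | ∑ a, ∑ b, h a b * h a b = 1} :=
      isClosed_eq (by fun_prop) continuous_const
    exact c1.inter (c2.inter c3)
  have hbd : Bornology.IsBounded S := by
    refine (Metric.isBounded_closedBall (x := (0 : M)) (r := 1)).subset ?_
    intro x hx
    rw [mem_closedBall_zero_iff, pi_norm_le_iff_of_nonneg (by norm_num)]
    intro a
    rw [pi_norm_le_iff_of_nonneg (by norm_num)]
    intro b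
    have h1 : x a b * x a b ≤ 1 := by
      calc x a b * x a b ≤ ∑ b, x a b * x a b :=
            Finset.single_le_sum (f := fun b => x a b * x a b)
              (fun j _ => mul_self_nonneg _) (Finset.mem_univ b)
        _ ≤ ∑ a, ∑ b, x a b * x a b :=
            Finset.single_le_sum (f := fun a => ∑ b, x a b * x a b)
              (fun j _ => Finset.sum_nonneg fun _ _ => mul_self_nonneg _) (Finset.mem_univ a)
        _ = 1 := hx.2.2
    rw [Real.norm_eq_abs]
    by_contra hc
    push Not at hc
    have h2 : 1 * 1 < |x a b| * |x a b| := mul_lt_mul'' hc hc (by norm_num) (by norm_num)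
    rw [abs_mul_abs_self] at h2
    linarith
  have hcomp : IsCompact S := Metric.isCompact_of_isClosed_isBounded hclosed hbd
  have hcont : Continuous fun h : M => b2 R h h := by
    unfold b2 S4
    fun_prop
  have hmem : ∀ h : M, (∀ a b, h a b = h b a) → ∑ a, h a a = 0 →
      ∑ a, ∑ b, h a b * h a b ≠ 0 →
      (fun a b => (Real.sqrt (∑ a, ∑ b, h a b * h a b))⁻¹ * h a b) ∈ S := by
    intro h h1 h2 h3
    set q := ∑ a, ∑ b, h a b * h a b with hq
    have hq0 : 0 < q := lt_of_le_of_ne (hn0 h) (Ne.symm h3)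
    refine ⟨fun a b => congrArg _ (h1 a b), ?_, ?_⟩
    · rw [← Finset.mul_sum, h2, mul_zero]
    · have e : ∀ a b, (Real.sqrt q)⁻¹ * h a b * ((Real.sqrt q)⁻¹ * h a b) =
          ((Real.sqrt q)⁻¹ * (Real.sqrt q)⁻¹) * (h a b * h a b) := fun a b => by ring
      simp only [e, ← Finset.mul_sum]
      rw [← hq, ← mul_inv, Real.mul_self_sqrt hq0.le]
      field_simp
  rcases S.eq_empty_or_nonempty with hE | hne
  · refine ⟨1, one_pos, fun h h1 h2 => ?_⟩
    by_cases h3 : ∑ a, ∑ b, h a b * h a b = 0
    · have := hzero h h3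
      subst this
      unfold b2 S4
      simp
    · have := hmem h h1 h2 h3
      rw [hE] at this
      exact absurd this (Set.notMem_empty _)
  · obtain ⟨h0, hh0, hmax⟩ := hcomp.exists_isMaxOn hne hcont.continuousOn
    have hneg : b2 R h0 h0 < 0 := by
      refine hs h0 hh0.1 hh0.2.1 ?_
      intro hz
      have := hh0.2.2
      rw [hz] at this
      simp at this
    refine ⟨-(b2 R h0 h0), by linarith, fun h h1 h2 => ?_⟩
    by_cases h3 : ∑ a, ∑ b, h a b * h a b = 0
    · have := hzero h h3
      subst this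
      unfold b2 S4
      simp
    · have h4 := hmax (hmem h h1 h2 h3)
      simp only [Set.mem_ofPred_eq] at h4
      set q := ∑ a, ∑ b, h a b * h a b with hq
      have hq0 : 0 < q := lt_of_le_of_ne (hn0 h) (Ne.symm h3)
      rw [b2_smul_left, b2_smul_right, ← mul_assoc, ← mul_inv, Real.mul_self_sqrt hq0.le] at h4
      have h5 : b2 R h h = q * (q⁻¹ * b2 R h h) := by field_simp
      rw [h5]
      have h6 : q * (q⁻¹ * b2 R h h) ≤ q * b2 R h0 h0 := mul_le_mul_of_nonneg_left h4 hq0.le
      linarith

/-- The strict inequality. -/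
theorem gb_pos {R : Ten} (hR : IsCurv R) {P : M} (hp : SLo R P) : 0 < gb R := by
  have hK := sec_nonneg hR hp.lo
  have h : ∀ v : Fin 6 → ℝ, v ≠ 0 → 0 < qR R v := by
    intro v hv0
    by_contra hc
    push Not at hc
    have h1 := K_zero hR hK hc
    have h2 := null2 hR hK h1
    -- a vector orthogonal to a given one
    set w : Fin 6 → ℝ := fun b => ∑ a, (P a b + P b a) * v a with hw
    obtain ⟨y, hy0, hy⟩ : ∃ y : Fin 6 → ℝ, y ≠ 0 ∧ ∑ b, w b * y b = 0 := by
      by_cases h3 : w 0 = 0
      · refine ⟨fun b => dl 0 b, ?_, ?_⟩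
        · intro h4
          have := congrFun h4 0
          simp [dl] at this
        · rw [dl_sum' 0 w, h3]
      · refine ⟨fun b => w 0 * dl 1 b - w 1 * dl 0 b, ?_, ?_⟩
        · intro h4
          have := congrFun h4 1
          simp [dl] at this
          exact h3 this
        · have e : ∀ b, w b * (w 0 * dl 1 b - w 1 * dl 0 b) =
              w 0 * (w b * dl 1 b) - w 1 * (w b * dl 0 b) := fun b => by ring
          simp only [e, Finset.sum_sub_distrib, ← Finset.mul_sum, dl_sum']
          ring
    have h4 := hp (fun a b => oo v y a b + oo y v a b)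
      (fun a b => by
        unfold oo
        ring)
      (by
        rw [← hy]
        unfold ip oo
        have e : ∀ a b, P a b * (v a * y b + y a * v b) =
            P a b * v a * y b + P a b * v b * y a := fun a b => by ring
        simp only [e, Finset.sum_add_distrib, hw, Finset.sum_mul, add_mul]
        rw [Finset.sum_comm])
      (by
        intro h0
        obtain ⟨a, ha⟩ : ∃ a, v a ≠ 0 := by
          by_contra hh
          push Not at hh
          exact hv0 (funext hh)
        have e1 : ∀ b, v a * y b + y a * v b = 0 := fun b => congrFun (congrFun h0 a) b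
        have e2 : y a = 0 := by
          have := e1 a
          have h5 : v a * y a = 0 := by linarith
          exact (mul_eq_zero.1 h5).resolve_left ha
        refine hy0 (funext fun b => ?_)
        have := e1 b
        rw [e2, zero_mul, add_zero] at this
        exact (mul_eq_zero.1 this).resolve_left ha)
    rw [b2_add_left, b2_add_right, b2_add_right, b2_oo, b2_oo, b2_oo, b2_oo, h2, h2,
      Rv_anti hR v y v y, h2, ← Rv_pair hR y y v v, h2] at h4
    linarith
  obtain ⟨B, hB, hBB⟩ := exists_root _ (Rc_mat_pos hR h)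
  set x : M := fun i j => B i j with hx
  have hxB : (Matrix.of x : Matrix (Fin 6) (Fin 6) ℝ) = B := rfl
  have hS : ∀ k : M, (∀ a b, k a b = k b a) → ∑ a, k a a = 0 → k ≠ 0 →
      b2 (tr R x) k k < 0 := by
    intro k hs ht hk
    rw [b2_tr]
    refine slorentz hR hp (k := dl) dl_comm (cj_symm hs x) (b2_dl_pos hR h) ?_ ?_
    · rw [b2_dl_cj hR (by rw [hxB]; exact hBB), ht]
    · intro h0
      have h1 : B * Matrix.of k * B.transpose = 0 := by
        ext i j
        have := congrFun (congrFun h0 i) j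
        unfold cj at this
        simp only [Matrix.mul_apply, Matrix.transpose_apply, Matrix.of_apply, Matrix.zero_apply]
        rw [Finset.sum_comm] at this
        have e : ∀ c, (∑ a, B i a * k a c) * B j c = ∑ a, k a c * (x i a * x j c) := by
          intro c
          rw [Finset.sum_mul]
          exact Finset.sum_congr rfl fun a _ => by
            simp only [hx]
            ring
        simp only [e]
        exact this
      have h2 : Matrix.of k = 0 := by
        have h3 : B⁻¹ * (B * Matrix.of k * B.transpose) * (B.transpose)⁻¹ = Matrix.of k := by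
          rw [Matrix.mul_assoc B, ← Matrix.mul_assoc B⁻¹, Matrix.nonsing_inv_mul _ hB,
            Matrix.one_mul, Matrix.mul_assoc, Matrix.mul_nonsing_inv _ (by
              rwa [Matrix.det_transpose]), Matrix.mul_one]
        rw [← h3, h1]
        simp
      exact hk (by
        funext i j
        exact congrFun (congrFun h2 i) j)
  obtain ⟨κ, hκ, hh⟩ := exists_kappa hS
  have h2 := gb_ge (tr_curv hR x) hκ.le hh
  rw [gb_tr, hxB] at h2
  have h3 : 0 < B.det ^ 2 := by
    have := hB.ne_zero
    positivity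
  have h4 : 0 < B.det ^ 2 * gb R := lt_of_lt_of_le (by positivity) h2
  exact (mul_pos_iff_of_pos_left h3).1 h4

end Pool.Agent.Helper27.SK
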