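import Pool.Agent.Helper27.SK.Norm
import Pool.Agent.H933R2.Hopf.Main

/-!
# Consequences of minimality
-/

set_option autoImplicit false

open scoped BigOperators

namespace Pool.Agent.Helper27.SK

open Hopf6

theorem of_mm (x y : M) : Matrix.of (mm x y) = Matrix.of x * Matrix.of y := by
  ext i j
  simp [mm, Matrix.mul_apply]

theorem of_dl : (Matrix.of dl : Matrix (Fin 6) (Fin 6) ℝ) = 1 := by
  ext i j
  simp [dl, Matrix.one_apply]

theorem mm_dl (x : M) : mm x dl = x := by
  funext i k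
  unfold mm
  exact dl_sum2 k (fun a => x i a)

theorem gram_dl : gram dl = dl := by
  funext i k
  unfold gram
  rw [dl_sum i (fun a => dl k a)]
  exact dl_comm k i

theorem tr_min {R : Ten} {x : M} (hx : (Matrix.of x).det = 1)
    (hmin : ∀ y : M, (Matrix.of y).det = 1 → N R x ≤ N R y) (y : M)
    (hy : (Matrix.of y).det = 1) : N (tr R x) dl ≤ N (tr R x) y := by
  rw [N_tr, N_tr, mm_dl]
  exact hmin _ (by rw [of_mm, Matrix.det_mul, hx, hy, one_mul])

/-- a transvection -/
def pt (u v : Fin 6 → ℝ) (t : ℝ) : M := fun a b => dl a b + t * (u a * v b)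

theorem det_pt (u v : Fin 6 → ℝ) (t : ℝ) (h : ∑ a, u a * v a = 0) :
    (Matrix.of (pt u v t)).det = 1 := by
  have e : Matrix.of (pt u v t) = 1 + Matrix.replicateCol Unit (fun a => t * u a) *
      Matrix.replicateRow Unit v := by
    ext i j
    simp [pt, dl, Matrix.mul_apply, Matrix.one_apply, mul_assoc]
  rw [e, Matrix.det_one_add_replicateCol_mul_replicateRow]
  have : v ⬝ᵥ (fun a => t * u a) = t * ∑ a, u a * v a := by
    simp only [dotProduct, Finset.mul_sum]
    exact Finset.sum_congr rfl fun a _ => by ring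
  rw [this, h]
  ring

theorem gram_pt (u v : Fin 6 → ℝ) (t : ℝ) :
    gram (pt u v t) = fun a b => dl a b + t * (u a * v b + v a * u b) +
      (t ^ 2 * ∑ c, v c * v c) * ov u a b := by
  funext i k
  unfold gram pt ov
  have e : ∀ a, (dl i a + t * (u i * v a)) * (dl k a + t * (u k * v a)) =
      dl i a * dl k a + dl i a * (t * (u k * v a)) + dl k a * (t * (u i * v a)) +
        (t ^ 2 * (u i * u k)) * (v a * v a) := fun a => by ring
  simp only [e, Finset.sum_add_distrib, ← Finset.mul_sum]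
  rw [dl_sum i (fun a => dl k a), dl_comm k i]
  have e1 : ∑ a, dl i a * (t * (u k * v a)) = t * (u k * v i) := dl_sum i _
  have e2 : ∑ a, dl k a * (t * (u i * v a)) = t * (u i * v k) := dl_sum k _
  rw [e1, e2]
  ring

theorem b2_three {R : Ten} (hR : IsCurv R) (h k l : M) (t s : ℝ) :
    b2 R (fun a b => h a b + t * k a b + s * l a b) (fun a b => h a b + t * k a b + s * l a b) =
      b2 R h h + 2 * t * b2 R h k + 2 * s * b2 R h l + t ^ 2 * b2 R k k +
        2 * t * s * b2 R k l + s ^ 2 * b2 R l l := by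
  rw [b2_add_left R (fun a b => h a b + t * k a b) (fun a b => s * l a b),
    b2_add_left R h (fun a b => t * k a b),
    b2_add_right R h (fun a b => h a b + t * k a b) (fun a b => s * l a b),
    b2_add_right R h h (fun a b => t * k a b),
    b2_smul_left R t k, b2_smul_left R s l,
    b2_add_right R k (fun a b => h a b + t * k a b) (fun a b => s * l a b),
    b2_add_right R k h (fun a b => t * k a b),
    b2_add_right R l (fun a b => h a b + t * k a b) (fun a b => s * l a b),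
    b2_add_right R l h (fun a b => t * k a b)]
  simp only [b2_smul_right]
  rw [b2_symm hR k h, b2_symm hR l h, b2_symm hR l k]
  ring

theorem quartic {a b c d : ℝ} (h : ∀ t : ℝ, 0 ≤ a * t + b * t ^ 2 + c * t ^ 3 + d * t ^ 4) :
    a = 0 := by
  have hd : HasDerivAt (fun t : ℝ => a * t + b * t ^ 2 + c * t ^ 3 + d * t ^ 4)
      (a * 1 + b * (2 * (0 : ℝ) ^ 1) + c * (3 * (0 : ℝ) ^ 2) + d * (4 * (0 : ℝ) ^ 3)) 0 := by
    have h1 : HasDerivAt (fun t : ℝ => t ^ 2) (2 * (0 : ℝ) ^ 1) 0 := by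
      simpa using hasDerivAt_pow 2 (0 : ℝ)
    have h2 : HasDerivAt (fun t : ℝ => t ^ 3) (3 * (0 : ℝ) ^ 2) 0 := by
      simpa using hasDerivAt_pow 3 (0 : ℝ)
    have h3 : HasDerivAt (fun t : ℝ => t ^ 4) (4 * (0 : ℝ) ^ 3) 0 := by
      simpa using hasDerivAt_pow 4 (0 : ℝ)
    exact ((((hasDerivAt_id (0 : ℝ)).const_mul a).add (h1.const_mul b)).add (h2.const_mul c)).add
      (h3.const_mul d)
  have hm : IsLocalMin (fun t : ℝ => a * t + b * t ^ 2 + c * t ^ 3 + d * t ^ 4) 0 := by
    refine Filter.Eventually.of_forall fun t => ?_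
    have := h t
    simpa using this
  have := hm.hasDerivAt_eq_zero hd
  simpa using this

theorem crit {R : Ten} (hR : IsCurv R)
    (hmin : ∀ y : M, (Matrix.of y).det = 1 → N R dl ≤ N R y) (u v : Fin 6 → ℝ)
    (huv : ∑ a, u a * v a = 0) : b2 R dl (fun a b => u a * v b + v a * u b) = 0 := by
  set k : M := fun a b => u a * v b + v a * u b with hk
  set β := ∑ c, v c * v c with hβ
  have h : ∀ t : ℝ, 0 ≤ (2 * b2 R dl k) * t + (2 * β * b2 R dl (ov u) + b2 R k k) * t ^ 2 +
      (2 * β * b2 R k (ov u)) * t ^ 3 + (β ^ 2 * b2 R (ov u) (ov u)) * t ^ 4 := by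
    intro t
    have h1 := hmin (pt u v t) (det_pt u v t huv)
    unfold N at h1
    rw [gram_dl, gram_pt, ← hβ] at h1
    have h2 := b2_three hR dl k (ov u) t (t ^ 2 * β)
    rw [hk] at h2 ⊢
    rw [h2] at h1
    linarith
  have := quartic h
  linarith

theorem b2_dl {R : Ten} (hR : IsCurv R) (k : M) : b2 R dl k = ∑ a, ∑ b, Rc R a b * k a b := by
  unfold b2 Rc S4
  have e1 : ∀ i, ∑ j, ∑ k', ∑ l, R i k' j l * (dl i j * k k' l) =
      ∑ k', ∑ l, R i k' i l * k k' l := by
    intro i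
    have e2 : ∀ j, ∑ k', ∑ l, R i k' j l * (dl i j * k k' l) =
        dl i j * ∑ k', ∑ l, R i k' j l * k k' l := by
      intro j
      simp only [Finset.mul_sum]
      exact Finset.sum_congr rfl fun _ _ => Finset.sum_congr rfl fun _ _ => by ring
    simp only [e2]
    exact dl_sum i _
  simp only [e1, Finset.sum_mul]
  rw [Finset.sum_comm]
  refine Finset.sum_congr rfl fun a _ => ?_
  rw [Finset.sum_comm]
  refine Finset.sum_congr rfl fun b _ => Finset.sum_congr rfl fun i _ => ?_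
  rw [hR.anti a i i b, an2 hR a i b i]
  ring

theorem Rc_symm {R : Ten} (hR : IsCurv R) (a b : Fin 6) : Rc R a b = Rc R b a := by
  unfold Rc
  exact Finset.sum_congr rfl fun c _ => (hR.pair b c a c)

theorem s2 (F : M) (a b : Fin 6) : ∑ i, ∑ j, F i j * (dl a i * dl b j) = F a b := by
  have e : ∀ i j, F i j * (dl a i * dl b j) = dl a i * (dl b j * F i j) := fun i j => by ring
  simp only [e, ← Finset.mul_sum, dl_sum]

theorem einstein {R : Ten} (hR : IsCurv R)
    (hmin : ∀ y : M, (Matrix.of y).det = 1 → N R dl ≤ N R y) :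
    ∃ μ : ℝ, ∀ a b, Rc R a b = 5 * μ * dl a b := by
  have hc : ∀ u v : Fin 6 → ℝ, ∑ a, u a * v a = 0 →
      ∑ a, ∑ b, Rc R a b * (u a * v b + v a * u b) = 0 := by
    intro u v h
    rw [← b2_dl hR]
    exact crit hR hmin u v h
  have hne : ∀ a b, a ≠ b → Rc R a b = 0 := by
    intro a b hab
    have h0 : ∑ i, dl a i * dl b i = 0 := by
      rw [dl_sum a (fun i => dl b i)]
      simp [dl, hab.symm]
    have h1 := hc (fun i => dl a i) (fun i => dl b i) h0
    simp only [mul_add, Finset.sum_add_distrib] at h1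
    rw [s2 (Rc R) a b, s2 (Rc R) b a, Rc_symm hR b a] at h1
    linarith
  have heq : ∀ a b, a ≠ b → Rc R a a = Rc R b b := by
    intro a b hab
    have hone : ∀ c : Fin 6, ∑ i, dl c i * dl c i = 1 := by
      intro c
      rw [dl_sum c (fun i => dl c i)]
      simp [dl]
    have h0 : ∑ i, (dl a i + dl b i) * (dl a i - dl b i) = 0 := by
      have e : ∀ i, (dl a i + dl b i) * (dl a i - dl b i) = dl a i * dl a i - dl b i * dl b i :=
        fun i => by ring
      simp only [e, Finset.sum_sub_distrib, hone]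
      ring
    have h1 := hc (fun i => dl a i + dl b i) (fun i => dl a i - dl b i) h0
    have e : ∀ i j, Rc R i j * ((dl a i + dl b i) * (dl a j - dl b j) +
        (dl a i - dl b i) * (dl a j + dl b j)) =
        2 * (Rc R i j * (dl a i * dl a j)) - 2 * (Rc R i j * (dl b i * dl b j)) :=
      fun i j => by ring
    simp only [e, Finset.sum_sub_distrib, ← Finset.mul_sum] at h1
    rw [s2 (Rc R) a a, s2 (Rc R) b b] at h1
    linarith
  refine ⟨Rc R 0 0 / 5, fun a b => ?_⟩
  by_cases hab : a = b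
  · subst hab
    have h1 : Rc R a a = Rc R 0 0 := by
      by_cases h0 : a = 0
      · rw [h0]
      · exact heq a 0 h0
    rw [h1]
    simp [dl]
    ring
  · rw [hne a b hab]
    simp [dl, hab]

theorem SK_tr {R : Ten} (hR : IsCurv R) (hp : SK R) {x : M} (h0 : 0 < N R x) {μ : ℝ}
    (hE : ∀ a b, Rc (tr R x) a b = 5 * μ * dl a b) : SK (tr R x) := by
  intro h hs ht
  rw [b2_tr]
  refine lorentz hR hp (k := gram x) (gram_symm x) (cj_symm hs x) h0 ?_
  rw [← cj_dl, ← b2_tr, b2_dl (tr_curv hR x)]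
  simp only [hE]
  have e : ∀ a, ∑ b, 5 * μ * dl a b * h a b = 5 * μ * h a a := by
    intro a
    have e1 : ∀ b, 5 * μ * dl a b * h a b = dl a b * (5 * μ * h a b) := fun b => by ring
    simp only [e1]
    exact dl_sum a _
  simp only [e, ← Finset.mul_sum, ht, mul_zero]

theorem N_dl {R : Ten} (hR : IsCurv R) {μ : ℝ} (hE : ∀ a b, Rc R a b = 5 * μ * dl a b) :
    N R dl = 30 * μ := by
  unfold N
  rw [gram_dl, b2_dl hR]
  simp only [hE]
  have e : ∀ a : Fin 6, ∑ b, 5 * μ * dl a b * dl a b = 5 * μ := by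
    intro a
    have e1 : ∀ b, 5 * μ * dl a b * dl a b = dl a b * (5 * μ * dl a b) := fun b => by ring
    simp only [e1]
    rw [dl_sum a (fun b => 5 * μ * dl a b)]
    simp [dl]
  simp only [e]
  simp
  ring

theorem Id6_rc (a b : Fin 6) : ∑ c, Id6 a c b c = 5 * dl a b := by
  unfold Id6
  have e : ∀ c, dl a b * dl c c - dl a c * dl c b = dl a b * dl c c - dl a c * dl c b := fun c => rfl
  simp only [Finset.sum_sub_distrib, ← Finset.mul_sum]
  rw [dl_sum a (fun c => dl c b)]
  have e5 : ∑ x : Fin 6, dl x x = 6 := by simp [dl]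
  rw [e5]
  ring

theorem b2_scl (c : ℝ) (R : Ten) (h k : M) : b2 (scl c R) h k = c * b2 R h k := by
  unfold b2 scl
  rw [← S4_mul]
  exact S4_congr fun _ _ _ _ => by ring

/-- Einstein tensors -/
theorem einstein_ge {R : Ten} (hR : IsCurv R) (hp : SK R) {μ : ℝ} (hμ : 0 < μ)
    (hE : ∀ a b, Rc R a b = 5 * μ * dl a b) : 640 * μ ^ 3 ≤ gb R := by
  set W : Ten := fun a b c d => μ⁻¹ * R a b c d - Id6 a b c d with hWd
  have hW : IsWeyl W := by
    refine ⟨⟨fun a b c d => ?_, fun a b c d => ?_, fun a b c d => ?_⟩, fun a b => ?_⟩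
    · simp only [hWd]
      rw [hR.anti a b c d, Id6_anti a b c d]
      ring
    · simp only [hWd]
      rw [hR.pair a b c d, Id6_pair a b c d]
    · simp only [hWd]
      linear_combination μ⁻¹ * hR.bianchi a b c d - Id6_curv.bianchi a b c d
    · simp only [hWd, Finset.sum_sub_distrib, ← Finset.mul_sum]
      have := hE a b
      unfold Rc at this
      rw [this, Id6_rc]
      field_simp
      ring
  have hRw : Rw W = scl μ⁻¹ R := by
    funext a b c d
    simp only [Rw, hWd, scl]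
    ring
  have hS : SK (Rw W) := by
    intro h hs ht
    rw [hRw, b2_scl]
    exact mul_nonpos_of_nonneg_of_nonpos (by positivity) (hp h hs ht)
  have h1 := gb_Rw_ge hW hS
  rw [hRw, gb_scl] at h1
  have h3 : 0 < μ ^ 3 := by positivity
  calc 640 * μ ^ 3 ≤ (μ⁻¹ ^ 3 * gb R) * μ ^ 3 := mul_le_mul_of_nonneg_right h1 h3.le
    _ = gb R := by field_simp

theorem e2_ge (l : Fin 6 → ℝ) (hl : ∀ i, 0 ≤ l i) (h1 : ∏ i, l i = 1) :
    30 ≤ (∑ i, l i) ^ 2 - ∑ i, l i * l i := by
  have hpos : ∀ i, 0 < l i := by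
    intro i
    refine lt_of_le_of_ne (hl i) fun h => ?_
    have : ∏ i, l i = 0 := Finset.prod_eq_zero (Finset.mem_univ i) h.symm
    rw [this] at h1
    exact zero_ne_one h1
  set s : Fin 6 → ℝ := fun i => Real.log (l i) with hs
  have hS : ∑ i, s i = 0 := by
    simp only [hs]
    rw [← Real.log_prod (fun i _ => (hpos i).ne'), h1, Real.log_one]
  have h : ∀ i j, 1 + s i + s j ≤ l i * l j := by
    intro i j
    have h2 := Real.add_one_le_exp (s i + s j)
    rw [Real.exp_add] at h2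
    simp only [hs, Real.exp_log (hpos i), Real.exp_log (hpos j)] at h2
    simp only [hs]
    linarith
  simp only [Fin.sum_univ_six] at hS ⊢
  have e : (l 0 + l 1 + l 2 + l 3 + l 4 + l 5) ^ 2 -
      (l 0 * l 0 + l 1 * l 1 + l 2 * l 2 + l 3 * l 3 + l 4 * l 4 + l 5 * l 5) =
      2 * (l 0 * l 1 + l 0 * l 2 + l 0 * l 3 + l 0 * l 4 + l 0 * l 5 + l 1 * l 2 + l 1 * l 3 +
        l 1 * l 4 + l 1 * l 5 + l 2 * l 3 + l 2 * l 4 + l 2 * l 5 + l 3 * l 4 + l 3 * l 5 +
        l 4 * l 5) := by ring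
  rw [e]
  linarith [h 0 1, h 0 2, h 0 3, h 0 4, h 0 5, h 1 2, h 1 3, h 1 4, h 1 5, h 2 3, h 2 4, h 2 5,
    h 3 4, h 3 5, h 4 5]

theorem gram_ge (x : M) (hd : (Matrix.of x).det = 1) :
    30 ≤ (∑ a, gram x a a) ^ 2 - ∑ a, ∑ b, gram x a b * gram x a b := by
  have hP : (Matrix.of (gram x)).PosSemidef := by
    rw [gram_mat]
    exact Matrix.posSemidef_self_mul_conjTranspose _
  have hdet : (Matrix.of (gram x)).det = 1 := by
    rw [gram_mat, Matrix.det_mul, Matrix.det_conjTranspose, hd]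
    simp
  have h2 : ∏ i, hP.1.eigenvalues i = 1 := by
    have := hP.1.det_eq_prod_eigenvalues
    rw [hdet] at this
    simpa using this.symm
  have h1 := e2_ge hP.1.eigenvalues hP.eigenvalues_nonneg h2
  have h3 : ∑ i, hP.1.eigenvalues i = ∑ a, gram x a a := by
    have := hP.1.trace_eq_sum_eigenvalues
    simpa [Matrix.trace] using this.symm
  have h4 : ∑ i, hP.1.eigenvalues i * hP.1.eigenvalues i = ∑ a, ∑ b, gram x a b * gram x a b := by
    have := trace_sq hP.1
    rw [← this]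
    simp only [Matrix.trace, Matrix.diag_apply, Matrix.mul_apply, Matrix.of_apply]
    refine Finset.sum_congr rfl fun a _ => Finset.sum_congr rfl fun b _ => ?_
    rw [gram_symm x b a]
  rw [h3, h4] at h1
  exact h1

theorem gb_Re_ge {R : Ten} (hR : IsCurv R) (hp : SK R) {ε : ℝ} (hε : 0 < ε) :
    640 * ε ^ 3 ≤ gb (Re R ε) := by
  obtain ⟨x, hx, hmin⟩ := exists_min hR hp hε
  have hRc := Re_curv hR ε
  have hRp := Re_SK hp hε.le
  have hm := tr_min hx hmin
  obtain ⟨μ, hE⟩ := einstein (tr_curv hRc x) hm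
  have hN : N (Re R ε) x = 30 * μ := by
    rw [← N_dl (tr_curv hRc x) hE, N_tr, mm_dl]
  have hN2 : 30 * ε ≤ N (Re R ε) x := by
    have h1 := N_Re_ge hR hp ε x
    have h2 := gram_ge x hx
    have h3 : ε * 30 ≤ ε * ((∑ a, gram x a a) ^ 2 - ∑ a, ∑ b, gram x a b * gram x a b) :=
      mul_le_mul_of_nonneg_left h2 hε.le
    linarith
  have hμ : ε ≤ μ := by linarith
  have h4 := einstein_ge (tr_curv hRc x) (SK_tr hRc hRp (by linarith) hE) (lt_of_lt_of_le hε hμ) hE
  rw [gb_tr, hx] at h4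
  have h5 : ε ^ 3 ≤ μ ^ 3 := pow_le_pow_left₀ hε.le hμ 3
  linarith

theorem gb_Re_cont (R : Ten) : Continuous fun ε : ℝ => gb (Re R ε) := by
  unfold gb Re
  fun_prop

/-- the general theorem, for tensors in the positive sign -/
theorem gb_ge {R : Ten} (hR : IsCurv R) {κ : ℝ} (hκ : 0 ≤ κ)
    (hp : ∀ h : M, (∀ a b, h a b = h b a) → ∑ a, h a a = 0 →
      b2 R h h ≤ -(κ * ∑ a, ∑ b, h a b * h a b)) : 640 * κ ^ 3 ≤ gb R := by
  set R' : Ten := Re R (-κ) with hR'
  have hp' : SK R' := by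
    intro h hs ht
    rw [hR', b2_Re, b2_Id hs, ht]
    have := hp h hs ht
    linarith
  have hRR : ∀ ε, Re R' (κ + ε) = Re R ε := by
    intro ε
    funext a b c d
    simp only [hR', Re]
    ring
  have h1 : ∀ n : ℕ, 640 * κ ^ 3 ≤ gb (Re R (1 / ((n : ℝ) + 1))) := by
    intro n
    have hn : (0 : ℝ) < 1 / ((n : ℝ) + 1) := by positivity
    have h2 := gb_Re_ge (Re_curv hR (-κ)) hp' (ε := κ + 1 / ((n : ℝ) + 1)) (by linarith)
    rw [hRR] at h2
    have h3 : κ ^ 3 ≤ (κ + 1 / ((n : ℝ) + 1)) ^ 3 := pow_le_pow_left₀ hκ (by linarith) 3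
    linarith
  have h2 : Filter.Tendsto (fun n : ℕ => gb (Re R (1 / ((n : ℝ) + 1)))) Filter.atTop
      (nhds (gb (Re R 0))) :=
    ((gb_Re_cont R).tendsto 0).comp tendsto_one_div_add_atTop_nhds_zero_nat
  have h3 := ge_of_tendsto' h2 h1
  have h4 : Re R 0 = R := by
    funext a b c d
    simp [Re]
  rwa [h4] at h3

end Pool.Agent.Helper27.SK
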