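import Pool.Agent.Helper27.SK.Eig

/-!
# The Einstein normalisation
-/

set_option autoImplicit false

open scoped BigOperators

namespace Pool.Agent.Helper27.SK

open Hopf6

/-- rank one symmetric matrices -/
def ov (x : Fin 6 → ℝ) : M := fun a b => x a * x b

theorem b2_ov_self {R : Ten} (hR : IsCurv R) (x : Fin 6 → ℝ) : b2 R (ov x) (ov x) = 0 := by
  have h1 : b2 R (ov x) (ov x) = - b2 R (ov x) (ov x) := by
    unfold b2 ov
    have e : S4 (fun i j k' l => R i k' j l * (x i * x j * (x k' * x l))) =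
        S4 (fun i k' j l => R i k' j l * (x i * x j * (x k' * x l))) :=
      (S4_23 (fun i j k' l => R i k' j l * (x i * x j * (x k' * x l)))).symm
    conv_lhs => rw [e, ← S4_12]
    conv_rhs => rw [e, ← S4_neg]
    refine S4_congr fun i k' j l => ?_
    rw [hR.anti i k' j l]
    ring
  linarith

theorem b2_ov {R : Ten} (hR : IsCurv R) (hp : SK R) (x y : Fin 6 → ℝ) :
    0 ≤ b2 R (ov x) (ov y) := by
  set α := ∑ a, x a * x a with hα
  set β := ∑ a, y a * y a with hβ
  have hα0 : 0 ≤ α := Finset.sum_nonneg fun a _ => mul_self_nonneg _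
  have hβ0 : 0 ≤ β := Finset.sum_nonneg fun a _ => mul_self_nonneg _
  have z : ∀ w : Fin 6 → ℝ, ∑ a, w a * w a = 0 → w = 0 := by
    intro w hw
    funext a
    have := (Finset.sum_eq_zero_iff_of_nonneg (fun i _ => mul_self_nonneg (w i))).1 hw a
      (Finset.mem_univ a)
    exact mul_self_eq_zero.1 this
  rcases hα0.eq_or_lt with h0 | h0
  · have := z x h0.symm
    subst this
    unfold b2 ov S4
    simp
  rcases hβ0.eq_or_lt with h1 | h1
  · have := z y h1.symm
    subst this
    unfold b2 ov S4
    simp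
  have h3 := hp (fun a b => β * ov x a b + (-α) * ov y a b)
    (fun a b => by unfold ov; ring)
    (by
      unfold ov
      rw [Finset.sum_add_distrib, ← Finset.mul_sum, ← Finset.mul_sum, ← hα, ← hβ]
      ring)
  rw [b2_add_left R (fun a b => β * ov x a b), b2_add_right R _ (fun a b => β * ov x a b),
    b2_add_right R _ (fun a b => β * ov x a b), b2_smul_left, b2_smul_left, b2_smul_left,
    b2_smul_left, b2_smul_right, b2_smul_right, b2_smul_right, b2_smul_right,
    b2_symm hR (ov y) (ov x), b2_ov_self hR x, b2_ov_self hR y] at h3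
  have h4 : 0 < α * β := mul_pos h0 h1
  by_contra hc
  push Not at hc
  nlinarith [mul_neg_of_pos_of_neg h4 hc]

theorem b2_gram (R : Ten) (x y : M) :
    b2 R (gram x) (gram y) = ∑ a, ∑ c, b2 R (ov fun i => x i a) (ov fun i => y i c) := by
  unfold b2 gram ov
  have e : ∀ i j k' l, R i k' j l * ((∑ a, x i a * x j a) * ∑ c, y k' c * y l c) =
      ∑ a, ∑ c, R i k' j l * (x i a * x j a * (y k' c * y l c)) := by
    intro i j k' l
    rw [Finset.sum_mul_sum, Finset.mul_sum]
    exact Finset.sum_congr rfl fun a _ => by rw [Finset.mul_sum]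
  rw [S4_congr e]
  have := sum2_S4 (ι := Fin 6) (fun a c i j k' l => R i k' j l * (x i a * x j a * (y k' c * y l c)))
  exact this.symm

theorem N_nonneg {R : Ten} (hR : IsCurv R) (hp : SK R) (x : M) : 0 ≤ N R x := by
  unfold N
  rw [b2_gram]
  exact Finset.sum_nonneg fun a _ => Finset.sum_nonneg fun c _ => b2_ov hR hp _ _

/-- addition of a multiple of the tensor of constant curvature -/
def Re (R : Ten) (ε : ℝ) : Ten := fun a b c d => R a b c d + ε * Id6 a b c d

theorem Re_curv {R : Ten} (hR : IsCurv R) (ε : ℝ) : IsCurv (Re R ε) := by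
  refine ⟨fun a b c d => ?_, fun a b c d => ?_, fun a b c d => ?_⟩
  · unfold Re
    rw [hR.anti a b c d, Id6_anti a b c d]
    ring
  · unfold Re
    rw [hR.pair a b c d, Id6_pair a b c d]
  · unfold Re
    linear_combination hR.bianchi a b c d + ε * Id6_curv.bianchi a b c d

theorem b2_Re (R : Ten) (ε : ℝ) (h k : M) : b2 (Re R ε) h k = b2 R h k + ε * b2 Id6 h k := by
  unfold b2 Re
  rw [← S4_mul, ← S4_add]
  exact S4_congr fun _ _ _ _ => by ring

theorem b2_Id {h : M} (hs : ∀ a b, h a b = h b a) :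
    b2 Id6 h h = (∑ a, h a a) ^ 2 - ∑ a, ∑ b, h a b * h a b := by
  unfold b2
  have e : ∀ i j k l, Id6 i k j l * (h i j * h k l) = (h i j * dl i j) * (h k l * dl k l) -
      (h i j * dl i l) * (h k l * dl k j) := by
    intro i j k l
    unfold Id6
    ring
  rw [S4_congr e, S4_sub]
  have y1 : S4 (fun i j k l => (h i j * dl i j) * (h k l * dl k l)) = (∑ a, h a a) ^ 2 := by
    unfold S4
    simp only [← Finset.mul_sum, ← Finset.sum_mul, dl_sum']
    ring
  have y2 : S4 (fun i j k l => (h i j * dl i l) * (h k l * dl k j)) =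
      ∑ i, ∑ j, h i j * h i j := by
    unfold S4
    refine Finset.sum_congr rfl fun i _ => Finset.sum_congr rfl fun j _ => ?_
    have e1 : ∀ k l, (h i j * dl i l) * (h k l * dl k j) = dl k j * (dl i l * (h i j * h k l)) :=
      fun k l => by ring
    simp only [e1, ← Finset.mul_sum, dl_sum, dl_mul_sum]
    rw [hs j i]
  rw [y1, y2]

theorem Re_SK {R : Ten} (hp : SK R) {ε : ℝ} (hε : 0 ≤ ε) : SK (Re R ε) := by
  intro h hs ht
  rw [b2_Re, b2_Id hs, ht]
  have h1 := hp h hs ht
  have h2 : 0 ≤ ∑ a, ∑ b, h a b * h a b :=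
    Finset.sum_nonneg fun a _ => Finset.sum_nonneg fun b _ => mul_self_nonneg _
  nlinarith

/-! ### coercivity -/

theorem gram_symm (x : M) (a b : Fin 6) : gram x a b = gram x b a := by
  unfold gram
  exact Finset.sum_congr rfl fun c _ => mul_comm _ _

theorem gram_mat (x : M) : Matrix.of (gram x) = Matrix.of x * (Matrix.of x).conjTranspose := by
  ext i j
  simp [gram, Matrix.mul_apply]

theorem gram_ineq (x : M) (hd : (Matrix.of x).det = 1) :
    (∑ a, gram x a a) ^ 4 ≤
      243 * ((∑ a, gram x a a) ^ 2 - ∑ a, ∑ b, gram x a b * gram x a b) ^ 5 := by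
  have hP : (Matrix.of (gram x)).PosSemidef := by
    rw [gram_mat]
    exact Matrix.posSemidef_self_mul_conjTranspose _
  have h1 := num_ineq hP.1.eigenvalues hP.eigenvalues_nonneg
  have hdet : (Matrix.of (gram x)).det = 1 := by
    rw [gram_mat, Matrix.det_mul, Matrix.det_conjTranspose, hd]
    simp
  have h2 : ∏ i, hP.1.eigenvalues i = 1 := by
    have := hP.1.det_eq_prod_eigenvalues
    rw [hdet] at this
    simpa using this.symm
  have h3 : ∑ i, hP.1.eigenvalues i = ∑ a, gram x a a := by
    have := hP.1.trace_eq_sum_eigenvalues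
    simpa [Matrix.trace] using this.symm
  have h4 : ∑ i, hP.1.eigenvalues i * hP.1.eigenvalues i = ∑ a, ∑ b, gram x a b * gram x a b := by
    have := trace_sq hP.1
    rw [← this]
    simp only [Matrix.trace, Matrix.diag_apply, Matrix.mul_apply, Matrix.of_apply]
    refine Finset.sum_congr rfl fun a _ => Finset.sum_congr rfl fun b _ => ?_
    rw [gram_symm x b a]
  rw [h2, h3, h4, mul_one] at h1
  exact h1

theorem b2_Id_gram (x : M) : b2 Id6 (gram x) (gram x) =
    (∑ a, gram x a a) ^ 2 - ∑ a, ∑ b, gram x a b * gram x a b :=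
  b2_Id (gram_symm x)

theorem gram_tr (x : M) : ∑ a, gram x a a = ∑ a, ∑ b, x a b * x a b := rfl

theorem N_Re_ge {R : Ten} (hR : IsCurv R) (hp : SK R) (ε : ℝ) (x : M) :
    ε * ((∑ a, gram x a a) ^ 2 - ∑ a, ∑ b, gram x a b * gram x a b) ≤ N (Re R ε) x := by
  have h := N_nonneg hR hp x
  unfold N at h ⊢
  rw [b2_Re, b2_Id_gram]
  linarith

theorem N_cont (R : Ten) : Continuous (N R) := by
  unfold N b2 S4 gram
  fun_prop

theorem det_cont : Continuous fun x : M => (Matrix.of x).det := by
  refine Continuous.matrix_det ?_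
  exact continuous_id

theorem exists_min {R : Ten} (hR : IsCurv R) (hp : SK R) {ε : ℝ} (hε : 0 < ε) :
    ∃ x : M, (Matrix.of x).det = 1 ∧
      ∀ y : M, (Matrix.of y).det = 1 → N (Re R ε) x ≤ N (Re R ε) y := by
  set F := N (Re R ε) with hF
  set B : ℝ := max 6 (max 1 (243 * (F dl / ε) ^ 5)) with hB
  set S : Set M := {x | (Matrix.of x).det = 1 ∧ ∑ a, ∑ b, x a b * x a b ≤ B} with hS
  have hdl : (Matrix.of dl : Matrix (Fin 6) (Fin 6) ℝ) = 1 := by
    ext i j
    simp [dl, Matrix.one_apply]
  have hdl1 : (Matrix.of dl : Matrix (Fin 6) (Fin 6) ℝ).det = 1 := by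
    rw [hdl, Matrix.det_one]
  have hne : S.Nonempty := by
    refine ⟨dl, hdl1, ?_⟩
    have e : ∀ a : Fin 6, ∑ b, dl a b * dl a b = 1 := by
      intro a
      rw [dl_sum a (fun b => dl a b)]
      simp [dl]
    simp only [e]
    have : (6 : ℝ) ≤ B := le_max_left _ _
    simpa using this
  have hclosed : IsClosed S := by
    have h1 : IsClosed {x : M | (Matrix.of x).det = 1} := isClosed_eq det_cont continuous_const
    have h2 : IsClosed {x : M | ∑ a, ∑ b, x a b * x a b ≤ B} :=
      isClosed_le (by fun_prop) continuous_const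
    exact h1.inter h2
  have hbd : Bornology.IsBounded S := by
    refine (Metric.isBounded_closedBall (x := (0 : M)) (r := B)).subset ?_
    intro x hx
    have hB1 : 1 ≤ B := le_trans (le_max_left _ _) (le_max_right _ _)
    rw [mem_closedBall_zero_iff, pi_norm_le_iff_of_nonneg (by linarith)]
    intro a
    rw [pi_norm_le_iff_of_nonneg (by linarith)]
    intro b
    have h1 : x a b * x a b ≤ B := by
      calc x a b * x a b ≤ ∑ b, x a b * x a b :=
            Finset.single_le_sum (f := fun b => x a b * x a b)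
              (fun j _ => mul_self_nonneg _) (Finset.mem_univ b)
        _ ≤ ∑ a, ∑ b, x a b * x a b :=
            Finset.single_le_sum (f := fun a => ∑ b, x a b * x a b)
              (fun j _ => Finset.sum_nonneg fun _ _ => mul_self_nonneg _) (Finset.mem_univ a)
        _ ≤ B := hx.2
    rw [Real.norm_eq_abs]
    by_contra hc
    push Not at hc
    have h2 : B * B < |x a b| * |x a b| := mul_lt_mul'' hc hc (by linarith) (by linarith)
    rw [abs_mul_abs_self] at h2
    nlinarith
  have hcomp : IsCompact S := Metric.isCompact_of_isClosed_isBounded hclosed hbd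
  obtain ⟨x, hx, hmin⟩ := hcomp.exists_isMinOn hne (N_cont (Re R ε)).continuousOn
  refine ⟨x, hx.1, fun y hy => ?_⟩
  by_cases hyS : y ∈ S
  · exact hmin hyS
  · have hdS : dl ∈ S := by
      refine ⟨hdl1, ?_⟩
      have e : ∀ a : Fin 6, ∑ b, dl a b * dl a b = 1 := by
        intro a
        rw [dl_sum a (fun b => dl a b)]
        simp [dl]
      simp only [e]
      have : (6 : ℝ) ≤ B := le_max_left _ _
      simpa using this
    have h1 : F x ≤ F dl := hmin hdS
    have h2 : B < ∑ a, ∑ b, y a b * y a b := by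
      by_contra hc
      push Not at hc
      exact hyS ⟨hy, hc⟩
    rw [← gram_tr] at h2
    set T := ∑ a, gram y a a with hT
    set e := T ^ 2 - ∑ a, ∑ b, gram y a b * gram y a b with he
    have h3 : T ^ 4 ≤ 243 * e ^ 5 := gram_ineq y hy
    have h4 : ε * e ≤ F y := N_Re_ge hR hp ε y
    refine le_trans h1 ?_
    by_contra hc
    push Not at hc
    have hB1 : 1 ≤ B := le_trans (le_max_left _ _) (le_max_right _ _)
    have hB2 : 243 * (F dl / ε) ^ 5 ≤ B := le_trans (le_max_right _ _) (le_max_right _ _)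
    have h5 : e < F dl / ε := by
      rw [lt_div_iff₀ hε]
      linarith
    have hT1 : 1 ≤ T := by linarith
    have he0 : 0 < e := by
      by_contra h0
      push Not at h0
      have : e ^ 5 ≤ 0 := by
        have h6 : e ^ 5 = e * (e ^ 2) ^ 2 := by ring
        rw [h6]
        exact mul_nonpos_of_nonpos_of_nonneg h0 (by positivity)
      have h7 : 0 < T ^ 4 := by positivity
      linarith
    have h8 : e ^ 5 ≤ (F dl / ε) ^ 5 := pow_le_pow_left₀ he0.le h5.le 5
    have h9 : T ≤ T ^ 4 := by
      calc T = T ^ 1 := (pow_one T).symm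
        _ ≤ T ^ 4 := pow_le_pow_right₀ hT1 (by norm_num)
    linarith

end Pool.Agent.Helper27.SK
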