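import Pool.Agent.H933R2.Hopf.Defs

/-!
# Sums over several indices
-/

set_option autoImplicit false

open scoped BigOperators

namespace Pool.Agent.Helper27.SK

open Hopf6

/-- arrays with two indices -/
abbrev M : Type := Fin 6 → Fin 6 → ℝ

def S6 (G : Fin 6 → Fin 6 → Fin 6 → Fin 6 → Fin 6 → Fin 6 → ℝ) : ℝ :=
  ∑ a, ∑ b, ∑ c, ∑ d, ∑ e, ∑ f, G a b c d e f

def S4 (G : Fin 6 → Fin 6 → Fin 6 → Fin 6 → ℝ) : ℝ := ∑ a, ∑ b, ∑ c, ∑ d, G a b c d

theorem rot3 (H : Fin 6 → Fin 6 → Fin 6 → ℝ) :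
    ∑ a, ∑ b, ∑ c, H b c a = ∑ a, ∑ b, ∑ c, H a b c := by
  rw [Finset.sum_comm]
  refine Finset.sum_congr rfl fun b _ => ?_
  rw [Finset.sum_comm]

theorem S6_rotA (G : Fin 6 → Fin 6 → Fin 6 → Fin 6 → Fin 6 → Fin 6 → ℝ) :
    S6 (fun a b c d e f => G b c a d e f) = S6 G :=
  rot3 fun a b c => ∑ d, ∑ e, ∑ f, G a b c d e f

theorem S6_rotB (G : Fin 6 → Fin 6 → Fin 6 → Fin 6 → Fin 6 → Fin 6 → ℝ) :
    S6 (fun a b c d e f => G a b c e f d) = S6 G := by
  unfold S6
  refine Finset.sum_congr rfl fun a _ => Finset.sum_congr rfl fun b _ =>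
    Finset.sum_congr rfl fun c _ => ?_
  exact rot3 fun d e f => G a b c d e f

theorem S6_add (G H : Fin 6 → Fin 6 → Fin 6 → Fin 6 → Fin 6 → Fin 6 → ℝ) :
    S6 (fun a b c d e f => G a b c d e f + H a b c d e f) = S6 G + S6 H := by
  simp only [S6, Finset.sum_add_distrib]

theorem S6_mul (t : ℝ) (G : Fin 6 → Fin 6 → Fin 6 → Fin 6 → Fin 6 → Fin 6 → ℝ) :
    S6 (fun a b c d e f => t * G a b c d e f) = t * S6 G := by
  simp only [S6, Finset.mul_sum]

theorem S6_congr {G H : Fin 6 → Fin 6 → Fin 6 → Fin 6 → Fin 6 → Fin 6 → ℝ}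
    (h : ∀ a b c d e f, G a b c d e f = H a b c d e f) : S6 G = S6 H := by
  unfold S6
  simp only [h]

theorem S6_nonneg {G : Fin 6 → Fin 6 → Fin 6 → Fin 6 → Fin 6 → Fin 6 → ℝ}
    (h : ∀ a b c d e f, 0 ≤ G a b c d e f) : 0 ≤ S6 G :=
  Finset.sum_nonneg fun a _ => Finset.sum_nonneg fun b _ => Finset.sum_nonneg fun c _ =>
    Finset.sum_nonneg fun d _ => Finset.sum_nonneg fun e _ => Finset.sum_nonneg fun f _ =>
      h a b c d e f

theorem S4_12 (F : Fin 6 → Fin 6 → Fin 6 → Fin 6 → ℝ) :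
    S4 (fun a b c d => F b a c d) = S4 F := Finset.sum_comm

theorem S4_23 (F : Fin 6 → Fin 6 → Fin 6 → Fin 6 → ℝ) :
    S4 (fun a b c d => F a c b d) = S4 F :=
  Finset.sum_congr rfl fun _ _ => Finset.sum_comm

theorem S4_34 (F : Fin 6 → Fin 6 → Fin 6 → Fin 6 → ℝ) :
    S4 (fun a b c d => F a b d c) = S4 F :=
  Finset.sum_congr rfl fun _ _ => Finset.sum_congr rfl fun _ _ => Finset.sum_comm

theorem S4_pair (F : Fin 6 → Fin 6 → Fin 6 → Fin 6 → ℝ) :
    S4 (fun a b c d => F c d a b) = S4 F := by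
  rw [← S4_23 F, ← S4_12 (fun a b c d => F a c b d), ← S4_34 (fun a b c d => F b c a d),
    ← S4_23 (fun a b c d => F b d a c)]

theorem S4_add (G H : Fin 6 → Fin 6 → Fin 6 → Fin 6 → ℝ) :
    S4 (fun a b c d => G a b c d + H a b c d) = S4 G + S4 H := by
  simp only [S4, Finset.sum_add_distrib]

theorem S4_sub (G H : Fin 6 → Fin 6 → Fin 6 → Fin 6 → ℝ) :
    S4 (fun a b c d => G a b c d - H a b c d) = S4 G - S4 H := by
  simp only [S4, Finset.sum_sub_distrib]

theorem S4_mul (t : ℝ) (G : Fin 6 → Fin 6 → Fin 6 → Fin 6 → ℝ) :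
    S4 (fun a b c d => t * G a b c d) = t * S4 G := by
  simp only [S4, Finset.mul_sum]

theorem S4_neg (G : Fin 6 → Fin 6 → Fin 6 → Fin 6 → ℝ) :
    S4 (fun a b c d => - G a b c d) = - S4 G := by
  simp only [S4, Finset.sum_neg_distrib]

theorem S4_congr {G H : Fin 6 → Fin 6 → Fin 6 → Fin 6 → ℝ}
    (h : ∀ a b c d, G a b c d = H a b c d) : S4 G = S4 H := by
  unfold S4
  simp only [h]

theorem S4_nonneg {G : Fin 6 → Fin 6 → Fin 6 → Fin 6 → ℝ}
    (h : ∀ a b c d, 0 ≤ G a b c d) : 0 ≤ S4 G :=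
  Finset.sum_nonneg fun a _ => Finset.sum_nonneg fun b _ => Finset.sum_nonneg fun c _ =>
    Finset.sum_nonneg fun d _ => h a b c d

/-- the product of a `(2,2)` form and a `(1,1)` form (up to a factor) -/
def wd (A : Ten) (k : M) (a b c d e f : Fin 6) : ℝ :=
  A a b d e * k c f + A a b e f * k c d + A a b f d * k c e +
  A b c d e * k a f + A b c e f * k a d + A b c f d * k a e +
  A c a d e * k b f + A c a e f * k b d + A c a f d * k b e

theorem wd_inner (A : Ten) (k : M) (X : Fin 6 → Fin 6 → Fin 6 → Fin 6 → Fin 6 → Fin 6 → ℝ)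
    (h1 : ∀ a b c d e f, X b c a d e f = X a b c d e f)
    (h2 : ∀ a b c d e f, X a b c e f d = X a b c d e f) :
    S6 (fun a b c d e f => wd A k a b c d e f * X a b c d e f) =
      9 * S6 (fun a b c d e f => A a b d e * k c f * X a b c d e f) := by
  set x : Fin 6 → Fin 6 → Fin 6 → Fin 6 → Fin 6 → Fin 6 → ℝ :=
    fun a b c d e f => A a b d e * k c f * X a b c d e f with hx
  have e1 : ∀ a b c d e f, wd A k a b c d e f * X a b c d e f =
      x a b c d e f + x a b c e f d + x a b c f d e +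
      x b c a d e f + x b c a e f d + x b c a f d e +
      x c a b d e f + x c a b e f d + x c a b f d e := by
    intro a b c d e f
    have c1 : X b c a d e f = X a b c d e f := h1 a b c d e f
    have c2 : X c a b d e f = X a b c d e f := (h1 c a b d e f).symm
    simp only [hx, wd]
    have r1 : ∀ p q r, X p q r e f d = X p q r d e f := fun p q r => h2 p q r d e f
    have r2 : ∀ p q r, X p q r f d e = X p q r d e f := fun p q r => by
      rw [← h2 p q r f d e]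
    rw [r1, r2, r1, r2, r1, r2, c1, c2]
    ring
  rw [S6_congr e1]
  simp only [S6_add]
  have b1 : ∀ G : Fin 6 → Fin 6 → Fin 6 → Fin 6 → Fin 6 → Fin 6 → ℝ,
      S6 (fun a b c d e f => G a b c e f d) = S6 G := S6_rotB
  have b2 : ∀ G : Fin 6 → Fin 6 → Fin 6 → Fin 6 → Fin 6 → Fin 6 → ℝ,
      S6 (fun a b c d e f => G a b c f d e) = S6 G := fun G => by
    rw [← S6_rotB (fun a b c d e f => G a b c f d e)]
  have a1 : ∀ G : Fin 6 → Fin 6 → Fin 6 → Fin 6 → Fin 6 → Fin 6 → ℝ,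
      S6 (fun a b c d e f => G b c a d e f) = S6 G := S6_rotA
  have a2 : ∀ G : Fin 6 → Fin 6 → Fin 6 → Fin 6 → Fin 6 → Fin 6 → ℝ,
      S6 (fun a b c d e f => G c a b d e f) = S6 G := fun G => by
    rw [← S6_rotA (fun a b c d e f => G c a b d e f)]
  rw [b1 x, b2 x, a1 x, a2 x, a1 (fun a b c d e f => x a b c e f d), b1 x,
    a1 (fun a b c d e f => x a b c f d e), b2 x, a2 (fun a b c d e f => x a b c e f d), b1 x,
    a2 (fun a b c d e f => x a b c f d e), b2 x]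
  ring

theorem wd_rotA (A : Ten) (k : M) (a b c d e f : Fin 6) :
    wd A k b c a d e f = wd A k a b c d e f := by
  unfold wd
  ring

theorem wd_rotB (A : Ten) (k : M) (a b c d e f : Fin 6) :
    wd A k a b c e f d = wd A k a b c d e f := by
  unfold wd
  ring

theorem sum_cons' {n : ℕ} (F : (Fin (n + 1) → Fin 6) → ℝ) :
    ∑ f, F f = ∑ a, ∑ g : Fin n → Fin 6, F (Fin.cons a g) := by
  rw [← (Fin.consEquiv fun _ : Fin (n + 1) => Fin 6).sum_comp, Fintype.sum_prod_type]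
  rfl

theorem S6_fun (G : Fin 6 → Fin 6 → Fin 6 → Fin 6 → Fin 6 → Fin 6 → ℝ) :
    S6 G = ∑ p : Fin 6 → Fin 6, G (p 0) (p 1) (p 2) (p 3) (p 4) (p 5) := by
  rw [sum_cons']
  refine Finset.sum_congr rfl fun a _ => ?_
  rw [sum_cons']
  refine Finset.sum_congr rfl fun b _ => ?_
  rw [sum_cons']
  refine Finset.sum_congr rfl fun c _ => ?_
  rw [sum_cons']
  refine Finset.sum_congr rfl fun d _ => ?_
  rw [sum_cons']
  refine Finset.sum_congr rfl fun e _ => ?_
  rw [sum_cons']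
  refine Finset.sum_congr rfl fun g _ => ?_
  rw [Fintype.sum_unique]
  congr 1

/-- renaming of the summation indices -/
theorem S6_rel (G : Fin 6 → Fin 6 → Fin 6 → Fin 6 → Fin 6 → Fin 6 → ℝ) (σ : Fin 6 → Fin 6)
    (hσ : ∀ a b, σ a = σ b → a = b) :
    S6 G = S6 fun a b c d e f => G (![a, b, c, d, e, f] (σ 0)) (![a, b, c, d, e, f] (σ 1))
      (![a, b, c, d, e, f] (σ 2)) (![a, b, c, d, e, f] (σ 3)) (![a, b, c, d, e, f] (σ 4))
      (![a, b, c, d, e, f] (σ 5)) := by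
  have hb : Function.Bijective σ := Finite.injective_iff_bijective.1 fun a b => hσ a b
  have e1 : ∀ (p : Fin 6 → Fin 6), (![p 0, p 1, p 2, p 3, p 4, p 5] : Fin 6 → Fin 6) = p := by
    intro p
    funext i
    fin_cases i <;> rfl
  rw [S6_fun, S6_fun]
  simp only [e1]
  refine Fintype.sum_equiv ((Equiv.ofBijective σ hb).arrowCongr (Equiv.refl _)) _ _ fun f => ?_
  have e2 : ∀ i, ((Equiv.ofBijective σ hb).arrowCongr (Equiv.refl (Fin 6))) f (σ i) = f i := by
    intro i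
    simp only [Equiv.arrowCongr_apply, Equiv.coe_refl, Function.comp, id]
    congr 1
    exact Equiv.ofBijective_symm_apply_apply σ hb i
  simp only [e2]

end Pool.Agent.Helper27.SK
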