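import Pool.Agent.Helper27.SK.Lor2

/-!
# Curvature tensors on Euclidean vector spaces
-/

set_option autoImplicit false

open scoped BigOperators

namespace Pool.Agent.Helper27.SK

open Hopf6 MeasureTheory

section
variable {V : Type*} [NormedAddCommGroup V] [InnerProductSpace ℝ V]

/-- The quadratic form of the curvature operator of the second kind on the symmetric tensors
`h` (given by their components in the orthonormal basis `e`), `-∑ R(e_i, e_k, e_j, e_l) h_ij h_kl`.
With the convention that `R x y x y` is the sectional curvature, for constant curvature `c` it is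
`c (|h|² - (tr h)²)`. -/
noncomputable def kind2 (e : OrthonormalBasis (Fin 6) ℝ V) (R : V → V → V → V → ℝ)
    (h : Fin 6 → Fin 6 → ℝ) : ℝ :=
  - ∑ i, ∑ j, ∑ k, ∑ l, R (e i) (e k) (e j) (e l) * (h i j * h k l)

/-- The form `kind2` is nonpositive on some hyperplane `∑ P_ij h_ij = 0` of the space of symmetric
tensors, i.e. it has at most one positive eigenvalue. (For `P` the identity: the curvature operator of
the second kind, on the traceless symmetric tensors, is nonpositive.) -/
def OnePos (e : OrthonormalBasis (Fin 6) ℝ V) (R : V → V → V → V → ℝ) : Prop :=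
  ∃ P : Fin 6 → Fin 6 → ℝ, ∀ h : Fin 6 → Fin 6 → ℝ, (∀ i j, h i j = h j i) →
    ∑ i, ∑ j, P i j * h i j = 0 → kind2 e R h ≤ 0

/-- The form `kind2` is negative definite on some hyperplane of the space of symmetric tensors. -/
def OnePosStrict (e : OrthonormalBasis (Fin 6) ℝ V) (R : V → V → V → V → ℝ) : Prop :=
  ∃ P : Fin 6 → Fin 6 → ℝ, ∀ h : Fin 6 → Fin 6 → ℝ, (∀ i j, h i j = h j i) →
    ∑ i, ∑ j, P i j * h i j = 0 → h ≠ 0 → kind2 e R h < 0

variable (e : OrthonormalBasis (Fin 6) ℝ V) {R : V → V → V → V → ℝ}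

theorem b2_neg (R : V → V → V → V → ℝ) (h : M) :
    b2 (tn e fun x y z w => - R x y z w) h h = kind2 e R h := by
  unfold b2 kind2 S4 tn
  simp only [← Finset.sum_neg_distrib]
  exact Finset.sum_congr rfl fun i _ => Finset.sum_congr rfl fun j _ =>
    Finset.sum_congr rfl fun k _ => Finset.sum_congr rfl fun l _ => by ring

theorem gbc_neg_eq (R : V → V → V → V → ℝ) :
    gbc e R = -(1 / ((8 * Real.pi) ^ 3 * 6) * gb (tn e fun x y z w => - R x y z w)) := by
  rw [gb_neg, gbc_eq]
  ring

theorem cpos : (0 : ℝ) < 1 / ((8 * Real.pi) ^ 3 * 6) := by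
  have := Real.pi_pos
  positivity

theorem gbc_nonpos (hR : AlgCurv R) (h : OnePos e R) : gbc e R ≤ 0 := by
  obtain ⟨P, hP⟩ := h
  have h1 : 0 ≤ gb (tn e fun x y z w => - R x y z w) :=
    gb_nonneg (tn_curv e (neg_curv hR)) (P := P) fun k hk h0 => by
      rw [b2_neg]
      exact hP k hk h0
  rw [gbc_neg_eq]
  have := mul_nonneg cpos.le h1
  linarith

theorem gbc_neg (hR : AlgCurv R) (h : OnePosStrict e R) : gbc e R < 0 := by
  obtain ⟨P, hP⟩ := h
  have h1 : 0 < gb (tn e fun x y z w => - R x y z w) :=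
    gb_pos (tn_curv e (neg_curv hR)) (P := P) fun k hk h0 hne => by
      rw [b2_neg]
      exact hP k hk h0 hne
  rw [gbc_neg_eq]
  have := mul_pos cpos h1
  linarith

theorem gbc_le (hR : AlgCurv R) {κ : ℝ} (hκ : 0 ≤ κ)
    (h : ∀ h : Fin 6 → Fin 6 → ℝ, (∀ i j, h i j = h j i) → ∑ i, h i i = 0 →
      kind2 e R h ≤ -(κ * ∑ i, ∑ j, h i j ^ 2)) : gbc e R ≤ -(1 / 9 * roundGB κ) := by
  have h1 : 640 * κ ^ 3 ≤ gb (tn e fun x y z w => - R x y z w) := by
    refine gb_ge (tn_curv e (neg_curv hR)) hκ fun k hk h0 => ?_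
    rw [b2_neg]
    simp only [← pow_two]
    exact h k hk h0
  rw [gbc_neg_eq]
  have h2 := mul_le_mul_of_nonneg_left h1 cpos.le
  have h3 : 1 / 9 * roundGB κ = 1 / ((8 * Real.pi) ^ 3 * 6) * (640 * κ ^ 3) := by
    unfold roundGB
    have := Real.pi_pos
    field_simp
    ring
  rw [h3]
  linarith

end

end Pool.Agent.Helper27.SK
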